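import Pool.Agent.Lib.MP_a247fa_nt.Crit.TRoot
import Pool.Agent.Lib.MP_e43fce_nt_nat.T1ALL
import Pool.Agent.Lib.MP_e43fce_nt_nat.POS
import Pool.Agent.Lib.MP_e43fce_nt_nat.DENS

/-! STAY (30 min). Tao type theorem and densities in terms of `T`.

`stay_above`: `T1_all` with `e0 = 1` and `col_above`. `dens_odd`: `inv_density` and `pos_dens` give the density `D > 0`
of all numbers which reach 1; the even ones among them have density `D / 2` (`sum_even_odd`). `T_reach_iff`. -/

set_option autoImplicit false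

namespace Pool.Agent.Lib.MP_a247fa_nt.Crit

open Finset Pool.Agent.Lib.MP_e43fce_nt_nat
open Pool.Agent.Lib.MP_a247fa_nt (T)

theorem stay_above : ∃ C : ℝ, 0 < C ∧ ∀ N X : ℕ, 2 ≤ N → 1 ≤ X →
    cnt {m : ℕ | ∀ k : ℕ, N < T^[k] m} X ≤ C * (Real.log N) ^ (-(1 / 4) : ℝ) * X := by
  classical
  obtain ⟨C, hC, h⟩ := T1_all (e0 := 1) one_pos
  refine ⟨C, hC, fun N X hN hX => le_trans ?_ (h N X hN hX)⟩
  set s : Finset ℕ := (Icc 1 X).filter (fun m : ℕ => ∀ k : ℕ, N < T^[k] m) with hs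
  rw [cnt_filter {m : ℕ | ∀ k : ℕ, N < T^[k] m} X s (by
    intro n
    simp only [hs, Finset.mem_filter, Finset.mem_Icc, Set.mem_setOf_eq]
    tauto)]
  norm_cast
  apply Finset.card_le_card
  intro m hm
  simp only [hs, Finset.mem_filter] at hm
  simp only [Finset.mem_filter]
  exact ⟨hm.1, fun k _ => col_above hm.2 k⟩

private theorem cnt_ind (E : Set ℕ) (X : ℕ) : cnt E X = ∑ n ∈ Icc 1 X, ind E n := by
  classical
  rw [cnt_filter E X ((Icc 1 X).filter (fun n => n ∈ E)) (by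
    intro n; simp only [Finset.mem_filter, Finset.mem_Icc]; tauto), Finset.card_filter]
  push_cast
  refine Finset.sum_congr rfl (fun n _ => ?_)
  unfold ind
  split_ifs <;> rfl

theorem dens_odd : ∃ δ : ℝ, 0 < δ ∧ HasDens {m : ℕ | m % 2 = 1 ∧ ∃ k : ℕ, T^[k] m = 1} δ := by
  classical
  obtain ⟨c, hc, hpos⟩ := pos_dens
  obtain ⟨D, hD⟩ := inv_density Rone Rone_inv
  have hDD : HasDens Rone D := by
    unfold HasDens
    refine hD.congr (fun X => ?_)
    rw [cnt_ind]
  have hDpos : 0 < D := by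
    obtain ⟨X0, hX0⟩ := hpos 1 one_pos (by norm_num)
    have hge : c / (1 : ℕ) ≤ D := by
      refine HasDens.ge (S := {n | ∃ k : ℕ, col^[k] n = 1}) (T := Rone) (X0 := X0) ?_ ?_ hDD
      · intro X hX
        refine (hX0 X hX).trans (le_of_eq ?_)
        rw [cnt_filter]
        intro n
        simp only [Finset.mem_filter, Finset.mem_Icc, Set.mem_setOf_eq]
        tauto
      · intro n _ hn
        exact hn
    have : (0 : ℝ) < c / (1 : ℕ) := by simpa using hc
    linarith
  refine ⟨D / 2, by positivity, ?_⟩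
  have hcnt : ∀ X : ℕ, cnt {m : ℕ | m % 2 = 1 ∧ ∃ k : ℕ, T^[k] m = 1} X =
      cnt Rone X - cnt Rone (X / 2) := by
    intro X
    have h1 := sum_even_odd (ind Rone) X
    rw [cnt_ind Rone X, cnt_ind Rone (X / 2), h1]
    have h2 : ∑ m ∈ Icc 1 (X / 2), ind Rone (2 * m) = ∑ m ∈ Icc 1 (X / 2), ind Rone m := by
      refine Finset.sum_congr rfl (fun m hm => ?_)
      rw [Finset.mem_Icc] at hm
      have := h34_inv_two_pow Rone_inv (m := m) (by omega) 1
      rw [pow_one] at this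
      exact h34_ind_congr this
    rw [h2, add_sub_cancel_right]
    rw [cnt_filter {m : ℕ | m % 2 = 1 ∧ ∃ k : ℕ, T^[k] m = 1} X
      (((Icc 1 X).filter (fun n => n % 2 = 1)).filter (fun n => n ∈ Rone)) (by
        intro n
        simp only [Finset.mem_filter, Finset.mem_Icc, Set.mem_setOf_eq]
        constructor
        · rintro ⟨⟨⟨h1, h2⟩, h3⟩, h4⟩
          exact ⟨⟨h3, (T_reach_iff (by omega)).mpr h4⟩, h1, h2⟩
        · rintro ⟨⟨h3, h4⟩, h1, h2⟩
          exact ⟨⟨⟨h1, h2⟩, h3⟩, (T_reach_iff (by omega)).mp h4⟩), Finset.card_filter]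
    push_cast
    refine Finset.sum_congr rfl (fun n _ => ?_)
    unfold ind
    split_ifs <;> rfl
  have hhalf : Filter.Tendsto (fun X : ℕ => X / 2) Filter.atTop Filter.atTop :=
    Nat.tendsto_div_const_atTop (by norm_num)
  have h3 : Filter.Tendsto (fun X : ℕ => cnt Rone (X / 2) / ((X / 2 : ℕ) : ℝ)) Filter.atTop (nhds D) :=
    hDD.comp hhalf
  have h4 : Filter.Tendsto (fun X : ℕ => (((X / 2 : ℕ) : ℝ)) / (X : ℝ)) Filter.atTop (nhds (1 / 2)) := by
    have hlow : Filter.Tendsto (fun X : ℕ => (1 / 2 : ℝ) - 1 / 2 * (1 / (X : ℝ))) Filter.atTop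
        (nhds (1 / 2)) := by
      have h5 : Filter.Tendsto (fun X : ℕ => 1 / (X : ℝ)) Filter.atTop (nhds 0) :=
        tendsto_one_div_atTop_nhds_zero_nat
      have h6 := (h5.const_mul (1 / 2)).const_sub (1 / 2)
      simpa using h6
    refine tendsto_of_tendsto_of_tendsto_of_le_of_le' hlow tendsto_const_nhds ?_ ?_
    · filter_upwards [Filter.eventually_ge_atTop 1] with X hX
      have hX' : (0 : ℝ) < X := by exact_mod_cast hX
      rw [le_div_iff₀ hX']
      have h7 : X ≤ 2 * (X / 2) + 1 := by omega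
      have h8 : (X : ℝ) ≤ 2 * ((X / 2 : ℕ) : ℝ) + 1 := by exact_mod_cast h7
      have h9 : 1 / (X : ℝ) * X = 1 := by field_simp
      nlinarith
    · filter_upwards [Filter.eventually_ge_atTop 1] with X hX
      have hX' : (0 : ℝ) < X := by exact_mod_cast hX
      rw [div_le_iff₀ hX']
      have h7 : 2 * (X / 2) ≤ X := by omega
      have h8 : 2 * ((X / 2 : ℕ) : ℝ) ≤ (X : ℝ) := by exact_mod_cast h7
      linarith
  have h5 := hDD.sub (h3.mul h4)
  have h6 : D - D * (1 / 2) = D / 2 := by ring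
  rw [h6] at h5
  unfold HasDens
  refine h5.congr' ?_
  filter_upwards [Filter.eventually_ge_atTop 2] with X hX
  have hX' : (0 : ℝ) < X := by
    have : 0 < X := by omega
    exact_mod_cast this
  have hX2 : (0 : ℝ) < ((X / 2 : ℕ) : ℝ) := by
    have : 0 < X / 2 := by omega
    exact_mod_cast this
  rw [hcnt X]
  field_simp

end Pool.Agent.Lib.MP_a247fa_nt.Crit
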