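import Pool.Agent.Lib.MP_a247fa_nt.Crit.Final
import Pool.Agent.Lib.MP_e43fce_ps.EFin

/-! PS: power saving for the critical orbits (helper53). The pathwise theorem `efin` with `1/100`: outside a
sparse set the orbit of `n` is below `L n` after `(log X) / 5` odd steps, so the climbing theorem needs
only the first steps. The rest is a copy of ClimbEven and Final. -/

set_option autoImplicit false

namespace Pool.Agent.Lib.MP_a247fa_nt.Crit

open Finset Pool.Agent.Lib.MP_e43fce_nt_nat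
open Pool.Agent.Lib.MP_a247fa_nt (T cf)

private theorem ps_halve (s : ℕ) : ∀ r a : ℕ, r ≤ a → s ≤ col^[r] (2 ^ a * s) := by
  intro r
  induction r with
  | zero =>
    intro a _
    exact Nat.le_mul_of_pos_left s (by positivity)
  | succ r ih =>
    intro a ha
    obtain ⟨b, rfl⟩ : ∃ b, a = b + 1 := ⟨a - 1, by omega⟩
    rw [Function.iterate_succ_apply]
    have h : col (2 ^ (b + 1) * s) = 2 ^ b * s := by
      unfold col
      have h : 2 ^ (b + 1) * s = 2 * (2 ^ b * s) := by ring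
      rw [h, if_pos (by omega)]
      omega
    rw [h]
    exact ih b (by omega)

private theorem ps_root_le {n : ℕ} (hn : n % 2 = 1) (j : ℕ) : ∀ t : ℕ, t ≤ j + (vw j n).sum →
    ∃ i ≤ j, root i n ≤ col^[t] n := by
  induction j with
  | zero =>
    intro t ht
    have h0 : t = 0 := by
      simp [vw] at ht
      exact ht
    subst h0
    exact ⟨0, le_rfl, le_rfl⟩
  | succ j ih =>
    intro t ht
    rcases Nat.lt_or_ge (j + (vw j n).sum) t with h | h
    · refine ⟨j + 1, le_rfl, ?_⟩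
      have h1 : (vw (j + 1) n).sum = vl (root j n) + (vw j n).sum := by
        simp only [vw, List.sum_cons]
      rw [h1] at ht
      obtain ⟨r, hr⟩ : ∃ r, t = r + 1 + (j + (vw j n).sum) := ⟨t - 1 - (j + (vw j n).sum), by omega⟩
      rw [hr, Function.iterate_add_apply, vw_col j n hn, Function.iterate_succ_apply]
      have h2 : col (root j n) = 2 ^ vl (root j n) * root (j + 1) n := by
        show col (root j n) = 2 ^ vl (root j n) * syr (root j n)
        rw [rootMX_syr_mul]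
        unfold col
        rw [if_neg (by have := root_odd j n hn; omega)]
      rw [h2]
      exact ps_halve _ r _ (by omega)
    · obtain ⟨i, hi, h1⟩ := ih t h
      exact ⟨i, by omega, h1⟩

/-- the path property -/
def PsPath (ε K : ℝ) (N X n : ℕ) : Prop := ∃ t : ℕ, col^[t] n ≤ N ∧ ∀ s ≤ t,
  |Real.log (col^[s] n) - (Real.log X - s * (Real.log (4 / 3) / 3))| ≤ ε * Real.log X + K

private theorem ps_good {n N X : ℕ} (hn : n % 2 = 1) {ε K L Y : ℝ} (hY : 0 < Y) (hL : 0 < L)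
    (hYn : Y ≤ n) (h : PsPath ε K N X n) {j : ℕ} (hj1 : L * n ≤ (root j n : ℝ))
    (hj2 : ∀ i ≤ j, N < root i n) :
    Real.log (L * Y) + j / 6 ≤ Real.log X + (ε * Real.log X + K) := by
  obtain ⟨t, ht, hs⟩ := h
  set s := j + (vw j n).sum with hsd
  have h1 : s < t := by
    by_contra h2
    push Not at h2
    obtain ⟨i, hi, h3⟩ := ps_root_le hn j t h2
    have := hj2 i hi
    omega
  have h2 := hs s h1.le
  rw [hsd, vw_col j n hn, ← hsd] at h2
  have h3 := (abs_le.1 h2).2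
  have h4 : Real.log (L * Y) ≤ Real.log (root j n : ℝ) := by
    apply Real.log_le_log (by positivity)
    exact (mul_le_mul_of_nonneg_left hYn hL.le).trans hj1
  have h5 : (j : ℝ) ≤ ((vw j n).sum : ℝ) := by
    have h6 : (vw j n).length • 1 ≤ (vw j n).sum :=
      List.card_nsmul_le_sum _ 1 (fun a ha => vw_pos j n hn a ha)
    rw [vw_length, smul_eq_mul, mul_one] at h6
    exact_mod_cast h6
  have h6 : (2 * j : ℝ) ≤ (s : ℝ) := by
    rw [hsd, Nat.cast_add]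
    linarith
  have h7 : (1 / 4 : ℝ) ≤ Real.log (4 / 3) := by
    have := Real.one_sub_inv_le_log_of_pos (show (0 : ℝ) < 4 / 3 by norm_num)
    norm_num at this
    linarith
  have h8 : (j : ℝ) / 6 ≤ s * (Real.log (4 / 3) / 3) := by
    have h9 : (0 : ℝ) ≤ j := Nat.cast_nonneg j
    have h10 : (2 * j : ℝ) * (1 / 12) ≤ s * (Real.log (4 / 3) / 3) :=
      mul_le_mul h6 (by linarith) (by norm_num) (Nat.cast_nonneg s)
    linarith
  linarith

/-- the three parts -/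
private theorem ps_split {X N n K0 : ℕ} (hn : n % 2 = 1) {ε K L Y : ℝ} (hY : 0 < Y) (hL : 0 < L)
    (hK0 : Real.log X + (ε * Real.log X + K) < Real.log (L * Y) + (K0 + 1 : ℝ) / 6) :
    pR L N n ≤ (if (n : ℝ) ≤ Y then 1 else 0) + hit Y (L * Y) (vw K0 n) +
      (open scoped Classical in if PsPath ε K N X n then 0 else 1) := by
  classical
  have h1 := hit_nonneg Y (L * Y) (vw K0 n)
  by_cases h : ∃ j : ℕ, L * n ≤ (root j n : ℝ) ∧ ∀ i ≤ j, N < root i n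
  · have e1 : pR L N n = 1 := by unfold pR; rw [if_pos h]
    rw [e1]
    by_cases h3 : (n : ℝ) ≤ Y
    · rw [if_pos h3]
      split_ifs <;> linarith
    · rw [if_neg h3]
      by_cases h4 : PsPath ε K N X n
      · obtain ⟨j, hj1, hj2⟩ := h
        have hYn : Y ≤ n := (not_le.1 h3).le
        have h5 := ps_good hn hY hL hYn h4 hj1 hj2
        have hjK : j ≤ K0 := by
          by_contra h6
          push Not at h6
          have h7 : (K0 + 1 : ℝ) ≤ j := by exact_mod_cast h6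
          linarith
        have h6 : Hit Y (L * Y) (vw K0 n) := hit_of_rel hY hYn hjK hj1
        have e2 : hit Y (L * Y) (vw K0 n) = 1 := by unfold hit; rw [if_pos h6]
        split_ifs
        linarith
      · rw [if_neg h4]
        linarith
  · have e1 : pR L N n = 0 := by unfold pR; rw [if_neg h]
    rw [e1]
    split_ifs <;> linarith

private theorem ps_part1 {Y : ℝ} (hY : 0 ≤ Y) (X : ℝ) :
    ∑ n ∈ oddS X, (if (n : ℝ) ≤ Y then (1 : ℝ) else 0) ≤ Y := by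
  rw [← Finset.sum_filter, Finset.sum_const, nsmul_eq_mul, mul_one]
  have h1 : (oddS X).filter (fun n : ℕ => (n : ℝ) ≤ Y) ⊆ Icc 1 ⌊Y⌋₊ := by
    intro n hn
    rw [mem_filter, oddS, mem_filter, mem_Icc] at hn
    rw [mem_Icc]
    exact ⟨hn.1.1.1, Nat.le_floor hn.2⟩
  have h2 := Finset.card_le_card h1
  rw [Nat.card_Icc, Nat.add_sub_cancel] at h2
  calc (((oddS X).filter (fun n : ℕ => (n : ℝ) ≤ Y)).card : ℝ) ≤ (⌊Y⌋₊ : ℝ) := by exact_mod_cast h2
    _ ≤ Y := Nat.floor_le hY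

/-- all errors tend to zero -/
private theorem ps_err (c1 c2 c3 c4 : ℝ) {δ η : ℝ} (hδ : 0 < δ) (hη : 0 < η) : ∃ x0 : ℝ, ∀ x : ℝ,
    x0 ≤ x → c1 * (x * Real.exp (-x)) + c2 * x ^ (-(1 / 4) : ℝ) + c3 * Real.exp (-(δ * x)) ≤ η ∧
      x + (1 / 100 * x + c4) < x + x / 5 / 6 := by
  have h1 : Filter.Tendsto (fun x : ℝ => x * Real.exp (-x)) Filter.atTop (nhds 0) := by
    have := Real.tendsto_pow_mul_exp_neg_atTop_nhds_zero 1
    simpa using this
  have h2 : Filter.Tendsto (fun x : ℝ => x ^ (-(1 / 4) : ℝ)) Filter.atTop (nhds 0) :=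
    tendsto_rpow_neg_atTop (by norm_num)
  have h3 : Filter.Tendsto (fun x : ℝ => Real.exp (-(δ * x))) Filter.atTop (nhds 0) := by
    apply Real.tendsto_exp_neg_atTop_nhds_zero.comp
    exact Filter.tendsto_id.const_mul_atTop hδ
  have h4 := ((h1.const_mul c1).add (h2.const_mul c2)).add (h3.const_mul c3)
  simp only [mul_zero, add_zero] at h4
  have h5 := h4.eventually (gt_mem_nhds hη)
  obtain ⟨x0, hx0⟩ := Filter.eventually_atTop.1 h5
  refine ⟨max x0 (50 * |c4| + 50), fun x hx => ⟨(hx0 x ((le_max_left _ _).trans hx)).le, ?_⟩⟩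
  have h6 : 50 * |c4| + 50 ≤ x := (le_max_right _ _).trans hx
  have h7 := le_abs_self c4
  have h8 := abs_nonneg c4
  linarith

theorem climb_rel_ps {e : ℝ} (he : e < 1 / 20) : ∃ C : ℝ, 0 < C ∧ ∀ N : ℕ, 1 ≤ N → ∀ L ε : ℝ,
    0 < L → 0 < ε → ∃ X0 : ℕ, ∀ X : ℕ, X0 ≤ X →
      ∑ n ∈ oddS (X : ℝ), pR L N n ≤ (1 / (2 * L) + C * (N : ℝ) ^ (-e) + ε) * X := by
  classical
  obtain ⟨δ1, K1, hδ1, hK1, hP⟩ := Pool.Agent.Lib.MP_e43fce_ps.efin
    (d' := max e (1 / 40)) (lt_max_of_lt_right (by norm_num)) (max_lt he (by norm_num))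
    (ε := 1 / 100) (by norm_num)
  obtain ⟨C2, x2, hC2, hx2, h2⟩ := hit_count
  refine ⟨K1, hK1, fun N hN L ε hL hε => ?_⟩
  set δ := ε / 4 with hδ
  have hδpos : 0 < δ := by rw [hδ]; positivity
  obtain ⟨x4, hx4⟩ := ps_err (1 / (L * δ)) C2 K1 (K1 - Real.log (L * δ)) hδ1 (half_pos hε)
  set x5 := max (max x2 100) x4 with hx5
  obtain ⟨X0, hX0⟩ := exists_nat_ge (Real.exp x5)
  refine ⟨X0, ?_⟩
  intro X hXX
  have hX : Real.exp x5 ≤ (X : ℝ) := hX0.trans (by exact_mod_cast hXX)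
  have hXpos : (0 : ℝ) < X := lt_of_lt_of_le (Real.exp_pos _) hX
  have hX1 : 1 ≤ X := by exact_mod_cast hXpos
  obtain ⟨x, hxX⟩ : ∃ x, (X : ℝ) = Real.exp x := ⟨Real.log X, (Real.exp_log hXpos).symm⟩
  have hlogX : Real.log X = x := by rw [hxX, Real.log_exp]
  have hx : x5 ≤ x := by
    rw [hxX] at hX
    exact Real.exp_le_exp.1 hX
  have hxx2 : x2 ≤ x := ((le_max_left _ _).trans (le_max_left _ _)).trans hx
  have hx100 : 100 ≤ x := ((le_max_right _ _).trans (le_max_left _ _)).trans hx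
  have hxx4 : x4 ≤ x := (le_max_right _ _).trans hx
  have hxpos : 0 < x := by linarith
  set K := ⌊x / 5⌋₊ with hK
  have hK2 : (K : ℝ) ≤ x / 5 := Nat.floor_le (by positivity)
  have hK1' : x / 5 < (K : ℝ) + 1 := by
    have := Nat.lt_floor_add_one (x / 5)
    rwa [← hK] at this
  set Y := δ * Real.exp x with hY
  have hYpos : 0 < Y := by rw [hY]; positivity
  obtain ⟨hgl, hgl2⟩ := hx4 x hxx4
  have hsp : Real.log X + (1 / 100 * Real.log X + K1) < Real.log (L * Y) + ((K : ℝ) + 1) / 6 := by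
    have h5 : Real.log (L * Y) = Real.log (L * δ) + x := by
      rw [hY, ← mul_assoc, Real.log_mul (by positivity) (Real.exp_pos x).ne', Real.log_exp]
    rw [hlogX, h5]
    linarith
  have p1 := ps_part1 hYpos.le (Real.exp x)
  have p2 := h2 x hxx2 K 0 (by linarith) (by linarith) (by simp) Y (L * Y) hYpos.le (by positivity)
  have e2 : ∑ n ∈ oddS (Real.exp x), hit Y (L * Y) (vw K n) * MM 0 (n : ℤ) =
      ∑ n ∈ oddS (Real.exp x), hit Y (L * Y) (vw K n) :=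
    Finset.sum_congr rfl (fun n _ => by rw [MM_zero, mul_one])
  rw [e2] at p2
  have p3 : ∑ n ∈ oddS (X : ℝ), (if PsPath (1 / 100) K1 N X n then (0 : ℝ) else 1) ≤
      K1 * ((N : ℝ) ^ (-e) + Real.exp (-(δ1 * x))) * X := by
    have h5 : ∑ n ∈ oddS (X : ℝ), (if PsPath (1 / 100) K1 N X n then (0 : ℝ) else 1) =
        (((oddS (X : ℝ)).filter (fun n => ¬ PsPath (1 / 100) K1 N X n)).card : ℝ) := by
      rw [Finset.card_filter]
      push_cast
      refine Finset.sum_congr rfl (fun n _ => ?_)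
      split_ifs <;> simp_all
    rw [h5]
    have h6 := hP N X hN hX1 ((oddS (X : ℝ)).filter (fun n => ¬ PsPath (1 / 100) K1 N X n)) (by
      intro n hn
      rw [mem_filter, oddS, mem_filter, mem_Icc, Nat.floor_natCast] at hn
      exact ⟨hn.1.1.1, hn.1.1.2, hn.2⟩)
    refine h6.trans ?_
    apply mul_le_mul_of_nonneg_right _ hXpos.le
    apply mul_le_mul_of_nonneg_left _ hK1.le
    apply add_le_add
    · apply Real.rpow_le_rpow_of_exponent_le (by exact_mod_cast hN)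
      have := le_max_left e (1 / 40)
      linarith
    · rw [hxX, ← Real.exp_mul]
      apply le_of_eq
      congr 1
      ring
  have hsplit : ∑ n ∈ oddS (X : ℝ), pR L N n ≤
      ∑ n ∈ oddS (X : ℝ), (if (n : ℝ) ≤ Y then (1 : ℝ) else 0) +
      ∑ n ∈ oddS (X : ℝ), hit Y (L * Y) (vw K n) +
      ∑ n ∈ oddS (X : ℝ), (if PsPath (1 / 100) K1 N X n then (0 : ℝ) else 1) := by
    rw [← Finset.sum_add_distrib, ← Finset.sum_add_distrib]
    refine Finset.sum_le_sum (fun n hn => ?_)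
    have hodd : n % 2 = 1 := by
      rw [oddS, mem_filter] at hn
      exact hn.2
    have := ps_split (X := X) (N := N) (n := n) hodd hYpos hL hsp
    refine this.trans (le_of_eq ?_)
    congr 1
  have hE := Real.exp_pos x
  -- second part
  have q2 : 1 / 2 * ((Y + K / 3) / (L * Y)) ≤
      1 / (2 * L) + 1 / (L * δ) * (x * Real.exp (-x)) := by
    have a1 : 1 / 2 * ((Y + K / 3) / (L * Y)) = 1 / (2 * L) + K / 6 / (L * Y) := by
      field_simp
      ring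
    have a2 : (K : ℝ) / 6 / (L * Y) = 1 / (L * δ) * (K / 6 * Real.exp (-x)) := by
      rw [hY, Real.exp_neg]
      field_simp
    rw [a1, a2]
    have a3 : (K : ℝ) / 6 ≤ x := by linarith
    gcongr
  rw [hxX] at hsplit p3 ⊢
  have fin : Y + Real.exp x * (1 / 2 * ((Y + K / 3) / (L * Y)) + C2 * x ^ (-(1 / 4) : ℝ)) +
      K1 * ((N : ℝ) ^ (-e) + Real.exp (-(δ1 * x))) * Real.exp x ≤
      (1 / (2 * L) + K1 * (N : ℝ) ^ (-e) + ε) * Real.exp x := by
    have b1 : Y + Real.exp x * (1 / 2 * ((Y + K / 3) / (L * Y)) + C2 * x ^ (-(1 / 4) : ℝ)) +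
        K1 * ((N : ℝ) ^ (-e) + Real.exp (-(δ1 * x))) * Real.exp x =
        Real.exp x * (δ + 1 / 2 * ((Y + K / 3) / (L * Y)) + C2 * x ^ (-(1 / 4) : ℝ) +
        K1 * ((N : ℝ) ^ (-e) + Real.exp (-(δ1 * x)))) := by
      rw [hY]; ring
    rw [b1, mul_comm (1 / (2 * L) + K1 * (N : ℝ) ^ (-e) + ε)]
    refine mul_le_mul_of_nonneg_left ?_ hE.le
    have b3 : δ = ε / 4 := hδ
    linarith
  linarith

theorem stay_ps {e : ℝ} (he : e < 1 / 20) : ∃ C : ℝ, 0 < C ∧ ∀ N X : ℕ, 1 ≤ N → 1 ≤ X →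
    cnt {m : ℕ | ∀ k : ℕ, N < T^[k] m} X ≤ C * (N : ℝ) ^ (-e) * X := by
  classical
  obtain ⟨c, C, hc, hC, h⟩ := Pool.Agent.Lib.MP_e43fce_ps.pfin_twenty
    (d' := max e (1 / 40)) (lt_max_of_lt_right (by norm_num)) (max_lt he (by norm_num))
  refine ⟨C, hC, fun N X hN hX => ?_⟩
  set s : Finset ℕ := (Icc 1 X).filter (fun m : ℕ => ∀ k : ℕ, N < T^[k] m) with hs
  rw [cnt_filter {m : ℕ | ∀ k : ℕ, N < T^[k] m} X s (by
    intro n
    simp only [hs, Finset.mem_filter, Finset.mem_Icc, Set.mem_setOf_eq]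
    tauto)]
  have h1 := h N X hN hX s (by
    intro m hm
    simp only [hs, Finset.mem_filter, Finset.mem_Icc] at hm
    exact ⟨hm.1.1, hm.1.2, fun k _ => col_above hm.2 k⟩)
  refine h1.trans ?_
  apply mul_le_mul_of_nonneg_right _ (Nat.cast_nonneg X)
  apply mul_le_mul_of_nonneg_left _ hC.le
  apply Real.rpow_le_rpow_of_exponent_le (by exact_mod_cast hN)
  have := le_max_left e (1 / 40)
  linarith

private theorem ps_cnt_ind (E : Set ℕ) (X : ℕ) : cnt E X = ∑ n ∈ Icc 1 X, ind E n := by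
  classical
  rw [cnt_filter E X ((Icc 1 X).filter (fun n => n ∈ E)) (by
    intro n; simp only [Finset.mem_filter, Finset.mem_Icc]; tauto), Finset.card_filter]
  push_cast
  refine Finset.sum_congr rfl (fun n _ => ?_)
  unfold ind
  split_ifs <;> rfl

private theorem ps_ind_unit (E : Set ℕ) : Unit01 (ind E) := by
  intro n
  unfold ind
  split <;> norm_num

/-- the numbers `2^a n`, `n` odd: relative density of the climbing ones at most `3 / (4 θ 2^a)` -/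
theorem climb_pow_ps {e : ℝ} (he : e < 1 / 20) {θ : ℝ} (hθ : 1 ≤ θ) : ∃ C : ℝ, 0 < C ∧ ∀ N : ℕ, 1 ≤ N → ∀ a : ℕ, ∀ ε : ℝ, 0 < ε →
    ∃ X0 : ℕ, ∀ X : ℕ, X0 ≤ X →
      cnt {n : ℕ | n % 2 = 1 ∧ ∃ k : ℕ, θ * ((2 ^ a * n : ℕ) : ℝ) < ((T^[k] (2 ^ a * n) : ℕ) : ℝ) ∧
          ∀ i ≤ k, N < T^[i] (2 ^ a * n)} X
        ≤ (3 / (4 * θ * 2 ^ a) + C * (N : ℝ) ^ (-e) + ε) * X := by
  classical
  obtain ⟨C, hC, h⟩ := climb_rel_ps he
  refine ⟨C, hC, fun N hN a ε hε => ?_⟩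
  set η : ℝ := min (1 / 3) (ε * (4 / 27)) with hη
  have hη0 : 0 < η := lt_min (by norm_num) (by positivity)
  have hη1 : η ≤ 1 / 3 := min_le_left _ _
  have hη2 : η ≤ ε * (4 / 27) := min_le_right _ _
  set M : ℝ := 2 / 3 * θ * 2 ^ a with hM
  have h2a : (1 : ℝ) ≤ 2 ^ a := one_le_pow₀ (by norm_num)
  have hM1 : 2 / 3 ≤ M := by
    have : 1 * 1 ≤ θ * 2 ^ a := mul_le_mul hθ h2a (by norm_num) (by linarith)
    rw [hM]
    nlinarith
  have hL : 0 < M - η := by linarith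
  obtain ⟨X1, hX⟩ := h N hN (M - η) (ε / 3) hL (by positivity)
  refine ⟨X1 + ⌈1 / (η * ε)⌉₊, fun X hXX => ?_⟩
  have hXa : X1 ≤ X := by omega
  have hXb : 1 / (η * ε) ≤ (X : ℝ) := by
    have h1 : ⌈1 / (η * ε)⌉₊ ≤ X := by omega
    exact (Nat.le_ceil _).trans (by exact_mod_cast h1)
  have hX0 : (0 : ℝ) ≤ X := Nat.cast_nonneg _
  have key := hX X hXa
  -- counting
  have hcount : cnt {n : ℕ | n % 2 = 1 ∧ ∃ k : ℕ,
      θ * ((2 ^ a * n : ℕ) : ℝ) < ((T^[k] (2 ^ a * n) : ℕ) : ℝ) ∧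
          ∀ i ≤ k, N < T^[i] (2 ^ a * n)} X ≤
      1 / (3 * η) + ∑ n ∈ oddS (X : ℝ), pR (M - η) N n := by
    set G : Set ℕ := {n : ℕ | n % 2 = 1 ∧ ∃ k : ℕ,
      θ * ((2 ^ a * n : ℕ) : ℝ) < ((T^[k] (2 ^ a * n) : ℕ) : ℝ) ∧
          ∀ i ≤ k, N < T^[i] (2 ^ a * n)} with hG
    set s1 : Finset ℕ := Icc 1 ⌊1 / (3 * η)⌋₊ with hs1
    set s2 : Finset ℕ := (oddS (X : ℝ)).filter (fun n => ∃ j : ℕ,
      (M - η) * n ≤ (root j n : ℝ) ∧ ∀ i ≤ j, N < root i n) with hs2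
    have h1 : cnt G X ≤ ((s1 ∪ s2).card : ℝ) := by
      rw [cnt_filter G X ((Icc 1 X).filter (fun n => n ∈ G)) (by
        intro n; simp only [Finset.mem_filter, Finset.mem_Icc]; tauto)]
      norm_cast
      apply Finset.card_le_card
      intro n hn
      rw [Finset.mem_filter, Finset.mem_Icc] at hn
      obtain ⟨⟨hn1, hn2⟩, hnodd, k, hk1, hk2⟩ := hn
      rw [Finset.mem_union]
      by_cases hsmall : (n : ℝ) ≤ 1 / (3 * η)
      · left
        rw [hs1, Finset.mem_Icc]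
        exact ⟨hn1, Nat.le_floor hsmall⟩
      · right
        push Not at hsmall
        obtain ⟨j, hj1, hj2⟩ := climb_T hnodd hθ hk1 hk2
        rw [hs2, Finset.mem_filter]
        refine ⟨?_, j, ?_, hj2⟩
        · unfold oddS
          rw [Nat.floor_natCast, Finset.mem_filter, Finset.mem_Icc]
          exact ⟨⟨hn1, hn2⟩, hnodd⟩
        · rw [div_lt_iff₀ (by positivity)] at hsmall
          have : (M - η) * n ≤ 2 / 3 * θ * 2 ^ a * n - 1 / 3 := by
            rw [hM]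
            nlinarith
          linarith
    have h2 : ((s1 ∪ s2).card : ℝ) ≤ (s1.card : ℝ) + (s2.card : ℝ) := by
      exact_mod_cast Finset.card_union_le s1 s2
    have h3 : (s1.card : ℝ) ≤ 1 / (3 * η) := by
      rw [hs1, Nat.card_Icc]
      simp only [add_tsub_cancel_right]
      exact Nat.floor_le (by positivity)
    have h4 : (s2.card : ℝ) = ∑ n ∈ oddS (X : ℝ), pR (M - η) N n := by
      rw [hs2, Finset.card_filter]
      push_cast
      refine Finset.sum_congr rfl (fun n _ => ?_)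
      unfold pR
      split_ifs <;> rfl
    linarith
  -- the constant
  have hconst : 1 / (2 * (M - η)) ≤ 3 / (4 * θ * 2 ^ a) + ε / 3 := by
    have h1 : 3 / (4 * θ * 2 ^ a) = 1 / (2 * M) := by
      rw [hM]
      field_simp
      norm_num
    rw [h1]
    have hMpos : 0 < M := by linarith
    have h2 : 1 / (2 * (M - η)) - 1 / (2 * M) = η / (2 * M * (M - η)) := by
      field_simp
      ring
    have h3 : η / (2 * M * (M - η)) ≤ η / (4 / 9) := by
      apply div_le_div_of_nonneg_left hη0.le (by norm_num)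
      have : 1 / 3 ≤ M - η := by linarith
      nlinarith
    have h4 : η / (4 / 9) ≤ ε / 3 := by
      rw [div_le_iff₀ (by norm_num)]
      linarith
    linarith
  have hsm : 1 / (3 * η) ≤ ε / 3 * X := by
    have h1 : ε / 3 * (1 / (η * ε)) ≤ ε / 3 * X := mul_le_mul_of_nonneg_left hXb (by positivity)
    have h2 : ε / 3 * (1 / (η * ε)) = 1 / (3 * η) := by
      field_simp
    linarith
  calc cnt {n : ℕ | n % 2 = 1 ∧ ∃ k : ℕ,
      θ * ((2 ^ a * n : ℕ) : ℝ) < ((T^[k] (2 ^ a * n) : ℕ) : ℝ) ∧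
          ∀ i ≤ k, N < T^[i] (2 ^ a * n)} X
      ≤ 1 / (3 * η) + ∑ n ∈ oddS (X : ℝ), pR (M - η) N n := hcount
    _ ≤ ε / 3 * X + (1 / (2 * (M - η)) + C * (N : ℝ) ^ (-e) + ε / 3) * X :=
        add_le_add hsm key
    _ ≤ ε / 3 * X + ((3 / (4 * θ * 2 ^ a) + ε / 3) + C * (N : ℝ) ^ (-e) + ε / 3) * X := by
        gcongr
    _ = (3 / (4 * θ * 2 ^ a) + C * (N : ℝ) ^ (-e) + ε) * X := by ring

private theorem ps_dyadic_le (J : ℕ) : ∀ (q : ℕ → ℝ), Unit01 q → ∀ X : ℕ, ∑ n ∈ Icc 1 X, q n ≤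
    ∑ a ∈ range J, ∑ m ∈ (Icc 1 (X / 2 ^ a)).filter (fun n => n % 2 = 1), q (2 ^ a * m)
      + (X : ℝ) / 2 ^ J := by
  induction J with
  | zero =>
    intro q hq X
    simp only [range_zero, sum_empty, pow_zero, div_one, zero_add]
    calc ∑ n ∈ Icc 1 X, q n ≤ ∑ n ∈ Icc 1 X, (1 : ℝ) := Finset.sum_le_sum (fun n _ => (hq n).2)
      _ = X := by simp
  | succ J ih =>
    intro q hq X
    rw [sum_even_odd q X, Finset.sum_range_succ']
    have h1 := ih (fun m => q (2 * m)) (fun n => hq _) (X / 2)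
    have h2 : ∀ a : ℕ, X / 2 / 2 ^ a = X / 2 ^ (a + 1) := by
      intro a
      rw [Nat.div_div_eq_div_mul, pow_succ, mul_comm]
    have h3 : ∀ a m : ℕ, 2 * (2 ^ a * m) = 2 ^ (a + 1) * m := by
      intro a m
      ring
    simp only [h2, h3] at h1
    have h4 : ((X / 2 : ℕ) : ℝ) / 2 ^ J ≤ (X : ℝ) / 2 ^ (J + 1) := by
      have h5 : ((X / 2 : ℕ) : ℝ) ≤ (X : ℝ) / 2 := by exact_mod_cast Nat.cast_div_le
      calc ((X / 2 : ℕ) : ℝ) / 2 ^ J ≤ ((X : ℝ) / 2) / 2 ^ J := by gcongr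
        _ = (X : ℝ) / 2 ^ (J + 1) := by
          rw [pow_succ]
          field_simp
    simp only [pow_zero, Nat.div_one, one_mul]
    linarith

private theorem ps_geom_bound (α B : ℝ) (J : ℕ) :
    ∑ a ∈ range (J + 1), (if a = 0 then (0 : ℝ) else (3 * α / 2 ^ a + B) / 2 ^ a) =
      α * (1 - 1 / 4 ^ J) + B * (1 - 1 / 2 ^ J) := by
  induction J with
  | zero => simp
  | succ J ih =>
    rw [Finset.sum_range_succ, ih, if_neg (by omega)]
    have h4 : (4 : ℝ) ^ (J + 1) = 2 ^ (J + 1) * 2 ^ (J + 1) := by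
      rw [← mul_pow]
      norm_num
    have h4' : (4 : ℝ) ^ J = 2 ^ J * 2 ^ J := by
      rw [← mul_pow]
      norm_num
    rw [h4, h4', pow_succ]
    field_simp
    ring

theorem climb_even_ps {e : ℝ} (he : e < 1 / 20) {θ : ℝ} (hθ : 1 ≤ θ) : ∃ C : ℝ, 0 < C ∧ ∀ N : ℕ, 1 ≤ N → ∀ ε : ℝ, 0 < ε →
    ∃ X0 : ℕ, ∀ X : ℕ, X0 ≤ X →
      cnt {m : ℕ | m % 2 = 0 ∧ ∃ k : ℕ, θ * (m : ℝ) < ((T^[k] m : ℕ) : ℝ) ∧ ∀ i ≤ k, N < T^[i] m} X
        ≤ (1 / (4 * θ) + C * (N : ℝ) ^ (-e) + ε) * X := by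
  classical
  obtain ⟨C, hC, h⟩ := climb_pow_ps he hθ
  refine ⟨C, hC, fun N hN ε hε => ?_⟩
  choose Y hY using fun a : ℕ => h N hN a (ε / 2) (by positivity)
  obtain ⟨J, hJ⟩ : ∃ J : ℕ, 1 / (2 : ℝ) ^ (J + 1) ≤ ε / 2 := by
    obtain ⟨J, hJ⟩ := exists_pow_lt_of_lt_one (half_pos hε) (by norm_num : (1 / 2 : ℝ) < 1)
    refine ⟨J, ?_⟩
    have h1 : (1 / (2 : ℝ)) ^ (J + 1) ≤ (1 / 2) ^ J :=
      pow_le_pow_of_le_one (by norm_num) (by norm_num) (Nat.le_succ J)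
    rw [one_div_pow] at h1
    linarith
  set S : ℕ := ∑ a ∈ range (J + 1), Y a with hS
  refine ⟨2 ^ J * S, fun X hX => ?_⟩
  have hX0 : (0 : ℝ) ≤ X := Nat.cast_nonneg _
  set E : Set ℕ := {m : ℕ | m % 2 = 0 ∧ ∃ k : ℕ, θ * (m : ℝ) < ((T^[k] m : ℕ) : ℝ) ∧
    ∀ i ≤ k, N < T^[i] m} with hE
  set B : ℝ := C * (N : ℝ) ^ (-e) + ε / 2 with hB
  have hlog : 0 ≤ (N : ℝ) ^ (-e) := Real.rpow_nonneg (Nat.cast_nonneg N) _
  have hB0 : 0 ≤ B := by positivity
  have h1 := ps_dyadic_le (J + 1) (ind E) (ps_ind_unit E) X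
  rw [← ps_cnt_ind] at h1
  have hterm : ∀ a ∈ range (J + 1),
      ∑ m ∈ (Icc 1 (X / 2 ^ a)).filter (fun n => n % 2 = 1), ind E (2 ^ a * m) ≤
        (if a = 0 then (0 : ℝ) else (3 * (1 / (4 * θ)) / 2 ^ a + B) / 2 ^ a) * X := by
    intro a ha
    rw [Finset.mem_range] at ha
    rcases Nat.eq_zero_or_pos a with h0 | h0
    · subst h0
      rw [if_pos rfl, zero_mul]
      apply le_of_eq
      apply Finset.sum_eq_zero
      intro m hm
      rw [Finset.mem_filter] at hm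
      unfold ind
      rw [if_neg]
      rintro ⟨hm0, _⟩
      rw [pow_zero, one_mul] at hm0
      omega
    · rw [if_neg (by omega)]
      have hYa : Y a ≤ X / 2 ^ a := by
        have h2 : Y a ≤ S := by
          rw [hS]
          exact Finset.single_le_sum (f := Y) (fun _ _ => Nat.zero_le _) (Finset.mem_range.mpr ha)
        rw [Nat.le_div_iff_mul_le (by positivity)]
        calc Y a * 2 ^ a ≤ S * 2 ^ J :=
              Nat.mul_le_mul h2 (Nat.pow_le_pow_right (by norm_num) (by omega))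
          _ = 2 ^ J * S := by ring
          _ ≤ X := hX
      have h3 := hY a (X / 2 ^ a) hYa
      have h4 : ∑ m ∈ (Icc 1 (X / 2 ^ a)).filter (fun n => n % 2 = 1), ind E (2 ^ a * m) ≤
          cnt {n : ℕ | n % 2 = 1 ∧ ∃ k : ℕ,
            θ * ((2 ^ a * n : ℕ) : ℝ) < ((T^[k] (2 ^ a * n) : ℕ) : ℝ) ∧
              ∀ i ≤ k, N < T^[i] (2 ^ a * n)} (X / 2 ^ a) := by
        rw [ps_cnt_ind, Finset.sum_filter]
        apply Finset.sum_le_sum
        intro n _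
        by_cases hodd : n % 2 = 1
        · rw [if_pos hodd]
          unfold ind
          by_cases hin : 2 ^ a * n ∈ E
          · rw [if_pos hin]
            obtain ⟨_, k, hk⟩ := hin
            have hmem : n ∈ {n : ℕ | n % 2 = 1 ∧ ∃ k : ℕ,
              θ * ((2 ^ a * n : ℕ) : ℝ) < ((T^[k] (2 ^ a * n) : ℕ) : ℝ) ∧
              ∀ i ≤ k, N < T^[i] (2 ^ a * n)} := ⟨hodd, k, hk⟩
            exact le_of_eq (if_pos hmem).symm
          · rw [if_neg hin]
            split_ifs <;> norm_num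
        · rw [if_neg hodd]
          exact (ps_ind_unit _ n).1
      have h5 : ((X / 2 ^ a : ℕ) : ℝ) ≤ (X : ℝ) / 2 ^ a := by
        have := Nat.cast_div_le (α := ℝ) (m := X) (n := 2 ^ a)
        push_cast at this
        exact this
      calc ∑ m ∈ (Icc 1 (X / 2 ^ a)).filter (fun n => n % 2 = 1), ind E (2 ^ a * m)
          ≤ (3 / (4 * θ * 2 ^ a) + C * (N : ℝ) ^ (-e) + ε / 2) *
              ((X / 2 ^ a : ℕ) : ℝ) := h4.trans h3
        _ ≤ (3 / (4 * θ * 2 ^ a) + C * (N : ℝ) ^ (-e) + ε / 2) *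
              ((X : ℝ) / 2 ^ a) := by
            apply mul_le_mul_of_nonneg_left h5
            positivity
        _ = (3 * (1 / (4 * θ)) / 2 ^ a + B) / 2 ^ a * X := by
            rw [hB]
            field_simp
            ring
  have h6 := Finset.sum_le_sum hterm
  rw [← Finset.sum_mul, ps_geom_bound] at h6
  have hα : 0 ≤ 1 / (4 * θ) := by positivity
  have h7 : 1 / (4 * θ) * (1 - 1 / 4 ^ J) + B * (1 - 1 / 2 ^ J) ≤ 1 / (4 * θ) + B := by
    have h8 : 0 ≤ 1 / (4 * θ) * (1 / 4 ^ J) := by positivity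
    have h9 : 0 ≤ B * (1 / 2 ^ J) := by positivity
    nlinarith
  have h8 : (X : ℝ) / 2 ^ (J + 1) ≤ ε / 2 * X := by
    calc (X : ℝ) / 2 ^ (J + 1) = 1 / (2 : ℝ) ^ (J + 1) * X := by ring
      _ ≤ ε / 2 * X := mul_le_mul_of_nonneg_right hJ hX0
  have h9 := mul_le_mul_of_nonneg_right h7 hX0
  calc cnt E X ≤ (1 / (4 * θ) + B) * X + ε / 2 * X := by linarith
    _ = (1 / (4 * θ) + C * (N : ℝ) ^ (-e) + ε) * X := by
        rw [hB]
        ring


theorem odd_below_ps {e : ℝ} (he : e < 1 / 20) : ∃ C : ℝ, 0 < C ∧ ∀ N X : ℕ, 1 ≤ N → 1 ≤ X →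
    cnt {m : ℕ | m % 2 = 1 ∧ ∃ c : ℝ, IsCrit m c ∧ ∀ k : ℕ, N + 1 ≤ cf^[k] c} X
      ≤ C * (N : ℝ) ^ (-e) * X := by
  obtain ⟨C, hC, h⟩ := stay_ps he
  refine ⟨C, hC, fun N X hN hX => ?_⟩
  refine le_trans (cnt_mono ?_) (h N X hN hX)
  rintro m hm _ ⟨h1, c, hc, h2⟩ k
  have htr := iter_mem_trap hm (isCrit_odd_trap h1 hc) k
  have h3 := trap_upper htr.2 htr.1
  have h4 := h2 k
  have h5 : (N : ℝ) < ((T^[k] m : ℕ) : ℝ) := by linarith
  exact_mod_cast h5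

theorem even_below_ps {e : ℝ} (he : e < 1 / 20) : ∃ C : ℝ, 0 < C ∧ ∀ N : ℕ, 1 ≤ N → ∀ ε : ℝ, 0 < ε →
    ∃ X0 : ℕ, ∀ X : ℕ, X0 ≤ X →
    cnt {m : ℕ | m % 2 = 0 ∧ ∃ c : ℝ, IsCrit m c ∧ ∀ k : ℕ, N + 1 ≤ cf^[k] c} X
      ≤ (1 / 10 + C * (N : ℝ) ^ (-e) + ε) * X := by
  obtain ⟨C1, hC1, h1⟩ := stay_ps he
  obtain ⟨C2, hC2, h2⟩ := climb_even_ps he (θ := 5 / 2) (by norm_num)
  refine ⟨C1 + C2, by positivity, fun N hN ε hε => ?_⟩
  obtain ⟨X1, h3⟩ := h2 N hN (ε / 2) (by positivity)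
  set B : ℕ := max 100 (N + 1) with hB
  obtain ⟨X2, hX2⟩ := exists_nat_ge ((B : ℝ) / (ε / 2))
  refine ⟨max (max X1 X2) 1, fun X hX => ?_⟩
  have hXa : X1 ≤ X := le_trans (le_trans (le_max_left _ _) (le_max_left _ _)) hX
  have hXb : X2 ≤ X := le_trans (le_trans (le_max_right _ _) (le_max_left _ _)) hX
  have hXc : 1 ≤ X := le_trans (le_max_right _ _) hX
  have h4 := cnt_almost (S := {m : ℕ | m % 2 = 0 ∧ ∃ c : ℝ, IsCrit m c ∧ ∀ k : ℕ, N + 1 ≤ cf^[k] c})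
    (S' := {m : ℕ | ∀ k : ℕ, N < T^[k] m} ∪ {m : ℕ | m % 2 = 0 ∧ ∃ k : ℕ,
      (5 / 2 : ℝ) * (m : ℝ) < ((T^[k] m : ℕ) : ℝ) ∧ ∀ i ≤ k, N < T^[i] m}) (B := B) (by
      rintro m hm ⟨h5, c, hc, h6⟩
      rcases even_case (N := N) (le_trans (le_max_left _ _) hm) h5
        (by have := le_trans (le_max_right 100 (N + 1)) hm; omega) hc h6 with h7 | h7
      · exact Or.inl h7
      · exact Or.inr ⟨h5, h7⟩) X
  have h5 := cnt_union_le {m : ℕ | ∀ k : ℕ, N < T^[k] m} {m : ℕ | m % 2 = 0 ∧ ∃ k : ℕ,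
      (5 / 2 : ℝ) * (m : ℝ) < ((T^[k] m : ℕ) : ℝ) ∧ ∀ i ≤ k, N < T^[i] m} X
  have h6 := h1 N X hN hXc
  have h7 := h3 X hXa
  have h8 : (B : ℝ) ≤ ε / 2 * X := by
    have h9 : (B : ℝ) / (ε / 2) ≤ X := hX2.trans (by exact_mod_cast hXb)
    rw [div_le_iff₀ (by positivity)] at h9
    linarith
  have e1 : (1 : ℝ) / (4 * (5 / 2)) = 1 / 10 := by norm_num
  rw [e1] at h7
  calc _ ≤ _ := h4
    _ ≤ (C1 * (N : ℝ) ^ (-e) * X
          + (1 / 10 + C2 * (N : ℝ) ^ (-e) + ε / 2) * X) + ε / 2 * X := by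
        linarith
    _ = _ := by ring

end Pool.Agent.Lib.MP_a247fa_nt.Crit
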