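import Pool.Agent.Lib.MP_e43fce_nt_nat.Defs4
import Pool.Agent.Lib.MP_a247fa_nt.Basic

/-! Critical orbits of `cf` (MP_a247fa_nt): definitions for the climbing theorem. -/

set_option autoImplicit false

namespace Pool.Agent.Lib.MP_a247fa_nt.Crit

open Pool.Agent.Lib.MP_e43fce_nt_nat
open Pool.Agent.Lib.MP_a247fa_nt (cf T dcf)

/-- an upper bound for `root k n`, `n ≤ Y`, if the word of the first `k` odd steps is `w`
(last letter first): `MX Y w = (3 ^ k * Y + F w) / 2 ^ (sum w)` -/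
noncomputable def MX (Y : ℝ) : List ℕ → ℝ
  | [] => Y
  | a :: w => (3 * MX Y w + 1) / 2 ^ a

/-- at some time `j ≤ length w` the bound `MX` is at least `Z` -/
def Hit (Y Z : ℝ) (w : List ℕ) : Prop := ∃ v : List ℕ, v <:+ w ∧ Z ≤ MX Y v

/-- indicator of `Hit` -/
noncomputable def hit (Y Z : ℝ) (w : List ℕ) : ℝ := by classical exact if Hit Y Z w then 1 else 0

/-- indicator: the odd iterates of `n` reach `Z` before one of them is `≤ N` -/
noncomputable def pC (Z : ℝ) (N n : ℕ) : ℝ := by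
  classical exact if ∃ j : ℕ, Z ≤ (root j n : ℝ) ∧ ∀ i ≤ j, N < root i n then 1 else 0

/-- the same with the threshold `L * n` -/
noncomputable def pR (L : ℝ) (N n : ℕ) : ℝ := by
  classical exact if ∃ j : ℕ, L * n ≤ (root j n : ℝ) ∧ ∀ i ≤ j, N < root i n then 1 else 0

/-- `c` is a critical point of `cf` within `1/2` of the integer `m` -/
def IsCrit (m : ℕ) (c : ℝ) : Prop := |c - m| ≤ 1 / 2 ∧ dcf c = 0

/-- the orbit of `c` is attracted by the cycle `{1, 2}` -/
def ToOne (c : ℝ) : Prop :=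
  ∃ j : ℕ, Filter.Tendsto (fun k : ℕ => cf^[2 * k + j] c) Filter.atTop (nhds 1)

end Pool.Agent.Lib.MP_a247fa_nt.Crit
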