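import Pool.Agent.Lib.MP_a247fa_nt.Crit.RootMX
import Pool.Agent.Lib.MP_e43fce_nt_nat.DensAlg

/-! TROOT (40 min). From the map `T` (`(3n+1)/2`, `n/2`) to the odd iterates `root` and to `col`.

For odd `n`, `T^[k] n` is, for the right `j`, of the form `(3 * root j n + 1) / 2 ^ b`, `1 ≤ b ≤ vl (root j n)`, or
`n` itself (induction on `k`, `syr_mul`); all `root i n`, `i ≤ j`, occur among the `T^[i'] n`, `i' ≤ k`. -/

set_option autoImplicit false

namespace Pool.Agent.Lib.MP_a247fa_nt.Crit

open Pool.Agent.Lib.MP_e43fce_nt_nat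
open Pool.Agent.Lib.MP_a247fa_nt (T)

private theorem T_even {m : ℕ} (h : m % 2 = 0) : T m = m / 2 := if_pos h

private theorem col_even {m : ℕ} (h : m % 2 = 0) : col m = m / 2 := if_pos h

theorem T_pow_mul (a n : ℕ) {k : ℕ} (h : k ≤ a) : T^[k] (2 ^ a * n) = 2 ^ (a - k) * n := by
  induction k with
  | zero => simp
  | succ k ih =>
    rw [Function.iterate_succ_apply', ih (by omega)]
    have h1 : a - k = (a - (k + 1)) + 1 := by omega
    rw [h1, pow_succ]
    unfold T
    have h2 : 2 ^ (a - (k + 1)) * 2 * n = 2 * (2 ^ (a - (k + 1)) * n) := by ring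
    rw [h2, if_pos (by omega)]
    omega

private theorem syr_mul' (n : ℕ) : 2 ^ vl n * syr n = 3 * n + 1 := by
  unfold syr vl
  exact Nat.mul_div_cancel' pow_padicValNat_dvd

private theorem vl_pos' (n : ℕ) (hn : n % 2 = 1) : 1 ≤ vl n := by
  unfold vl
  exact one_le_padicValNat_of_dvd (by omega) (by omega)

private theorem T_state {n : ℕ} (hn : n % 2 = 1) (k : ℕ) : ∃ j : ℕ,
    (T^[k] n = root j n ∨ ∃ b : ℕ, 1 ≤ b ∧ b ≤ vl (root j n) ∧
      2 ^ b * T^[k] n = 3 * root j n + 1) ∧ ∀ i ≤ j, ∃ i' ≤ k, T^[i'] n = root i n := by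
  induction k with
  | zero =>
    refine ⟨0, Or.inl rfl, ?_⟩
    intro i hi
    exact ⟨0, le_refl _, by rw [Nat.le_zero.mp hi]; rfl⟩
  | succ k ih =>
    obtain ⟨j, hj, hv⟩ := ih
    -- an odd value starts a new block
    have hnew : ∀ m r : ℕ, m = r → r % 2 = 1 → 2 ^ 1 * T m = 3 * r + 1 := by
      intro m r hm hr
      subst hm
      unfold T
      rw [if_neg (by omega)]
      omega
    have hv' : ∀ i ≤ j, ∃ i' ≤ k + 1, T^[i'] n = root i n := by
      intro i hi
      obtain ⟨i', h1, h2⟩ := hv i hi
      exact ⟨i', by omega, h2⟩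
    rcases hj with hj | ⟨b, hb1, hb2, hb3⟩
    · refine ⟨j, Or.inr ⟨1, le_refl _, vl_pos' _ (root_odd j n hn), ?_⟩, hv'⟩
      rw [Function.iterate_succ_apply']
      exact hnew _ _ hj (root_odd j n hn)
    · rcases Nat.lt_or_ge b (vl (root j n)) with hlt | hge
      · refine ⟨j, Or.inr ⟨b + 1, by omega, hlt, ?_⟩, hv'⟩
        rw [Function.iterate_succ_apply']
        have hd := syr_mul' (root j n)
        have h1 : vl (root j n) = b + ((vl (root j n) - b - 1) + 1) := by omega
        rw [← hb3, h1, pow_add, pow_succ] at hd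
        have hd2 : 2 ^ b * (2 * (2 ^ (vl (root j n) - b - 1) * syr (root j n))) =
            2 ^ b * T^[k] n := by rw [← hd]; ring
        have hd3 := Nat.eq_of_mul_eq_mul_left (by positivity : 0 < 2 ^ b) hd2
        have hT : T (T^[k] n) = 2 ^ (vl (root j n) - b - 1) * syr (root j n) := by
          rw [T_even (by omega), ← hd3]
          omega
        rw [hT, ← hb3, ← hd3]
        ring
      · have hbe : b = vl (root j n) := by omega
        have hr : T^[k] n = root (j + 1) n := by
          rw [hbe, ← syr_mul' (root j n)] at hb3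
          exact Nat.eq_of_mul_eq_mul_left (by positivity) hb3
        refine ⟨j + 1, Or.inr ⟨1, le_refl _, vl_pos' _ (root_odd (j + 1) n hn), ?_⟩, ?_⟩
        · rw [Function.iterate_succ_apply']
          exact hnew _ _ hr (root_odd (j + 1) n hn)
        · intro i hi
          rcases Nat.lt_or_ge i (j + 1) with h | h
          · exact hv' i (by omega)
          · have : i = j + 1 := by omega
            subst this
            exact ⟨k, by omega, hr⟩

/-- every iterate of an odd number comes from an odd iterate -/
theorem T_iter_le {n : ℕ} (hn : n % 2 = 1) (k : ℕ) : ∃ j : ℕ,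
    (2 * T^[k] n ≤ 3 * root j n + 1) ∧ ∀ i ≤ j, ∃ i' ≤ k, T^[i'] n = root i n := by
  obtain ⟨j, hj, hv⟩ := T_state hn k
  refine ⟨j, ?_, hv⟩
  rcases hj with hj | ⟨b, hb1, hb2, hb3⟩
  · omega
  · rw [← hb3]
    have : 2 ^ 1 ≤ 2 ^ b := Nat.pow_le_pow_right (by norm_num) hb1
    exact Nat.mul_le_mul_right _ (by simpa using this)

theorem T_reach_iff {n : ℕ} (hn : 0 < n) : (∃ k : ℕ, T^[k] n = 1) ↔ (∃ k : ℕ, col^[k] n = 1) := by
  constructor
  · rintro ⟨k, hk⟩
    have key : ∀ k m : ℕ, ∃ k' : ℕ, T^[k] m = col^[k'] m := by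
      intro k
      induction k with
      | zero => intro m; exact ⟨0, rfl⟩
      | succ k ih =>
        intro m
        obtain ⟨k', hk'⟩ := ih (T m)
        rw [Function.iterate_succ_apply, hk']
        rcases Nat.mod_two_eq_zero_or_one m with h | h
        · refine ⟨k' + 1, ?_⟩
          rw [Function.iterate_succ_apply]
          unfold T col
          rw [if_pos h, if_pos h]
        · refine ⟨k' + 2, ?_⟩
          rw [Function.iterate_succ_apply, Function.iterate_succ_apply]
          have h1 : col (col m) = T m := by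
            unfold T col
            rw [if_neg (by omega : ¬ m % 2 = 0), if_pos (by omega), if_neg (by omega)]
          rw [h1]
    obtain ⟨k', hk'⟩ := key k n
    exact ⟨k', by rw [← hk', hk]⟩
  · rintro ⟨k, hk⟩
    induction k using Nat.strong_induction_on generalizing n with
    | _ k ih =>
      rcases Nat.eq_zero_or_pos k with h0 | h0
      · subst h0
        exact ⟨0, hk⟩
      · rcases Nat.mod_two_eq_zero_or_one n with h | h
        · obtain ⟨k', hk'⟩ : ∃ k' : ℕ, T^[k'] (T n) = 1 := by
            have hT : T n = col n := by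
              unfold T col
              rw [if_pos h, if_pos h]
            have hp : 0 < T n := by
              unfold T
              rw [if_pos h]
              omega
            apply ih (k - 1) (by omega) hp
            rw [hT, ← Function.iterate_succ_apply]
            have : (k - 1).succ = k := by omega
            rw [this, hk]
          exact ⟨k' + 1, by rw [Function.iterate_succ_apply]; exact hk'⟩
        · rcases Nat.lt_or_ge k 2 with h2 | h2
          · exfalso
            have : k = 1 := by omega
            subst this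
            rw [Function.iterate_one] at hk
            unfold col at hk
            rw [if_neg (by omega)] at hk
            omega
          · obtain ⟨k', hk'⟩ : ∃ k' : ℕ, T^[k'] (T n) = 1 := by
              have hT : col (col n) = T n := by
                unfold T col
                rw [if_neg (by omega : ¬ n % 2 = 0), if_pos (by omega), if_neg (by omega)]
              have hp : 0 < T n := by
                unfold T
                rw [if_neg (by omega)]
                omega
              apply ih (k - 2) (by omega) hp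
              rw [← hT, ← Function.iterate_succ_apply, ← Function.iterate_succ_apply]
              have : (k - 2).succ.succ = k := by omega
              rw [this, hk]
            exact ⟨k' + 1, by rw [Function.iterate_succ_apply]; exact hk'⟩

/-- if the `T`-orbit stays above `N` then so does the `col`-orbit -/
theorem col_above {n N : ℕ} (h : ∀ k : ℕ, N < T^[k] n) (k : ℕ) : N < col^[k] n := by
  have key : (∃ j : ℕ, col^[k] n = T^[j] n) ∨
      (∃ j : ℕ, T^[j] n % 2 = 1 ∧ col^[k] n = 3 * T^[j] n + 1) := by
    induction k with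
    | zero => exact Or.inl ⟨0, rfl⟩
    | succ k ih =>
      rcases ih with ⟨j, hj⟩ | ⟨j, hj1, hj2⟩
      · rcases Nat.mod_two_eq_zero_or_one (T^[j] n) with h0 | h0
        · left
          refine ⟨j + 1, ?_⟩
          rw [Function.iterate_succ_apply', Function.iterate_succ_apply', hj, T_even h0,
            col_even h0]
        · right
          refine ⟨j, h0, ?_⟩
          rw [Function.iterate_succ_apply', hj]
          unfold col
          rw [if_neg (by omega)]
      · left
        refine ⟨j + 1, ?_⟩
        rw [Function.iterate_succ_apply', Function.iterate_succ_apply', hj2]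
        generalize T^[j] n = m at hj1
        unfold T col
        rw [if_pos (by omega), if_neg (by omega)]
  rcases key with ⟨j, hj⟩ | ⟨j, _, hj2⟩
  · rw [hj]; exact h j
  · rw [hj2]
    have := h j
    omega

/-- climbing in terms of `T`: `m = 2 ^ a * n`, `n` odd -/
theorem climb_T {a n N : ℕ} (hn : n % 2 = 1) {θ : ℝ} (hθ : 1 ≤ θ) {k : ℕ}
    (h1 : θ * ((2 ^ a * n : ℕ) : ℝ) < ((T^[k] (2 ^ a * n) : ℕ) : ℝ))
    (h2 : ∀ i ≤ k, N < T^[i] (2 ^ a * n)) :
    ∃ j : ℕ, 2 / 3 * θ * 2 ^ a * n - 1 / 3 ≤ (root j n : ℝ) ∧ ∀ i ≤ j, N < root i n := by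
  have hka : a ≤ k := by
    by_contra hlt
    push Not at hlt
    rw [T_pow_mul a n hlt.le] at h1
    have h3 : 2 ^ (a - k) * n ≤ 2 ^ a * n :=
      Nat.mul_le_mul_right _ (Nat.pow_le_pow_right (by norm_num) (by omega))
    have h4 : ((2 ^ (a - k) * n : ℕ) : ℝ) ≤ ((2 ^ a * n : ℕ) : ℝ) := by exact_mod_cast h3
    have h5 : (0 : ℝ) ≤ ((2 ^ a * n : ℕ) : ℝ) := Nat.cast_nonneg _
    nlinarith
  have hshift : ∀ i : ℕ, T^[i + a] (2 ^ a * n) = T^[i] n := by
    intro i
    rw [Function.iterate_add_apply, T_pow_mul a n (le_refl a)]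
    simp
  obtain ⟨j, hj1, hj2⟩ := T_iter_le hn (k - a)
  refine ⟨j, ?_, ?_⟩
  · have h3 : T^[k] (2 ^ a * n) = T^[k - a] n := by
      rw [← hshift (k - a)]
      congr 2
      omega
    rw [h3] at h1
    have h4 : (2 : ℝ) * ((T^[k - a] n : ℕ) : ℝ) ≤ 3 * (root j n : ℝ) + 1 := by exact_mod_cast hj1
    push_cast at h1
    linarith
  · intro i hi
    obtain ⟨i', hi', he⟩ := hj2 i hi
    rw [← he, ← hshift i']
    exact h2 _ (by omega)

end Pool.Agent.Lib.MP_a247fa_nt.Crit
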