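import Pool.Agent.Lib.MP_a247fa_nt.Crit.ClimbRel
import Pool.Agent.Lib.MP_a247fa_nt.Crit.TRoot
import Pool.Agent.Lib.MP_e43fce_nt_nat.AllOdd

/-! CLIMBEVEN (50 min). The climbing theorem for the even numbers in terms of `T`, constant `1 / (4 θ)`.

`climb_pow` is `climb_rel` with `L = (2/3) θ 2^a - η` and `climb_T`; `climb_even` is the sum over the powers `2^a`,
`a ≥ 1` (`dyadic_le`), `∑_{a ≥ 1} 3 / (4 θ 4^a) = 1 / (4 θ)`. -/

set_option autoImplicit false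

namespace Pool.Agent.Lib.MP_a247fa_nt.Crit

open Finset Pool.Agent.Lib.MP_e43fce_nt_nat
open Pool.Agent.Lib.MP_a247fa_nt (T)

private theorem cnt_ind' (E : Set ℕ) (X : ℕ) : cnt E X = ∑ n ∈ Icc 1 X, ind E n := by
  classical
  rw [cnt_filter E X ((Icc 1 X).filter (fun n => n ∈ E)) (by
    intro n; simp only [Finset.mem_filter, Finset.mem_Icc]; tauto), Finset.card_filter]
  push_cast
  refine Finset.sum_congr rfl (fun n _ => ?_)
  unfold ind
  split_ifs <;> rfl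

private theorem ind_unit' (E : Set ℕ) : Unit01 (ind E) := by
  intro n
  unfold ind
  split <;> norm_num

/-- the numbers `2^a n`, `n` odd: relative density of the climbing ones at most `3 / (4 θ 2^a)` -/
theorem climb_pow {θ : ℝ} (hθ : 1 ≤ θ) : ∃ C : ℝ, 0 < C ∧ ∀ N : ℕ, 2 ≤ N → ∀ a : ℕ, ∀ ε : ℝ, 0 < ε →
    ∃ X0 : ℕ, ∀ X : ℕ, X0 ≤ X →
      cnt {n : ℕ | n % 2 = 1 ∧ ∃ k : ℕ, θ * ((2 ^ a * n : ℕ) : ℝ) < ((T^[k] (2 ^ a * n) : ℕ) : ℝ) ∧
          ∀ i ≤ k, N < T^[i] (2 ^ a * n)} X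
        ≤ (3 / (4 * θ * 2 ^ a) + C * (Real.log N) ^ (-(1 / 4) : ℝ) + ε) * X := by
  classical
  obtain ⟨C, hC, h⟩ := climb_rel
  refine ⟨C, hC, fun N hN a ε hε => ?_⟩
  set η : ℝ := min (1 / 3) (ε * (4 / 27)) with hη
  have hη0 : 0 < η := lt_min (by norm_num) (by positivity)
  have hη1 : η ≤ 1 / 3 := min_le_left _ _
  have hη2 : η ≤ ε * (4 / 27) := min_le_right _ _
  set M : ℝ := 2 / 3 * θ * 2 ^ a with hM
  have h2a : (1 : ℝ) ≤ 2 ^ a := one_le_pow₀ (by norm_num)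
  have hM1 : 2 / 3 ≤ M := by
    have : 1 * 1 ≤ θ * 2 ^ a := mul_le_mul hθ h2a (by norm_num) (by linarith)
    rw [hM]
    nlinarith
  have hL : 0 < M - η := by linarith
  obtain ⟨X1, hX1, hX⟩ := h N hN (M - η) (ε / 3) hL (by positivity)
  refine ⟨⌈X1⌉₊ + ⌈1 / (η * ε)⌉₊, fun X hXX => ?_⟩
  have hXa : X1 ≤ (X : ℝ) := by
    have h1 : ⌈X1⌉₊ ≤ X := by omega
    exact (Nat.le_ceil _).trans (by exact_mod_cast h1)
  have hXb : 1 / (η * ε) ≤ (X : ℝ) := by
    have h1 : ⌈1 / (η * ε)⌉₊ ≤ X := by omega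
    exact (Nat.le_ceil _).trans (by exact_mod_cast h1)
  have hX0 : (0 : ℝ) ≤ X := Nat.cast_nonneg _
  have key := hX X hXa
  -- counting
  have hcount : cnt {n : ℕ | n % 2 = 1 ∧ ∃ k : ℕ,
      θ * ((2 ^ a * n : ℕ) : ℝ) < ((T^[k] (2 ^ a * n) : ℕ) : ℝ) ∧
          ∀ i ≤ k, N < T^[i] (2 ^ a * n)} X ≤
      1 / (3 * η) + ∑ n ∈ oddS (X : ℝ), pR (M - η) N n := by
    set G : Set ℕ := {n : ℕ | n % 2 = 1 ∧ ∃ k : ℕ,
      θ * ((2 ^ a * n : ℕ) : ℝ) < ((T^[k] (2 ^ a * n) : ℕ) : ℝ) ∧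
          ∀ i ≤ k, N < T^[i] (2 ^ a * n)} with hG
    set s1 : Finset ℕ := Icc 1 ⌊1 / (3 * η)⌋₊ with hs1
    set s2 : Finset ℕ := (oddS (X : ℝ)).filter (fun n => ∃ j : ℕ,
      (M - η) * n ≤ (root j n : ℝ) ∧ ∀ i ≤ j, N < root i n) with hs2
    have h1 : cnt G X ≤ ((s1 ∪ s2).card : ℝ) := by
      rw [cnt_filter G X ((Icc 1 X).filter (fun n => n ∈ G)) (by
        intro n; simp only [Finset.mem_filter, Finset.mem_Icc]; tauto)]
      norm_cast
      apply Finset.card_le_card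
      intro n hn
      rw [Finset.mem_filter, Finset.mem_Icc] at hn
      obtain ⟨⟨hn1, hn2⟩, hnodd, k, hk1, hk2⟩ := hn
      rw [Finset.mem_union]
      by_cases hsmall : (n : ℝ) ≤ 1 / (3 * η)
      · left
        rw [hs1, Finset.mem_Icc]
        exact ⟨hn1, Nat.le_floor hsmall⟩
      · right
        push Not at hsmall
        obtain ⟨j, hj1, hj2⟩ := climb_T hnodd hθ hk1 hk2
        rw [hs2, Finset.mem_filter]
        refine ⟨?_, j, ?_, hj2⟩
        · unfold oddS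
          rw [Nat.floor_natCast, Finset.mem_filter, Finset.mem_Icc]
          exact ⟨⟨hn1, hn2⟩, hnodd⟩
        · rw [div_lt_iff₀ (by positivity)] at hsmall
          have : (M - η) * n ≤ 2 / 3 * θ * 2 ^ a * n - 1 / 3 := by
            rw [hM]
            nlinarith
          linarith
    have h2 : ((s1 ∪ s2).card : ℝ) ≤ (s1.card : ℝ) + (s2.card : ℝ) := by
      exact_mod_cast Finset.card_union_le s1 s2
    have h3 : (s1.card : ℝ) ≤ 1 / (3 * η) := by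
      rw [hs1, Nat.card_Icc]
      simp only [add_tsub_cancel_right]
      exact Nat.floor_le (by positivity)
    have h4 : (s2.card : ℝ) = ∑ n ∈ oddS (X : ℝ), pR (M - η) N n := by
      rw [hs2, Finset.card_filter]
      push_cast
      refine Finset.sum_congr rfl (fun n _ => ?_)
      unfold pR
      split_ifs <;> rfl
    linarith
  -- the constant
  have hconst : 1 / (2 * (M - η)) ≤ 3 / (4 * θ * 2 ^ a) + ε / 3 := by
    have h1 : 3 / (4 * θ * 2 ^ a) = 1 / (2 * M) := by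
      rw [hM]
      field_simp
      norm_num
    rw [h1]
    have hMpos : 0 < M := by linarith
    have h2 : 1 / (2 * (M - η)) - 1 / (2 * M) = η / (2 * M * (M - η)) := by
      field_simp
      ring
    have h3 : η / (2 * M * (M - η)) ≤ η / (4 / 9) := by
      apply div_le_div_of_nonneg_left hη0.le (by norm_num)
      have : 1 / 3 ≤ M - η := by linarith
      nlinarith
    have h4 : η / (4 / 9) ≤ ε / 3 := by
      rw [div_le_iff₀ (by norm_num)]
      linarith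
    linarith
  have hsm : 1 / (3 * η) ≤ ε / 3 * X := by
    have h1 : ε / 3 * (1 / (η * ε)) ≤ ε / 3 * X := mul_le_mul_of_nonneg_left hXb (by positivity)
    have h2 : ε / 3 * (1 / (η * ε)) = 1 / (3 * η) := by
      field_simp
    linarith
  calc cnt {n : ℕ | n % 2 = 1 ∧ ∃ k : ℕ,
      θ * ((2 ^ a * n : ℕ) : ℝ) < ((T^[k] (2 ^ a * n) : ℕ) : ℝ) ∧
          ∀ i ≤ k, N < T^[i] (2 ^ a * n)} X
      ≤ 1 / (3 * η) + ∑ n ∈ oddS (X : ℝ), pR (M - η) N n := hcount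
    _ ≤ ε / 3 * X + (1 / (2 * (M - η)) + C * (Real.log N) ^ (-(1 / 4) : ℝ) + ε / 3) * X :=
        add_le_add hsm key
    _ ≤ ε / 3 * X + ((3 / (4 * θ * 2 ^ a) + ε / 3) + C * (Real.log N) ^ (-(1 / 4) : ℝ) + ε / 3) * X := by
        gcongr
    _ = (3 / (4 * θ * 2 ^ a) + C * (Real.log N) ^ (-(1 / 4) : ℝ) + ε) * X := by ring

private theorem dyadic_le (J : ℕ) : ∀ (q : ℕ → ℝ), Unit01 q → ∀ X : ℕ, ∑ n ∈ Icc 1 X, q n ≤
    ∑ a ∈ range J, ∑ m ∈ (Icc 1 (X / 2 ^ a)).filter (fun n => n % 2 = 1), q (2 ^ a * m)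
      + (X : ℝ) / 2 ^ J := by
  induction J with
  | zero =>
    intro q hq X
    simp only [range_zero, sum_empty, pow_zero, div_one, zero_add]
    calc ∑ n ∈ Icc 1 X, q n ≤ ∑ n ∈ Icc 1 X, (1 : ℝ) := Finset.sum_le_sum (fun n _ => (hq n).2)
      _ = X := by simp
  | succ J ih =>
    intro q hq X
    rw [sum_even_odd q X, Finset.sum_range_succ']
    have h1 := ih (fun m => q (2 * m)) (fun n => hq _) (X / 2)
    have h2 : ∀ a : ℕ, X / 2 / 2 ^ a = X / 2 ^ (a + 1) := by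
      intro a
      rw [Nat.div_div_eq_div_mul, pow_succ, mul_comm]
    have h3 : ∀ a m : ℕ, 2 * (2 ^ a * m) = 2 ^ (a + 1) * m := by
      intro a m
      ring
    simp only [h2, h3] at h1
    have h4 : ((X / 2 : ℕ) : ℝ) / 2 ^ J ≤ (X : ℝ) / 2 ^ (J + 1) := by
      have h5 : ((X / 2 : ℕ) : ℝ) ≤ (X : ℝ) / 2 := by exact_mod_cast Nat.cast_div_le
      calc ((X / 2 : ℕ) : ℝ) / 2 ^ J ≤ ((X : ℝ) / 2) / 2 ^ J := by gcongr
        _ = (X : ℝ) / 2 ^ (J + 1) := by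
          rw [pow_succ]
          field_simp
    simp only [pow_zero, Nat.div_one, one_mul]
    linarith

private theorem geom_bound (α B : ℝ) (J : ℕ) :
    ∑ a ∈ range (J + 1), (if a = 0 then (0 : ℝ) else (3 * α / 2 ^ a + B) / 2 ^ a) =
      α * (1 - 1 / 4 ^ J) + B * (1 - 1 / 2 ^ J) := by
  induction J with
  | zero => simp
  | succ J ih =>
    rw [Finset.sum_range_succ, ih, if_neg (by omega)]
    have h4 : (4 : ℝ) ^ (J + 1) = 2 ^ (J + 1) * 2 ^ (J + 1) := by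
      rw [← mul_pow]
      norm_num
    have h4' : (4 : ℝ) ^ J = 2 ^ J * 2 ^ J := by
      rw [← mul_pow]
      norm_num
    rw [h4, h4', pow_succ]
    field_simp
    ring

theorem climb_even {θ : ℝ} (hθ : 1 ≤ θ) : ∃ C : ℝ, 0 < C ∧ ∀ N : ℕ, 2 ≤ N → ∀ ε : ℝ, 0 < ε →
    ∃ X0 : ℕ, ∀ X : ℕ, X0 ≤ X →
      cnt {m : ℕ | m % 2 = 0 ∧ ∃ k : ℕ, θ * (m : ℝ) < ((T^[k] m : ℕ) : ℝ) ∧ ∀ i ≤ k, N < T^[i] m} X
        ≤ (1 / (4 * θ) + C * (Real.log N) ^ (-(1 / 4) : ℝ) + ε) * X := by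
  classical
  obtain ⟨C, hC, h⟩ := climb_pow hθ
  refine ⟨C, hC, fun N hN ε hε => ?_⟩
  choose Y hY using fun a : ℕ => h N hN a (ε / 2) (by positivity)
  obtain ⟨J, hJ⟩ : ∃ J : ℕ, 1 / (2 : ℝ) ^ (J + 1) ≤ ε / 2 := by
    obtain ⟨J, hJ⟩ := exists_pow_lt_of_lt_one (half_pos hε) (by norm_num : (1 / 2 : ℝ) < 1)
    refine ⟨J, ?_⟩
    have h1 : (1 / (2 : ℝ)) ^ (J + 1) ≤ (1 / 2) ^ J :=
      pow_le_pow_of_le_one (by norm_num) (by norm_num) (Nat.le_succ J)
    rw [one_div_pow] at h1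
    linarith
  set S : ℕ := ∑ a ∈ range (J + 1), Y a with hS
  refine ⟨2 ^ J * S, fun X hX => ?_⟩
  have hX0 : (0 : ℝ) ≤ X := Nat.cast_nonneg _
  set E : Set ℕ := {m : ℕ | m % 2 = 0 ∧ ∃ k : ℕ, θ * (m : ℝ) < ((T^[k] m : ℕ) : ℝ) ∧
    ∀ i ≤ k, N < T^[i] m} with hE
  set B : ℝ := C * (Real.log N) ^ (-(1 / 4) : ℝ) + ε / 2 with hB
  have hlog : 0 ≤ (Real.log N) ^ (-(1 / 4) : ℝ) := by
    apply Real.rpow_nonneg
    apply Real.log_nonneg
    have : (2 : ℝ) ≤ N := by exact_mod_cast hN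
    linarith
  have hB0 : 0 ≤ B := by positivity
  have h1 := dyadic_le (J + 1) (ind E) (ind_unit' E) X
  rw [← cnt_ind'] at h1
  have hterm : ∀ a ∈ range (J + 1),
      ∑ m ∈ (Icc 1 (X / 2 ^ a)).filter (fun n => n % 2 = 1), ind E (2 ^ a * m) ≤
        (if a = 0 then (0 : ℝ) else (3 * (1 / (4 * θ)) / 2 ^ a + B) / 2 ^ a) * X := by
    intro a ha
    rw [Finset.mem_range] at ha
    rcases Nat.eq_zero_or_pos a with h0 | h0
    · subst h0
      rw [if_pos rfl, zero_mul]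
      apply le_of_eq
      apply Finset.sum_eq_zero
      intro m hm
      rw [Finset.mem_filter] at hm
      unfold ind
      rw [if_neg]
      rintro ⟨hm0, _⟩
      rw [pow_zero, one_mul] at hm0
      omega
    · rw [if_neg (by omega)]
      have hYa : Y a ≤ X / 2 ^ a := by
        have h2 : Y a ≤ S := by
          rw [hS]
          exact Finset.single_le_sum (f := Y) (fun _ _ => Nat.zero_le _) (Finset.mem_range.mpr ha)
        rw [Nat.le_div_iff_mul_le (by positivity)]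
        calc Y a * 2 ^ a ≤ S * 2 ^ J :=
              Nat.mul_le_mul h2 (Nat.pow_le_pow_right (by norm_num) (by omega))
          _ = 2 ^ J * S := by ring
          _ ≤ X := hX
      have h3 := hY a (X / 2 ^ a) hYa
      have h4 : ∑ m ∈ (Icc 1 (X / 2 ^ a)).filter (fun n => n % 2 = 1), ind E (2 ^ a * m) ≤
          cnt {n : ℕ | n % 2 = 1 ∧ ∃ k : ℕ,
            θ * ((2 ^ a * n : ℕ) : ℝ) < ((T^[k] (2 ^ a * n) : ℕ) : ℝ) ∧
              ∀ i ≤ k, N < T^[i] (2 ^ a * n)} (X / 2 ^ a) := by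
        rw [cnt_ind', Finset.sum_filter]
        apply Finset.sum_le_sum
        intro n _
        by_cases hodd : n % 2 = 1
        · rw [if_pos hodd]
          unfold ind
          by_cases hin : 2 ^ a * n ∈ E
          · rw [if_pos hin]
            obtain ⟨_, k, hk⟩ := hin
            have hmem : n ∈ {n : ℕ | n % 2 = 1 ∧ ∃ k : ℕ,
              θ * ((2 ^ a * n : ℕ) : ℝ) < ((T^[k] (2 ^ a * n) : ℕ) : ℝ) ∧
              ∀ i ≤ k, N < T^[i] (2 ^ a * n)} := ⟨hodd, k, hk⟩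
            exact le_of_eq (if_pos hmem).symm
          · rw [if_neg hin]
            split_ifs <;> norm_num
        · rw [if_neg hodd]
          exact (ind_unit' _ n).1
      have h5 : ((X / 2 ^ a : ℕ) : ℝ) ≤ (X : ℝ) / 2 ^ a := by
        have := Nat.cast_div_le (α := ℝ) (m := X) (n := 2 ^ a)
        push_cast at this
        exact this
      calc ∑ m ∈ (Icc 1 (X / 2 ^ a)).filter (fun n => n % 2 = 1), ind E (2 ^ a * m)
          ≤ (3 / (4 * θ * 2 ^ a) + C * (Real.log N) ^ (-(1 / 4) : ℝ) + ε / 2) *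
              ((X / 2 ^ a : ℕ) : ℝ) := h4.trans h3
        _ ≤ (3 / (4 * θ * 2 ^ a) + C * (Real.log N) ^ (-(1 / 4) : ℝ) + ε / 2) *
              ((X : ℝ) / 2 ^ a) := by
            apply mul_le_mul_of_nonneg_left h5
            positivity
        _ = (3 * (1 / (4 * θ)) / 2 ^ a + B) / 2 ^ a * X := by
            rw [hB]
            field_simp
            ring
  have h6 := Finset.sum_le_sum hterm
  rw [← Finset.sum_mul, geom_bound] at h6
  have hα : 0 ≤ 1 / (4 * θ) := by positivity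
  have h7 : 1 / (4 * θ) * (1 - 1 / 4 ^ J) + B * (1 - 1 / 2 ^ J) ≤ 1 / (4 * θ) + B := by
    have h8 : 0 ≤ 1 / (4 * θ) * (1 / 4 ^ J) := by positivity
    have h9 : 0 ≤ B * (1 / 2 ^ J) := by positivity
    nlinarith
  have h8 : (X : ℝ) / 2 ^ (J + 1) ≤ ε / 2 * X := by
    calc (X : ℝ) / 2 ^ (J + 1) = 1 / (2 : ℝ) ^ (J + 1) * X := by ring
      _ ≤ ε / 2 * X := mul_le_mul_of_nonneg_right hJ hX0
  have h9 := mul_le_mul_of_nonneg_right h7 hX0
  calc cnt E X ≤ (1 / (4 * θ) + B) * X + ε / 2 * X := by linarith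
    _ = (1 / (4 * θ) + C * (Real.log N) ^ (-(1 / 4) : ℝ) + ε) * X := by
        rw [hB]
        ring

end Pool.Agent.Lib.MP_a247fa_nt.Crit
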