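import Pool.Agent.Lib.MP_a247fa_nt.Crit.CDefs
import Pool.Agent.Lib.MP_e43fce_nt_nat.PAR

/-! ROOTMX (20 min). Elementary relations between `root`, `vw` and `MX`.

`root (j+1) n = syr (root j n) = (3 * root j n + 1) / 2 ^ vl (root j n)` exactly (`vw_eq`-like: in ℕ
`2 ^ vl n * syr n = 3 * n + 1`, this is `syr_mul`, private in PAR: copy it), `vw (j+1) n = vl (root j n) :: vw j n`. -/

set_option autoImplicit false

namespace Pool.Agent.Lib.MP_a247fa_nt.Crit

open Pool.Agent.Lib.MP_e43fce_nt_nat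

theorem rootMX_syr_mul (n : ℕ) : 2 ^ vl n * syr n = 3 * n + 1 := by
  unfold syr vl
  exact Nat.mul_div_cancel' pow_padicValNat_dvd

theorem rootMX_syr (n : ℕ) : (syr n : ℝ) = (3 * (n : ℝ) + 1) / 2 ^ vl n := by
  rw [eq_div_iff (by positivity), mul_comm]
  exact_mod_cast rootMX_syr_mul n

theorem root_add (j k n : ℕ) : root (j + k) n = root j (root k n) := by
  induction j with
  | zero =>
    rw [Nat.zero_add]
    rfl
  | succ j ih =>
    rw [Nat.succ_add]
    change syr (root (j + k) n) = syr (root j (root k n))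
    rw [ih]

theorem vw_suffix {j K : ℕ} (h : j ≤ K) (n : ℕ) : vw j n <:+ vw K n := by
  induction K, h using Nat.le_induction with
  | base => exact List.suffix_rfl
  | succ K _ ih => exact ih.trans (List.suffix_cons _ _)

/-- scaled bound: `Y * root j n ≤ n * MX Y (vw j n)` if `0 ≤ Y ≤ n` -/
theorem root_le_MX_scaled {Y : ℝ} (hY : 0 ≤ Y) {n : ℕ} (h : Y ≤ n) (j : ℕ) :
    Y * (root j n : ℝ) ≤ n * MX Y (vw j n) := by
  induction j with
  | zero =>
    change Y * (n : ℝ) ≤ n * Y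
    exact (mul_comm _ _).le
  | succ j ih =>
    change Y * (syr (root j n) : ℝ) ≤ n * ((3 * MX Y (vw j n) + 1) / 2 ^ vl (root j n))
    rw [rootMX_syr, ← mul_div_assoc, ← mul_div_assoc]
    refine div_le_div_of_nonneg_right ?_ (by positivity)
    linarith

theorem root_le_MX {Y : ℝ} {n : ℕ} (h : (n : ℝ) ≤ Y) (j : ℕ) :
    (root j n : ℝ) ≤ MX Y (vw j n) := by
  induction j with
  | zero => exact h
  | succ j ih =>
    change (syr (root j n) : ℝ) ≤ (3 * MX Y (vw j n) + 1) / 2 ^ vl (root j n)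
    rw [rootMX_syr]
    refine div_le_div_of_nonneg_right ?_ (by positivity)
    linarith

/-- relative threshold -/
theorem hit_of_rel {Y L : ℝ} (hY : 0 < Y) {n j K : ℕ} (h : Y ≤ n) (hj : j ≤ K)
    (hL : L * n ≤ (root j n : ℝ)) : Hit Y (L * Y) (vw K n) := by
  refine ⟨vw j n, vw_suffix hj n, ?_⟩
  have h1 := root_le_MX_scaled hY.le h j
  have hn : (0 : ℝ) < n := lt_of_lt_of_le hY h
  have h2 : Y * (L * n) ≤ n * MX Y (vw j n) := (mul_le_mul_of_nonneg_left hL hY.le).trans h1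
  have h3 : (n : ℝ) * (L * Y) ≤ n * MX Y (vw j n) := by
    calc (n : ℝ) * (L * Y) = Y * (L * n) := by ring
      _ ≤ _ := h2
  exact le_of_mul_le_mul_left h3 hn

/-- absolute threshold -/
theorem hit_of_abs {Y Z : ℝ} {n j K : ℕ} (h : (n : ℝ) ≤ Y) (hj : j ≤ K)
    (hZ : Z ≤ (root j n : ℝ)) : Hit Y Z (vw K n) :=
  ⟨vw j n, vw_suffix hj n, hZ.trans (root_le_MX h j)⟩

end Pool.Agent.Lib.MP_a247fa_nt.Crit
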