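import Pool.Agent.Lib.MP_a247fa_nt.Crit.HitCount
import Pool.Agent.Lib.MP_a247fa_nt.Crit.RootMX
import Pool.Agent.Lib.MP_e43fce_nt_nat.T5ODD

/-! CLIMBODD (60 min). The climbing theorem for the odd numbers, absolute threshold.

`climb_step`: one renewal step. `pC Z N n ≤ hit (exp x) Z (vw K n) + pC Z N (root K n)` for odd `n ≤ exp x`
(witness `j ≤ K`: `hit_of_abs`; `j > K`: `root_add`). The first part is `hit_count` with `Y = exp x`, the second is
`lemR` (e = 1/10) with `p n = pC Z N (root K n)`, `q A s = pC Z N s`: `RHyp` from `vw_unique`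
(`root K n = s` if `nd s w = n`, see `T5.hyp` / `REQ.mem_iff` / `nd_col`).
`climb_odd`: induction exactly as in `T5_odd` (`K = ⌊x/5⌋₊`, `T5.small`, `T5.heights`): claim for all `x ≥ 0`,
`i ^ 2 ≤ x / 10`:  `DD i (pC Z N) x ≤ A * exp x / Z + Λ - D * x ^ (-1/4)` if `log N ≤ x` and `N ≥ N1`, and `DD = 0`
if `exp x ≤ N` (`DD_zero`). Step: heights `z = zz x K A` satisfy `0.9 x ≤ z ≤ 0.97 x`, so
`exp z / Z ≤ exp (-0.03 x) * exp x / Z`, and `1/2 (exp x + K/3)/Z ≤ (3/4) exp x / Z`; `A = 2` works as soon as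
`2 exp(-0.03 x) ≤ 1`. `Λ = D (0.9 log N) ^ (-1/4)` as in T5_odd (if `z < log N` then `DD = 0`, if `z ≥ log N` the
induction hypothesis; `Λ - D z^(-1/4) ≥ 0` for `z ≥ 0.9 log N`). For `N < N1` the bound is trivial
(`DD ≤ 1`, `C` large): `DD_le_one` (`2 * 3 ^ i ≤ exp x` if `x ≥ 10`; for `x < 10` `i = 0`, `DD0_le_one`). -/

set_option autoImplicit false

namespace Pool.Agent.Lib.MP_a247fa_nt.Crit

open Finset Pool.Agent.Lib.MP_e43fce_nt_nat

theorem pC_unit (Z : ℝ) (N : ℕ) : Unit01 (pC Z N) := by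
  intro n
  unfold pC
  split_ifs <;> norm_num

theorem pC_le_hit {Z : ℝ} {N n K : ℕ} {Y : ℝ} (hn : (n : ℝ) ≤ Y) :
    pC Z N n ≤ hit Y Z (vw K n) + pC Z N (root K n) := by
  have h0 : 0 ≤ hit Y Z (vw K n) := by
    unfold hit
    split_ifs <;> norm_num
  have h1 : 0 ≤ pC Z N (root K n) := (pC_unit Z N _).1
  by_cases h : ∃ j : ℕ, Z ≤ (root j n : ℝ) ∧ ∀ i ≤ j, N < root i n
  · have e : pC Z N n = 1 := by unfold pC; rw [if_pos h]
    rw [e]
    obtain ⟨j, hj, hj2⟩ := h
    rcases le_or_gt j K with hjK | hjK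
    · have h2 : hit Y Z (vw K n) = 1 := by
        unfold hit
        rw [if_pos (hit_of_abs hn hjK hj)]
      linarith
    · obtain ⟨t, rfl⟩ : ∃ t, j = t + K := ⟨j - K, by omega⟩
      have h2 : pC Z N (root K n) = 1 := by
        unfold pC
        rw [if_pos]
        refine ⟨t, ?_, ?_⟩
        · rw [← root_add]; exact hj
        · intro i hi
          rw [← root_add]
          exact hj2 (i + K) (by omega)
      linarith
  · have e : pC Z N n = 0 := by unfold pC; rw [if_neg h]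
    rw [e]; linarith

theorem climb_hyp {e : ℝ} (K : ℕ) (f : ℕ → ℝ) :
    RHyp e K (fun n => f (root K n)) (fun _ s => f s) := by
  intro s n hs w hw had hn
  have hw' := (mem_words (3 * K) K w).1 (mem_filter.1 hw).1
  have hpos : ∀ a ∈ w, 1 ≤ a := fun a ha => (hw'.2 a ha).1
  obtain ⟨m, _, hnd, hroot, _⟩ := vw_unique hs hpos had
  have hmn : m = n := by
    rw [hn] at hnd
    exact_mod_cast hnd.symm
  subst hmn
  rw [hw'.1] at hroot
  show f (root K m) ≤ f s
  rw [hroot]

theorem climb_step : ∃ C x0 : ℝ, 0 < C ∧ 1 ≤ x0 ∧ ∀ x : ℝ, x0 ≤ x → ∀ K i : ℕ,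
    x / 10 ≤ (K : ℝ) → (K : ℝ) ≤ 3 * x / 10 → i ^ 2 ≤ K → ∀ Z : ℝ, 0 < Z → ∀ N : ℕ,
      DD i (pC Z N) x ≤ 1 / 2 * ((Real.exp x + K / 3) / Z)
        + ∑ A ∈ win (1 / 10) K, rho K A * DD (i1 K) (pC Z N) (zz x K A)
        + C * x ^ (-(1 / 4) : ℝ) := by
  obtain ⟨C1, x1, hC1, hx1, H1⟩ := hit_count
  obtain ⟨C2, x2, hC2, hx2, H2⟩ := lemR (e := 1 / 10) (by norm_num) le_rfl
  refine ⟨C1 + C2, max x1 x2, by positivity, le_max_of_le_left hx1, ?_⟩
  intro x hx K i hK1 hK2 hi Z hZ N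
  have hE := Real.exp_pos x
  have h1 := H1 x ((le_max_left _ _).trans hx) K i hK1 hK2 hi (Real.exp x) Z hE.le hZ
  have h2 := H2 x ((le_max_right _ _).trans hx) K i hK1 hK2 hi (fun n => pC Z N (root K n))
    (fun _ s => pC Z N s) (fun n => pC_unit Z N _) (fun _ => pC_unit Z N) (climb_hyp K (pC Z N))
  have h3 : NN i (pC Z N) (Real.exp x) ≤
      ∑ n ∈ oddS (Real.exp x), hit (Real.exp x) Z (vw K n) * MM i (n : ℤ)
        + NN i (fun n => pC Z N (root K n)) (Real.exp x) := by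
    unfold NN
    rw [← Finset.sum_add_distrib]
    refine Finset.sum_le_sum fun n hn => ?_
    have h4 : n ≤ ⌊Real.exp x⌋₊ := by
      unfold oddS at hn
      exact (Finset.mem_Icc.1 (Finset.mem_filter.1 hn).1).2
    have h5 : (n : ℝ) ≤ Real.exp x := (Nat.le_floor_iff hE.le).1 h4
    rw [← add_mul]
    exact mul_le_mul_of_nonneg_right (pC_le_hit h5) (MM_nonneg i n)
  have h4 : DD i (pC Z N) x ≤ (1 / 2 * ((Real.exp x + K / 3) / Z) + C1 * x ^ (-(1 / 4) : ℝ))
      + DD i (fun n => pC Z N (root K n)) x := by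
    unfold DD
    rw [div_le_iff₀ hE, add_mul, div_mul_cancel₀ _ hE.ne']
    linarith
  linarith

theorem climb_le_one {p : ℕ → ℝ} (hp : Unit01 p) {x : ℝ} {i : ℕ} (hi : (i : ℝ) ^ 2 ≤ x / 10) :
    DD i p x ≤ 1 := by
  rcases Nat.eq_zero_or_pos i with h | h
  · subst h
    exact DD0_le_one hp x
  · apply DD_le_one hp
    have h1 : (1 : ℝ) ≤ i := by exact_mod_cast h
    have h3 : (3 : ℝ) ≤ Real.exp 2 := by
      have := Real.add_one_le_exp (2 : ℝ)
      linarith
    have h4 : (3 : ℝ) ^ i ≤ Real.exp (2 * (i : ℝ)) := by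
      calc (3 : ℝ) ^ i ≤ (Real.exp 2) ^ i := by gcongr
        _ = _ := by rw [← Real.exp_nat_mul]; ring_nf
    have h5 : (2 : ℝ) ≤ Real.exp 1 := by
      have := Real.add_one_le_exp (1 : ℝ)
      linarith
    calc 2 * (3 : ℝ) ^ i ≤ Real.exp 1 * Real.exp (2 * (i : ℝ)) := by gcongr
      _ = Real.exp (1 + 2 * i) := by rw [← Real.exp_add]
      _ ≤ Real.exp x := Real.exp_le_exp.2 (by nlinarith)

theorem climb_zero {Z : ℝ} {N : ℕ} {x : ℝ} (i : ℕ) (h : Real.exp x ≤ N) :
    DD i (pC Z N) x = 0 := by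
  apply DD_zero
  intro n hn
  unfold pC
  rw [if_neg]
  rintro ⟨j, _, hj⟩
  have h1 := hj 0 (Nat.zero_le j)
  have h2 : N < n := h1
  have h3 : (N : ℝ) < n := by exact_mod_cast h2
  linarith

theorem climb_odd : ∃ C : ℝ, 0 < C ∧ ∀ N : ℕ, 2 ≤ N → ∀ Z : ℝ, 0 < Z → ∀ x : ℝ, 0 ≤ x →
    ∀ i : ℕ, (i : ℝ) ^ 2 ≤ x / 10 →
      DD i (pC Z N) x ≤ C * (Real.exp x / Z) + C * (Real.log N) ^ (-(1 / 4) : ℝ) := by
  obtain ⟨C1, x1, hC1, hx1, hR⟩ := climb_step
  set κ := (97 / 100 : ℝ) ^ (-(1 / 4) : ℝ) - 1 with hκ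
  have hκpos : 0 < κ := by
    have := Real.one_lt_rpow_of_pos_of_lt_one_of_neg (x := (97 / 100 : ℝ)) (z := -(1 / 4))
      (by norm_num) (by norm_num) (by norm_num)
    rw [hκ]; linarith
  set D := C1 / κ with hD
  have hDpos : 0 < D := by rw [hD]; positivity
  set x2 := max x1 100 with hx2
  have hx2a : x1 ≤ x2 := le_max_left _ _
  have hx2b : 100 ≤ x2 := le_max_right _ _
  have hx2pos : 0 < x2 := by linarith
  set C := max (max 1 (D * (9 / 10 : ℝ) ^ (-(1 / 4) : ℝ))) (x2 ^ (1 / 4 : ℝ)) with hCdef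
  have hCa : 1 ≤ C := (le_max_left _ _).trans (le_max_left _ _)
  have hCb : D * (9 / 10 : ℝ) ^ (-(1 / 4) : ℝ) ≤ C := (le_max_right _ _).trans (le_max_left _ _)
  have hCc : x2 ^ (1 / 4 : ℝ) ≤ C := le_max_right _ _
  refine ⟨C, by linarith, ?_⟩
  intro N hN Z hZ
  have hNr : (2 : ℝ) ≤ N := by exact_mod_cast hN
  have hNpos : (0 : ℝ) < N := by linarith
  set L := Real.log N with hL
  have hLpos : 0 < L := Real.log_pos (by linarith)
  have hexpL : Real.exp L = N := Real.exp_log hNpos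
  have hzero : ∀ (i : ℕ) (x : ℝ), x ≤ L → DD i (pC Z N) x = 0 := by
    intro i x hx
    apply climb_zero
    rw [← hexpL]
    exact Real.exp_le_exp.2 hx
  intro x hx0 i hi
  have hrhs1 : 0 ≤ C * (Real.exp x / Z) := by positivity
  have hrhs2 : 0 ≤ C * L ^ (-(1 / 4) : ℝ) := by positivity
  rcases lt_or_ge L x2 with hLx | hLx
  · -- small `N`
    have h1 := climb_le_one (pC_unit Z N) hi
    have h2 : 1 ≤ C * L ^ (-(1 / 4) : ℝ) := by
      have h3 : x2 ^ (-(1 / 4) : ℝ) ≤ L ^ (-(1 / 4) : ℝ) :=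
        Real.rpow_le_rpow_of_nonpos hLpos hLx.le (by norm_num)
      have h4 : x2 ^ (1 / 4 : ℝ) * x2 ^ (-(1 / 4) : ℝ) = 1 := by
        rw [← Real.rpow_add hx2pos]
        norm_num
      calc 1 = x2 ^ (1 / 4 : ℝ) * x2 ^ (-(1 / 4) : ℝ) := h4.symm
        _ ≤ C * L ^ (-(1 / 4) : ℝ) := by
          apply mul_le_mul hCc h3 (by positivity) (by linarith)
    linarith
  set Λ := D * (9 / 10 * L) ^ (-(1 / 4) : ℝ) with hΛ
  have hΛ' : Λ ≤ C * L ^ (-(1 / 4) : ℝ) := by
    rw [hΛ, Real.mul_rpow (by norm_num) hLpos.le, ← mul_assoc]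
    exact mul_le_mul_of_nonneg_right hCb (by positivity)
  have hΛz : ∀ z : ℝ, 9 / 10 * L ≤ z → D * z ^ (-(1 / 4) : ℝ) ≤ Λ := by
    intro z hz
    rw [hΛ]
    apply mul_le_mul_of_nonneg_left _ hDpos.le
    exact Real.rpow_le_rpow_of_nonpos (by positivity) hz (by norm_num)
  have key : ∀ n : ℕ, ∀ x : ℝ, 9 / 10 * L ≤ x → x ≤ n → ∀ i : ℕ, (i : ℝ) ^ 2 ≤ x / 10 →
      DD i (pC Z N) x ≤ Real.exp x / Z + (Λ - D * x ^ (-(1 / 4) : ℝ)) := by
    intro n
    induction n with
    | zero =>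
      intro x hx0 hxn i hi
      exfalso
      have : x ≤ 0 := by simpa using hxn
      linarith
    | succ n ih =>
      intro x hxL hxn i hi
      have hzx := hΛz x hxL
      rcases le_or_gt x L with hxL' | hxL'
      · rw [hzero i x hxL']
        have : 0 ≤ Real.exp x / Z := by positivity
        linarith
      have hx100 : 100 ≤ x := by linarith
      have hxpos : 0 < x := by linarith
      set K := ⌊x / 5⌋₊ with hK
      have hK2 : (K : ℝ) ≤ x / 5 := Nat.floor_le (by positivity)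
      have hK1 : x / 5 - 1 ≤ (K : ℝ) := by
        have := Nat.lt_floor_add_one (x / 5)
        rw [← hK] at this
        linarith
      have hiK : i ^ 2 ≤ K := by
        have : ((i : ℝ)) ^ 2 ≤ K := by linarith
        exact_mod_cast this
      have hR' := hR x (by linarith) K i (by linarith) (by linarith) hiK Z hZ N
      set y := x ^ (-(1 / 4) : ℝ) with hy
      have hypos : 0 < y := Real.rpow_pos_of_pos hxpos _
      set y' := (97 / 100 * x) ^ (-(1 / 4) : ℝ) with hy'
      have hyy : y' = (κ + 1) * y := by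
        rw [hy', Real.mul_rpow (by norm_num) hxpos.le, hκ, hy]; ring
      have hΛy : D * y' ≤ Λ := by
        apply hΛz
        linarith
      set E' := Real.exp (97 / 100 * x) / Z with hE'
      have hE'0 : 0 ≤ E' := by positivity
      set M := E' + (Λ - D * y') with hM
      have hMpos : 0 ≤ M := by rw [hM]; linarith
      have hterm : ∀ A ∈ win (1 / 10) K,
          rho K A * DD (i1 K) (pC Z N) (zz x K A) ≤ rho K A * M := by
        intro A hA
        apply mul_le_mul_of_nonneg_left _ (rho_nonneg K A)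
        have hA' : |(A : ℝ) - 2 * K| ≤ 1 / 10 * K := (mem_filter.1 hA).2
        obtain ⟨hz1, hz2⟩ := T5.heights (by norm_num) le_rfl hx100 hK1 hK2 hA'
        set z := zz x K A with hz
        obtain ⟨hs1, _⟩ := T5.small hx100 hK2 hz1
        have h3 : DD (i1 K) (pC Z N) z ≤ Real.exp z / Z + (Λ - D * z ^ (-(1 / 4) : ℝ)) := by
          apply ih z (by linarith) _ _ hs1
          push_cast at hxn
          linarith
        have h4 : y' ≤ z ^ (-(1 / 4) : ℝ) := by
          rw [hy']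
          exact Real.rpow_le_rpow_of_nonpos (by linarith) hz2 (by norm_num)
        have h5 : D * y' ≤ D * z ^ (-(1 / 4) : ℝ) := mul_le_mul_of_nonneg_left h4 hDpos.le
        have h6 : Real.exp z / Z ≤ E' := by
          rw [hE']
          exact div_le_div_of_nonneg_right (Real.exp_le_exp.2 hz2) hZ.le
        rw [hM]
        linarith
      have hsum : ∑ A ∈ win (1 / 10) K, rho K A * DD (i1 K) (pC Z N) (zz x K A) ≤ M := by
        calc ∑ A ∈ win (1 / 10) K, rho K A * DD (i1 K) (pC Z N) (zz x K A)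
            ≤ ∑ A ∈ win (1 / 10) K, rho K A * M := Finset.sum_le_sum hterm
          _ = (∑ A ∈ win (1 / 10) K, rho K A) * M := by rw [Finset.sum_mul]
          _ ≤ 1 * M := by
              apply mul_le_mul_of_nonneg_right _ hMpos
              refine le_trans (Finset.sum_le_sum_of_subset_of_nonneg (filter_subset _ _) ?_)
                (rho_sum_le K (3 * K + 1))
              intro A _ _
              exact rho_nonneg K A
          _ = M := one_mul _
      have hDκ : D * κ = C1 := by rw [hD]; field_simp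
      have hfin : (Λ - D * y') + C1 * y = Λ - D * y := by
        rw [hyy]
        have : D * ((κ + 1) * y) = (D * κ) * y + D * y := by ring
        rw [this, hDκ]; ring
      have hexp : 1 / 2 * ((Real.exp x + K / 3) / Z) + E' ≤ Real.exp x / Z := by
        have h7 : Real.exp (97 / 100 * x) * 4 ≤ Real.exp x := by
          have h8 : Real.exp x = Real.exp (97 / 100 * x) * Real.exp (3 / 100 * x) := by
            rw [← Real.exp_add]; congr 1; ring
          have h9 := Real.add_one_le_exp (3 / 100 * x)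
          rw [h8]
          apply mul_le_mul_of_nonneg_left _ (Real.exp_pos _).le
          linarith
        have h10 := Real.add_one_le_exp x
        have h11 : 1 / 2 * (Real.exp x + K / 3) + Real.exp (97 / 100 * x) ≤ Real.exp x := by
          linarith
        have h12 := div_le_div_of_nonneg_right h11 hZ.le
        have e : (1 / 2 * (Real.exp x + K / 3) + Real.exp (97 / 100 * x)) / Z
            = 1 / 2 * ((Real.exp x + K / 3) / Z) + E' := by rw [hE']; ring
        rw [e] at h12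
        exact h12
      calc DD i (pC Z N) x ≤ _ := hR'
        _ ≤ Real.exp x / Z + (Λ - D * y) := by linarith
  rcases le_or_gt x L with hxL | hxL
  · rw [hzero i x hxL]
    linarith
  · obtain ⟨n, hn⟩ := exists_nat_ge x
    have h1 := key n x (by linarith) hn i hi
    have h2 : 0 ≤ D * x ^ (-(1 / 4) : ℝ) := by positivity
    have h3 : Real.exp x / Z ≤ C * (Real.exp x / Z) := by
      have : 0 ≤ Real.exp x / Z := by positivity
      nlinarith
    linarith

end Pool.Agent.Lib.MP_a247fa_nt.Crit
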