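import Pool.Agent.Lib.MP_a247fa_nt.Crit.ClimbOdd

/-! CLIMBREL (50 min). The climbing theorem for the odd numbers, threshold `L n`, sharp constant.

Let `δ = ε / 4` (at most 1/2), `X = exp x` large, `K = ⌊x/5⌋₊`, `Y = δ X`. For odd `n ≤ X`:
`pR L N n ≤ [n ≤ δ X] + hit Y (L Y) (vw K n) + pC (L Y) N (root K n)` (witness `j ≤ K` and `n ≥ Y`: `hit_of_rel`;
`j > K`: `root j n ≥ L n ≥ L Y`, `root_add`). First part: at most `δ X + 1` numbers. Second: `hit_count` with `i = 0`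
(`MM_zero`): `X (1/2 (Y + K/3)/(L Y) + C x^(-1/4))`, where `(Y + K/3)/(L Y) → 1/L`. Third: `lemR` (`i = 0`), then
`climb_odd` at the heights `zz x K A ≤ 0.97 x` (`T5.heights`, `T5.small` for `i1 K`): `exp z / (L δ X) ≤ exp(-0.03 x)/(L δ) → 0`,
total `∑ rho ≤ 1`. -/

set_option autoImplicit false

namespace Pool.Agent.Lib.MP_a247fa_nt.Crit

open Finset Pool.Agent.Lib.MP_e43fce_nt_nat

theorem pR_unit (L : ℝ) (N : ℕ) : Unit01 (pR L N) := by
  intro n
  unfold pR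
  split_ifs <;> norm_num

/-- the three parts -/
private theorem crel_split {L Y : ℝ} (hY : 0 < Y) (hL : 0 < L) (N K n : ℕ) :
    pR L N n ≤ (if (n : ℝ) ≤ Y then 1 else 0) + hit Y (L * Y) (vw K n) +
      pC (L * Y) N (root K n) := by
  have h1 := hit_nonneg Y (L * Y) (vw K n)
  have h2 := (pC_unit (L * Y) N (root K n)).1
  by_cases h : ∃ j : ℕ, L * n ≤ (root j n : ℝ) ∧ ∀ i ≤ j, N < root i n
  · have e1 : pR L N n = 1 := by unfold pR; rw [if_pos h]
    rw [e1]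
    by_cases h3 : (n : ℝ) ≤ Y
    · rw [if_pos h3]; linarith
    · rw [if_neg h3]
      obtain ⟨j, hj1, hj2⟩ := h
      have hYn : Y ≤ n := (not_le.1 h3).le
      rcases le_or_gt j K with hjK | hjK
      · have h4 : Hit Y (L * Y) (vw K n) := hit_of_rel hY hYn hjK hj1
        have e2 : hit Y (L * Y) (vw K n) = 1 := by unfold hit; rw [if_pos h4]
        linarith
      · have h4 : pC (L * Y) N (root K n) = 1 := by
          unfold pC
          rw [if_pos]
          refine ⟨j - K, ?_, ?_⟩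
          · rw [← root_add, Nat.sub_add_cancel hjK.le]
            exact (mul_le_mul_of_nonneg_left hYn hL.le).trans hj1
          · intro i hi
            rw [← root_add]
            exact hj2 _ (by omega)
        linarith
  · have e1 : pR L N n = 0 := by unfold pR; rw [if_neg h]
    rw [e1]
    split_ifs <;> linarith

private theorem crel_part1 {Y : ℝ} (hY : 0 ≤ Y) (X : ℝ) :
    ∑ n ∈ oddS X, (if (n : ℝ) ≤ Y then (1 : ℝ) else 0) ≤ Y := by
  rw [← Finset.sum_filter, Finset.sum_const, nsmul_eq_mul, mul_one]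
  have h1 : (oddS X).filter (fun n : ℕ => (n : ℝ) ≤ Y) ⊆ Icc 1 ⌊Y⌋₊ := by
    intro n hn
    rw [mem_filter, oddS, mem_filter, mem_Icc] at hn
    rw [mem_Icc]
    exact ⟨hn.1.1.1, Nat.le_floor hn.2⟩
  have h2 := Finset.card_le_card h1
  rw [Nat.card_Icc, Nat.add_sub_cancel] at h2
  calc (((oddS X).filter (fun n : ℕ => (n : ℝ) ≤ Y)).card : ℝ) ≤ (⌊Y⌋₊ : ℝ) := by exact_mod_cast h2
    _ ≤ Y := Nat.floor_le hY

private theorem crel_hyp (Z : ℝ) (N K : ℕ) :
    RHyp (1 / 10) K (fun n => pC Z N (root K n)) (fun _ s => pC Z N s) := by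
  intro s n hs w hw had hn
  have hw' := (mem_words (3 * K) K w).1 (mem_filter.1 hw).1
  have hpos : ∀ a ∈ w, 1 ≤ a := fun a ha => (hw'.2 a ha).1
  obtain ⟨m, _, hnd, hroot, _⟩ := vw_unique hs hpos had
  have hmn : m = n := by
    rw [hn] at hnd
    exact_mod_cast hnd.symm
  subst hmn
  rw [hw'.1] at hroot
  show pC Z N (root K m) ≤ pC Z N s
  rw [hroot]

/-- third part -/
private theorem crel_part3 : ∃ C x0 : ℝ, 0 < C ∧ 100 ≤ x0 ∧ ∀ N : ℕ, 2 ≤ N → ∀ x : ℝ, x0 ≤ x →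
    ∀ Z : ℝ, 0 < Z →
      ∑ n ∈ oddS (Real.exp x), pC Z N (root ⌊x / 5⌋₊ n) ≤ Real.exp x *
        (C * (Real.exp (97 / 100 * x) / Z) + C * (Real.log N) ^ (-(1 / 4) : ℝ)
          + C * x ^ (-(1 / 4) : ℝ)) := by
  obtain ⟨C1, x1, hC1, hx1, hR⟩ := lemR (e := 1 / 10) (by norm_num) le_rfl
  obtain ⟨C2, hC2, hcl⟩ := climb_odd
  refine ⟨max C1 C2, max x1 100, lt_max_of_lt_left hC1, le_max_right _ _, ?_⟩
  intro N hN x hx Z hZ
  have hxx1 : x1 ≤ x := (le_max_left _ _).trans hx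
  have hx100 : 100 ≤ x := (le_max_right _ _).trans hx
  have hxpos : 0 < x := by linarith
  set K := ⌊x / 5⌋₊ with hK
  have hK2 : (K : ℝ) ≤ x / 5 := Nat.floor_le (by positivity)
  have hK1 : x / 5 - 1 ≤ (K : ℝ) := by
    have := Nat.lt_floor_add_one (x / 5)
    rw [← hK] at this
    linarith
  have hR' := hR x hxx1 K 0 (by linarith) (by linarith) (by simp)
    (fun n => pC Z N (root K n)) (fun _ s => pC Z N s) (fun n => pC_unit Z N _)
    (fun _ => pC_unit Z N) (crel_hyp Z N K)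
  set M := C2 * (Real.exp (97 / 100 * x) / Z) + C2 * (Real.log N) ^ (-(1 / 4) : ℝ) with hM
  have hlog : 0 ≤ Real.log N := Real.log_natCast_nonneg N
  have hlogp : 0 ≤ (Real.log N) ^ (-(1 / 4) : ℝ) := Real.rpow_nonneg hlog _
  have hMpos : 0 ≤ M := by rw [hM]; positivity
  have hterm : ∀ A ∈ win (1 / 10) K, rho K A * DD (i1 K) (pC Z N) (zz x K A) ≤ rho K A * M := by
    intro A hA
    apply mul_le_mul_of_nonneg_left _ (rho_nonneg K A)
    have hA' : |(A : ℝ) - 2 * K| ≤ 1 / 10 * K := (mem_filter.1 hA).2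
    obtain ⟨hz1, hz2⟩ := T5.heights (e := 1 / 10) (by norm_num) le_rfl hx100 hK1 hK2 hA'
    obtain ⟨hs1, _⟩ := T5.small hx100 hK2 hz1
    refine (hcl N hN Z hZ (zz x K A) (by linarith) (i1 K) hs1).trans ?_
    rw [hM]
    gcongr
  have hsum : ∑ A ∈ win (1 / 10) K, rho K A * DD (i1 K) (pC Z N) (zz x K A) ≤ M := by
    calc ∑ A ∈ win (1 / 10) K, rho K A * DD (i1 K) (pC Z N) (zz x K A)
        ≤ ∑ A ∈ win (1 / 10) K, rho K A * M := Finset.sum_le_sum hterm
      _ = (∑ A ∈ win (1 / 10) K, rho K A) * M := by rw [Finset.sum_mul]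
      _ ≤ 1 * M := by
          apply mul_le_mul_of_nonneg_right _ hMpos
          refine le_trans (Finset.sum_le_sum_of_subset_of_nonneg (filter_subset _ _) ?_)
            (rho_sum_le K (3 * K + 1))
          intro A _ _
          exact rho_nonneg K A
      _ = M := one_mul _
  have h1 : DD 0 (fun n => pC Z N (root K n)) x =
      (∑ n ∈ oddS (Real.exp x), pC Z N (root K n)) / Real.exp x := by
    unfold DD NN
    congr 1
    exact Finset.sum_congr rfl (fun n _ => by rw [MM_zero, mul_one])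
  rw [h1, div_le_iff₀ (Real.exp_pos x)] at hR'
  refine hR'.trans ?_
  rw [mul_comm]
  refine mul_le_mul_of_nonneg_left ?_ (Real.exp_pos x).le
  refine (add_le_add hsum le_rfl).trans ?_
  rw [hM]
  have hZ' : 0 ≤ Real.exp (97 / 100 * x) / Z := by positivity
  have hx' : 0 ≤ x ^ (-(1 / 4) : ℝ) := Real.rpow_nonneg hxpos.le _
  have e1 := mul_le_mul_of_nonneg_right (le_max_right C1 C2) hZ'
  have e2 := mul_le_mul_of_nonneg_right (le_max_right C1 C2) hlogp
  have e3 := mul_le_mul_of_nonneg_right (le_max_left C1 C2) hx'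
  linarith

/-- all errors tend to zero -/
private theorem crel_err (c1 c2 c3 : ℝ) {η : ℝ} (hη : 0 < η) : ∃ x0 : ℝ, ∀ x : ℝ, x0 ≤ x →
    c1 * (x * Real.exp (-x)) + c2 * x ^ (-(1 / 4) : ℝ) + c3 * Real.exp (-(3 / 100 * x)) ≤ η := by
  have h1 : Filter.Tendsto (fun x : ℝ => x * Real.exp (-x)) Filter.atTop (nhds 0) := by
    have := Real.tendsto_pow_mul_exp_neg_atTop_nhds_zero 1
    simpa using this
  have h2 : Filter.Tendsto (fun x : ℝ => x ^ (-(1 / 4) : ℝ)) Filter.atTop (nhds 0) :=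
    tendsto_rpow_neg_atTop (by norm_num)
  have h3 : Filter.Tendsto (fun x : ℝ => Real.exp (-(3 / 100 * x))) Filter.atTop (nhds 0) := by
    apply Real.tendsto_exp_neg_atTop_nhds_zero.comp
    exact Filter.tendsto_id.const_mul_atTop (by norm_num : (0 : ℝ) < 3 / 100)
  have h4 := ((h1.const_mul c1).add (h2.const_mul c2)).add (h3.const_mul c3)
  simp only [mul_zero, add_zero] at h4
  have h5 := h4.eventually (gt_mem_nhds hη)
  obtain ⟨x0, hx0⟩ := Filter.eventually_atTop.1 h5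
  exact ⟨x0, fun x hx => (hx0 x hx).le⟩

theorem climb_rel : ∃ C : ℝ, 0 < C ∧ ∀ N : ℕ, 2 ≤ N → ∀ L ε : ℝ, 0 < L → 0 < ε →
    ∃ X0 : ℝ, 1 ≤ X0 ∧ ∀ X : ℝ, X0 ≤ X →
      ∑ n ∈ oddS X, pR L N n ≤ (1 / (2 * L) + C * (Real.log N) ^ (-(1 / 4) : ℝ) + ε) * X := by
  obtain ⟨C3, x3, hC3, hx3, h3⟩ := crel_part3
  obtain ⟨C2, x2, hC2, hx2, h2⟩ := hit_count
  refine ⟨C3, hC3, fun N hN L ε hL hε => ?_⟩
  set δ := ε / 4 with hδ
  have hδpos : 0 < δ := by rw [hδ]; positivity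
  obtain ⟨x4, hx4⟩ := crel_err (1 / (L * δ)) (C2 + C3) (C3 / (L * δ)) (half_pos hε)
  set x5 := max (max x2 x3) x4 with hx5
  refine ⟨Real.exp x5, ?_, ?_⟩
  · have : 0 ≤ x5 := by
      have : x3 ≤ x5 := (le_max_right _ _).trans (le_max_left _ _)
      linarith
    exact Real.one_le_exp this
  intro X hX
  have hXpos : 0 < X := lt_of_lt_of_le (Real.exp_pos _) hX
  obtain ⟨x, rfl⟩ : ∃ x, X = Real.exp x := ⟨Real.log X, (Real.exp_log hXpos).symm⟩
  have hx : x5 ≤ x := Real.exp_le_exp.1 hX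
  have hxx2 : x2 ≤ x := ((le_max_left _ _).trans (le_max_left _ _)).trans hx
  have hxx3 : x3 ≤ x := ((le_max_right _ _).trans (le_max_left _ _)).trans hx
  have hxx4 : x4 ≤ x := (le_max_right _ _).trans hx
  have hx100 : 100 ≤ x := by linarith
  have hxpos : 0 < x := by linarith
  set K := ⌊x / 5⌋₊ with hK
  have hK2 : (K : ℝ) ≤ x / 5 := Nat.floor_le (by positivity)
  have hK1 : x / 5 - 1 ≤ (K : ℝ) := by
    have := Nat.lt_floor_add_one (x / 5)
    rw [← hK] at this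
    linarith
  set Y := δ * Real.exp x with hY
  have hYpos : 0 < Y := by rw [hY]; positivity
  have hZpos : 0 < L * Y := by positivity
  have p1 := crel_part1 hYpos.le (Real.exp x)
  have p2 := h2 x hxx2 K 0 (by linarith) (by linarith) (by simp) Y (L * Y) hYpos.le hZpos
  have p3 := h3 N hN x hxx3 (L * Y) hZpos
  rw [← hK] at p3
  have e2 : ∑ n ∈ oddS (Real.exp x), hit Y (L * Y) (vw K n) * MM 0 (n : ℤ) =
      ∑ n ∈ oddS (Real.exp x), hit Y (L * Y) (vw K n) :=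
    Finset.sum_congr rfl (fun n _ => by rw [MM_zero, mul_one])
  rw [e2] at p2
  have hsplit : ∑ n ∈ oddS (Real.exp x), pR L N n ≤
      ∑ n ∈ oddS (Real.exp x), (if (n : ℝ) ≤ Y then (1 : ℝ) else 0) +
      ∑ n ∈ oddS (Real.exp x), hit Y (L * Y) (vw K n) +
      ∑ n ∈ oddS (Real.exp x), pC (L * Y) N (root K n) := by
    rw [← Finset.sum_add_distrib, ← Finset.sum_add_distrib]
    exact Finset.sum_le_sum (fun n _ => crel_split hYpos hL N K n)
  have hE := Real.exp_pos x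
  -- second part
  have q2 : 1 / 2 * ((Y + K / 3) / (L * Y)) ≤
      1 / (2 * L) + 1 / (L * δ) * (x * Real.exp (-x)) := by
    have a1 : 1 / 2 * ((Y + K / 3) / (L * Y)) = 1 / (2 * L) + K / 6 / (L * Y) := by
      field_simp
      ring
    have a2 : (K : ℝ) / 6 / (L * Y) = 1 / (L * δ) * (K / 6 * Real.exp (-x)) := by
      rw [hY, Real.exp_neg]
      field_simp
    rw [a1, a2]
    have a3 : (K : ℝ) / 6 ≤ x := by linarith
    gcongr
  -- third part
  have q3 : Real.exp (97 / 100 * x) / (L * Y) = 1 / (L * δ) * Real.exp (-(3 / 100 * x)) := by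
    rw [hY]
    have a1 : Real.exp (97 / 100 * x) = Real.exp x * Real.exp (-(3 / 100 * x)) := by
      rw [← Real.exp_add]; congr 1; ring
    rw [a1]
    field_simp
  rw [q3] at p3
  have hlog : 0 ≤ Real.log N := Real.log_natCast_nonneg N
  have hgl := hx4 x hxx4
  have fin : Y + Real.exp x * (1 / 2 * ((Y + K / 3) / (L * Y)) + C2 * x ^ (-(1 / 4) : ℝ)) +
      Real.exp x * (C3 * (1 / (L * δ) * Real.exp (-(3 / 100 * x))) +
        C3 * (Real.log N) ^ (-(1 / 4) : ℝ) + C3 * x ^ (-(1 / 4) : ℝ)) ≤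
      (1 / (2 * L) + C3 * (Real.log N) ^ (-(1 / 4) : ℝ) + ε) * Real.exp x := by
    have b1 : Y + Real.exp x * (1 / 2 * ((Y + K / 3) / (L * Y)) + C2 * x ^ (-(1 / 4) : ℝ)) +
        Real.exp x * (C3 * (1 / (L * δ) * Real.exp (-(3 / 100 * x))) +
        C3 * (Real.log N) ^ (-(1 / 4) : ℝ) + C3 * x ^ (-(1 / 4) : ℝ)) =
        Real.exp x * (δ + 1 / 2 * ((Y + K / 3) / (L * Y)) + C2 * x ^ (-(1 / 4) : ℝ) +
        (C3 * (1 / (L * δ) * Real.exp (-(3 / 100 * x))) +
        C3 * (Real.log N) ^ (-(1 / 4) : ℝ) + C3 * x ^ (-(1 / 4) : ℝ))) := by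
      rw [hY]; ring
    rw [b1, mul_comm (1 / (2 * L) + C3 * (Real.log N) ^ (-(1 / 4) : ℝ) + ε)]
    refine mul_le_mul_of_nonneg_left ?_ hE.le
    have b2 : C3 / (L * δ) * Real.exp (-(3 / 100 * x)) =
        C3 * (1 / (L * δ) * Real.exp (-(3 / 100 * x))) := by ring
    rw [b2] at hgl
    have b3 : δ = ε / 4 := hδ
    linarith
  linarith

end Pool.Agent.Lib.MP_a247fa_nt.Crit
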