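import Pool.Agent.Lib.MP_a247fa_nt.Critical
import Pool.Agent.Lib.MP_a247fa_nt.Crit.CDefs

/-! CRITUNIQUE (40 min). For every integer `m ≥ 1` there is exactly one critical point within `1/2`.

Formulas `dcf_even`, `dcf_odd` (Basic.lean) at `m + d`. Odd `m`: `dcf (m + d) = 1 + cos(πd)/2 - (2m+1+2d)(π/4) sin(πd)`
is `≥ 1 > 0` for `-1/2 ≤ d ≤ 0` and strictly decreasing on `[0, 1/2]` (both terms), positive at `0`, at `1/2` it is
`1 - (2m+2) π/4 < 0`. Even `m`, `d = -e`: `1 - cos(πe)/2 - (2m+1-2e)(π/4) sin(πe)`; for `d ≥ 0` it is `≥ 1/2`;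
`e = 1/2`: `1 - 2m π/4 < 0`; `e = 0`: `1/2`. Uniqueness: on `[0, 1/2]` put `h e = (2m+1-2e)(π/4) sin(πe) + cos(πe)/2 - 1`;
`h' e = (2m+1-2e)(π²/4) cos(πe) - π sin(πe)`, which is decreasing, so `h` is concave on `[0,1/2]`
(`h 0 = -1/2 < 0`, `h (1/2) > 0` imply exactly one zero). -/

set_option autoImplicit false

namespace Pool.Agent.Lib.MP_a247fa_nt.Crit

open Pool.Agent.Lib.MP_a247fa_nt Set

theorem sin_strictMono {a b : ℝ} (ha : 0 ≤ a) (hab : a < b) (hb : b ≤ 1 / 2) :
    Real.sin (Real.pi * a) < Real.sin (Real.pi * b) := by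
  have hpi := Real.pi_pos
  exact Real.sin_lt_sin_of_lt_of_le_pi_div_two (by nlinarith) (by nlinarith) (by nlinarith)

theorem cos_anti {a b : ℝ} (ha : 0 ≤ a) (hab : a ≤ b) (hb : b ≤ 1 / 2) :
    Real.cos (Real.pi * b) ≤ Real.cos (Real.pi * a) := by
  have hpi := Real.pi_pos
  exact Real.cos_le_cos_of_nonneg_of_le_pi (by positivity) (by nlinarith) (by nlinarith)

theorem crit_odd (m : ℕ) (h : m % 2 = 1) : ∃! d : ℝ, |d| ≤ 1 / 2 ∧ dcf (m + d) = 0 := by
  have hpi := Real.pi_gt_three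
  have hm : (1 : ℝ) ≤ m := by
    have : 1 ≤ m := by omega
    exact_mod_cast this
  set F : ℝ → ℝ := fun d => 1 + Real.cos (Real.pi * d) / 2
      - (2 * (m + d) + 1) * Real.pi / 4 * Real.sin (Real.pi * d) with hF
  have hFd : ∀ d, dcf (m + d) = F d := fun d => dcf_odd m h d
  have hcont : Continuous F := by rw [hF]; fun_prop
  have h0 : 0 < F 0 := by simp [hF]; norm_num
  have h1 : F (1 / 2) < 0 := by
    have e : Real.pi * (1 / 2) = Real.pi / 2 := by ring
    simp only [hF, e, Real.cos_pi_div_two, Real.sin_pi_div_two]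
    nlinarith
  obtain ⟨d, hd, hd0⟩ := intermediate_value_Icc' (by norm_num : (0 : ℝ) ≤ 1 / 2)
    hcont.continuousOn ⟨h1.le, h0.le⟩
  have hanti : ∀ a b : ℝ, 0 ≤ a → a < b → b ≤ 1 / 2 → F b < F a := by
    intro a b ha hab hb
    have hs := sin_strictMono ha hab hb
    have hc := cos_anti ha hab.le hb
    have hsa : 0 ≤ Real.sin (Real.pi * a) := Real.sin_nonneg_of_nonneg_of_le_pi (by positivity)
      (by nlinarith)
    have h2 : (2 * (m + a) + 1) * Real.pi / 4 * Real.sin (Real.pi * a) ≤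
        (2 * (m + b) + 1) * Real.pi / 4 * Real.sin (Real.pi * a) := by
      apply mul_le_mul_of_nonneg_right _ hsa
      have : 2 * ((m : ℝ) + a) + 1 ≤ 2 * (m + b) + 1 := by linarith
      nlinarith
    have h3 : (2 * (m + b) + 1) * Real.pi / 4 * Real.sin (Real.pi * a) <
        (2 * (m + b) + 1) * Real.pi / 4 * Real.sin (Real.pi * b) := by
      apply mul_lt_mul_of_pos_left hs
      have : 0 < 2 * ((m : ℝ) + b) + 1 := by linarith
      positivity
    simp only [hF]
    linarith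
  refine ⟨d, ⟨abs_le.2 ⟨by linarith [hd.1], hd.2⟩, (hFd d).trans hd0⟩, ?_⟩
  rintro y ⟨hy1, hy2⟩
  have hy := abs_le.1 hy1
  have hy0 := (critical_odd h (by linarith [hy.1]) hy.2 hy2).1
  rw [hFd] at hy2
  rcases lt_trichotomy y d with hlt | heq | hgt
  · have := hanti y d hy0.le hlt hd.2
    linarith
  · exact heq
  · have := hanti d y hd.1 hgt hy.2
    linarith

theorem crit_even (m : ℕ) (h : m % 2 = 0) (hm1 : 1 ≤ m) :
    ∃! d : ℝ, |d| ≤ 1 / 2 ∧ dcf (m + d) = 0 := by
  have hpi := Real.pi_gt_three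
  have hm : (2 : ℝ) ≤ m := by
    have : 2 ≤ m := by omega
    exact_mod_cast this
  set H : ℝ → ℝ := fun e => (2 * m + 1 - 2 * e) * Real.pi / 4 * Real.sin (Real.pi * e)
      + Real.cos (Real.pi * e) / 2 - 1 with hH
  have hHd : ∀ e, dcf (m + -e) = - H e := by
    intro e
    rw [dcf_even m h (-e)]
    simp only [hH, mul_neg, Real.cos_neg, Real.sin_neg]
    ring
  have hcont : Continuous H := by rw [hH]; fun_prop
  have h0 : H 0 < 0 := by simp [hH]; norm_num
  have h1 : 0 < H (1 / 2) := by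
    have e : Real.pi * (1 / 2) = Real.pi / 2 := by ring
    simp only [hH, e, Real.cos_pi_div_two, Real.sin_pi_div_two]
    nlinarith
  have hder : ∀ e : ℝ, HasDerivAt H ((2 * m + 1 - 2 * e) * Real.pi / 4 *
      (Real.cos (Real.pi * e) * Real.pi) - Real.pi * Real.sin (Real.pi * e)) e := by
    intro e
    have e1 : HasDerivAt (fun e : ℝ => Real.pi * e) Real.pi e := by
      simpa using (hasDerivAt_id e).const_mul Real.pi
    have e2 : HasDerivAt (fun e : ℝ => (2 * (m : ℝ) + 1 - 2 * e) * Real.pi / 4)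
        (-(2 * Real.pi / 4)) e := by
      have := ((((hasDerivAt_id e).const_mul 2).const_sub (2 * (m : ℝ) + 1)).mul_const
        Real.pi).div_const 4
      refine this.congr_deriv ?_
      simp
      ring
    refine (((e2.mul e1.sin).add (e1.cos.div_const 2)).sub_const 1).congr_deriv ?_
    ring
  have hconc : ConcaveOn ℝ (Icc 0 (1 / 2)) H := by
    refine AntitoneOn.concaveOn_of_deriv (convex_Icc _ _) hcont.continuousOn
      (fun e _ => (hder e).differentiableAt.differentiableWithinAt) ?_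
    rw [interior_Icc]
    intro a ha b hb hab
    rw [(hder a).deriv, (hder b).deriv]
    have hc := cos_anti ha.1.le hab hb.2.le
    have hs : Real.sin (Real.pi * a) ≤ Real.sin (Real.pi * b) := by
      rcases hab.lt_or_eq with hlt | rfl
      · exact (sin_strictMono ha.1.le hlt hb.2.le).le
      · exact le_rfl
    have hcb : 0 ≤ Real.cos (Real.pi * b) := Real.cos_nonneg_of_mem_Icc
      ⟨by nlinarith [hb.1], by nlinarith [hb.2]⟩
    have h2 : (2 * m + 1 - 2 * b) * Real.pi / 4 * (Real.cos (Real.pi * b) * Real.pi) ≤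
        (2 * m + 1 - 2 * a) * Real.pi / 4 * (Real.cos (Real.pi * a) * Real.pi) := by
      apply mul_le_mul
      · have : 2 * (m : ℝ) + 1 - 2 * b ≤ 2 * m + 1 - 2 * a := by linarith
        nlinarith
      · exact mul_le_mul_of_nonneg_right hc Real.pi_pos.le
      · positivity
      · have : 0 ≤ 2 * (m : ℝ) + 1 - 2 * a := by linarith [ha.2]
        positivity
    have h3 := mul_le_mul_of_nonneg_left hs Real.pi_pos.le
    linarith
  obtain ⟨e, he, he0⟩ := intermediate_value_Icc (by norm_num : (0 : ℝ) ≤ 1 / 2)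
    hcont.continuousOn ⟨h0.le, h1.le⟩
  have huniq : ∀ a b : ℝ, 0 < a → a < b → b ≤ 1 / 2 → H a = 0 → H b = 0 → False := by
    intro a b ha hab hb hHa hHb
    have hb' : b < 1 / 2 := by
      rcases hb.lt_or_eq with h | h
      · exact h
      · rw [h] at hHb; linarith
    have hne : (1 : ℝ) / 2 - a ≠ 0 := by linarith
    have hw1 : 0 ≤ (1 / 2 - b) / (1 / 2 - a) := div_nonneg (by linarith) (by linarith)
    have hw2 : 0 ≤ (b - a) / (1 / 2 - a) := div_nonneg (by linarith) (by linarith)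
    have hw3 : (1 / 2 - b) / (1 / 2 - a) + (b - a) / (1 / 2 - a) = 1 := by
      rw [← add_div, div_eq_one_iff_eq hne]; ring
    have ha' : a ∈ Icc (0 : ℝ) (1 / 2) := ⟨ha.le, by linarith⟩
    have hh' : (1 / 2 : ℝ) ∈ Icc (0 : ℝ) (1 / 2) := ⟨by norm_num, le_rfl⟩
    have hc := hconc.2 ha' hh' hw1 hw2 hw3
    have hpt : (1 / 2 - b) / (1 / 2 - a) * a + (b - a) / (1 / 2 - a) * (1 / 2) = b := by
      rw [div_mul_eq_mul_div, div_mul_eq_mul_div, ← add_div, div_eq_iff hne]
      ring
    simp only [smul_eq_mul] at hc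
    rw [hpt, hHa, hHb] at hc
    have hp : 0 < (b - a) / (1 / 2 - a) := div_pos (by linarith) (by linarith)
    have := mul_pos hp h1
    linarith
  refine ⟨-e, ⟨abs_le.2 ⟨by linarith [he.2], by linarith [he.1]⟩, ?_⟩, ?_⟩
  · have := hHd e
    rw [he0] at this
    simpa using this
  · rintro y ⟨hy1, hy2⟩
    have hy := abs_le.1 hy1
    have hpos : 0 < (m : ℝ) + y := by linarith [hy.1]
    have hy0 := (critical_even h (by linarith [hy.1]) hy.2 hpos hy2).2.1
    have hHy : H (-y) = 0 := by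
      have := hHd (-y)
      rw [neg_neg, hy2] at this
      linarith
    have he1 : 0 < e := by
      rcases he.1.lt_or_eq with h | h
      · exact h
      · rw [← h] at he0; linarith
    rcases lt_trichotomy (-y) e with hlt | heq | hgt
    · exact (huniq (-y) e (by linarith) hlt he.2 hHy he0).elim
    · linarith
    · exact (huniq e (-y) he1 hgt (by linarith [hy.1]) he0 hHy).elim

theorem crit_unique (m : ℕ) (hm : 1 ≤ m) : ∃! c : ℝ, IsCrit m c := by
  have key : ∃! d : ℝ, |d| ≤ 1 / 2 ∧ dcf (m + d) = 0 := by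
    rcases Nat.mod_two_eq_zero_or_one m with h | h
    · exact crit_even m h hm
    · exact crit_odd m h
  obtain ⟨d, ⟨h1, h2⟩, h3⟩ := key
  refine ⟨m + d, ⟨by simpa using h1, h2⟩, ?_⟩
  rintro c ⟨hc1, hc2⟩
  have := h3 (c - m) ⟨hc1, by simpa using hc2⟩
  linarith

end Pool.Agent.Lib.MP_a247fa_nt.Crit
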