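import Pool.Agent.Lib.MP_a247fa_nt.Critical
import Pool.Agent.Lib.MP_a247fa_nt.Crit.CDefs

/-! LEFT5. Left shadowing with the constant `5/2` (LeftShadow.lean has `12/5`).

`InJ P m x`: `x` is in the trap of `m`, or just left of `m`: `x < m` and `(m - x) (P - 4/3 m²) ≤ m`. With `P = 3 X²`, `X = 5/2 m₀`.
-/

set_option autoImplicit false

namespace Pool.Agent.Lib.MP_a247fa_nt.Crit

open Pool.Agent.Lib.MP_a247fa_nt

def InJ (P : ℝ) (m : ℕ) (x : ℝ) : Prop :=
  x ∈ trapI m ∨ (x < m ∧ (m - x) * (P - 4 / 3 * (m : ℝ) ^ 2) ≤ m)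

/-- sizes on the left side: `e ≤ 0.006` and `m e ≤ 3/5` -/
lemma left5_size {m : ℕ} (hm : 0 < m) {X e : ℝ} (hX : 100 ≤ X) (hmX : (m : ℝ) ≤ X) (he : 0 < e)
    (hinv : e * (3 * X ^ 2 - 4 / 3 * (m : ℝ) ^ 2) ≤ m) :
    e ≤ 0.006 ∧ m * e ≤ 3 / 5 := by
  have hm1 : (1 : ℝ) ≤ m := by exact_mod_cast hm
  have hX0 : 0 < X := by linarith
  have hmX2 : (m : ℝ) ^ 2 ≤ X ^ 2 := pow_le_pow_left₀ (by linarith) hmX 2
  have hD : 5 / 3 * X ^ 2 ≤ 3 * X ^ 2 - 4 / 3 * (m : ℝ) ^ 2 := by linarith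
  have h1 : e * (5 / 3 * X ^ 2) ≤ m := le_trans (mul_le_mul_of_nonneg_left hD he.le) hinv
  have h2 : e * X ≤ 3 / 5 := by
    have h3 : e * (5 / 3 * X ^ 2) ≤ X := h1.trans hmX
    have h4 : X * (e * X * (5 / 3)) ≤ X * 1 := by
      have : X * (e * X * (5 / 3)) = e * (5 / 3 * X ^ 2) := by ring
      rw [this]; linarith
    have h5 := le_of_mul_le_mul_left h4 hX0
    linarith
  constructor
  · have : e * 100 ≤ e * X := mul_le_mul_of_nonneg_left hX he.le
    linarith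
  · have : e * m ≤ e * X := mul_le_mul_of_nonneg_left hmX he.le
    linarith

/-- One step on the left side of an odd integer. -/
lemma left5_odd {m : ℕ} (hm : 0 < m) (h : m % 2 = 1) {X e : ℝ} (hX : 100 ≤ X)
    (hmX : (m : ℝ) ≤ X) (hTX : (T m : ℝ) ≤ X) (he : 0 < e)
    (hinv : e * (3 * X ^ 2 - 4 / 3 * (m : ℝ) ^ 2) ≤ m) :
    cf (m - e) < T m ∧ ((T m : ℝ) - cf (m - e)) * (3 * X ^ 2 - 4 / 3 * (T m : ℝ) ^ 2) ≤ T m := by
  have hm1 : (1 : ℝ) ≤ m := by exact_mod_cast hm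
  obtain ⟨he2', -⟩ := left5_size hm hX hmX he hinv
  have he2 : e ≤ 1 / 2 := by linarith
  set D : ℝ := 3 * X ^ 2 - 4 / 3 * (m : ℝ) ^ 2 with hD
  have hTpos : (0 : ℝ) < T m := by exact_mod_cast T_pos hm
  have hTX2 : (T m : ℝ) ^ 2 ≤ X ^ 2 := pow_le_pow_left₀ hTpos.le hTX 2
  have hT : (T m : ℝ) = (3 * m + 1) / 2 := T_odd h
  set D' : ℝ := 3 * X ^ 2 - 4 / 3 * (T m : ℝ) ^ 2 with hD'
  have hD'pos : 0 < D' := by
    have : 0 < (T m : ℝ) ^ 2 := by positivity
    rw [hD']; linarith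
  have hDD' : D' = D - 5 / 3 * (m : ℝ) ^ 2 - 2 * m - 1 / 3 := by
    rw [hD', hD, hT]; ring
  set c : ℝ := 1 - Real.cos (Real.pi * e) with hc
  have hc0 : 0 ≤ c := one_sub_cos_nonneg _
  have hc1 : c ≤ Real.pi ^ 2 * e ^ 2 / 2 := one_sub_cos_le e
  have hq1 : Real.pi ^ 2 < 9.87 := pi_sq_lt
  have hc2 : c ≤ 4.935 * e ^ 2 := by nlinarith [sq_nonneg e]
  have hval : (T m : ℝ) - cf (m - e) = 3 / 2 * e + ((2 * m + 1) / 4 - e / 2) * c := by
    have h1 := cf_odd m h (-e)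
    have h2 : Real.pi * -e = -(Real.pi * e) := by ring
    rw [h2, Real.cos_neg] at h1
    have h3 : (m : ℝ) - e = m + -e := by ring
    rw [h3, h1, hT, hc]; ring
  have hpos : 0 < (T m : ℝ) - cf (m - e) := by
    rw [hval]
    have : 0 ≤ ((2 * (m : ℝ) + 1) / 4 - e / 2) * c := by
      apply mul_nonneg _ hc0
      linarith
    linarith
  have hub : (T m : ℝ) - cf (m - e) ≤ 3 / 2 * (e * (1 + 0.8225 * (2 * m + 1) * e)) := by
    rw [hval]
    have h1 : ((2 * (m : ℝ) + 1) / 4 - e / 2) * c ≤ ((2 * (m : ℝ) + 1) / 4) * (4.935 * e ^ 2) := by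
      apply mul_le_mul _ hc2 hc0 (by positivity)
      linarith
    linarith
  refine ⟨by linarith, ?_⟩
  have h1 : ((T m : ℝ) - cf (m - e)) * D' ≤
      3 / 2 * (e * (1 + 0.8225 * (2 * m + 1) * e)) * D' :=
    mul_le_mul_of_nonneg_right hub hD'pos.le
  have h2 : e * D' ≤ m - e * (5 / 3 * (m : ℝ) ^ 2 + 2 * m + 1 / 3) := by
    rw [hDD']; linarith
  have h3 : e * D' ≤ m := by
    have : 0 ≤ e * (5 / 3 * (m : ℝ) ^ 2 + 2 * m + 1 / 3) := by positivity
    linarith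
  have h4 : 0.8225 * (2 * m + 1) * e * (e * D') ≤ 0.8225 * (2 * m + 1) * e * m :=
    mul_le_mul_of_nonneg_left h3 (by positivity)
  have h5 : e * (1 + 0.8225 * (2 * m + 1) * e) * D' < m := by
    have e1 : e * (1 + 0.8225 * (2 * m + 1) * e) * D' =
      e * D' + 0.8225 * (2 * m + 1) * e * (e * D') := by ring
    rw [e1]
    have h6 : 0.8225 * (2 * m + 1) * e * m < e * (5 / 3 * (m : ℝ) ^ 2 + 2 * m + 1 / 3) := by
      have : 0.8225 * (2 * m + 1) * (m : ℝ) < 5 / 3 * (m : ℝ) ^ 2 + 2 * m + 1 / 3 := by nlinarith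
      have := mul_lt_mul_of_pos_left this he
      linarith
    linarith
  rw [hT]
  have h7 : 3 / 2 * (e * (1 + 0.8225 * (2 * (m : ℝ) + 1) * e)) * D' < 3 / 2 * m := by
    have := mul_lt_mul_of_pos_left h5 (by norm_num : (0 : ℝ) < 3 / 2)
    linarith
  rw [hT] at h1
  linarith

/-- One step on the left side of an even integer. -/
lemma left5_even {m : ℕ} (hm : 0 < m) (h : m % 2 = 0) {X e : ℝ} (hX : 100 ≤ X)
    (hmX : (m : ℝ) ≤ X) (he : 0 < e)
    (hinv : e * (3 * X ^ 2 - 4 / 3 * (m : ℝ) ^ 2) ≤ m) :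
    cf (m - e) ∈ trapI (T m) ∨
    (cf (m - e) < T m ∧ ((T m : ℝ) - cf (m - e)) * (3 * X ^ 2 - 4 / 3 * (T m : ℝ) ^ 2) ≤ T m) := by
  have hm2 : (2 : ℝ) ≤ m := by
    have : 2 ≤ m := by omega
    exact_mod_cast this
  obtain ⟨he6, hme⟩ := left5_size hm hX hmX he hinv
  have hmX2 : (m : ℝ) ^ 2 ≤ X ^ 2 := pow_le_pow_left₀ (by linarith) hmX 2
  set D : ℝ := 3 * X ^ 2 - 4 / 3 * (m : ℝ) ^ 2 with hD
  have hD2 : 5 / 3 * (m : ℝ) ^ 2 ≤ D := by rw [hD]; linarith
  have hT : (T m : ℝ) = m / 2 := T_even h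
  have he4 : e ≤ 1 / 4 := by linarith
  set c : ℝ := 1 - Real.cos (Real.pi * e) with hc
  have hc0 : 0 ≤ c := one_sub_cos_nonneg _
  have hc1 : c ≤ Real.pi ^ 2 * e ^ 2 / 2 := one_sub_cos_le e
  have hc3 : Real.pi ^ 2 * e ^ 2 / 2 - Real.pi ^ 4 * e ^ 4 / 24 ≤ c := le_one_sub_cos e
  have hq1 : Real.pi ^ 2 < 9.87 := pi_sq_lt
  have hq2 : 9.869 < Real.pi ^ 2 := pi_sq_gt
  have hc4 : 4.67 * e ^ 2 ≤ c := by
    have h1 : Real.pi ^ 4 * e ^ 4 / 24 = (Real.pi ^ 2 * e ^ 2) * (Real.pi ^ 2 * e ^ 2) / 24 := by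
      ring
    have h2 : Real.pi ^ 2 * e ^ 2 ≤ 9.87 * (1 / 16) := by
      have : e ^ 2 ≤ 1 / 16 := by nlinarith
      exact mul_le_mul hq1.le this (sq_nonneg e) (by norm_num)
    have h3 : 0 ≤ Real.pi ^ 2 * e ^ 2 := by positivity
    have h4 : (Real.pi ^ 2 * e ^ 2) * (Real.pi ^ 2 * e ^ 2) ≤
        9.87 * (1 / 16) * (Real.pi ^ 2 * e ^ 2) := mul_le_mul_of_nonneg_right h2 h3
    have h5 : 9.869 * e ^ 2 ≤ Real.pi ^ 2 * e ^ 2 :=
      mul_le_mul_of_nonneg_right hq2.le (sq_nonneg e)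
    have h6 : Real.pi ^ 2 * e ^ 2 ≤ 9.87 * e ^ 2 :=
      mul_le_mul_of_nonneg_right hq1.le (sq_nonneg e)
    nlinarith [sq_nonneg e]
  have hval : cf (m - e) - (T m : ℝ) = ((2 * m + 1) / 4 - e / 2) * c - e / 2 := by
    have h1 := cf_even m h (-e)
    have h2 : Real.pi * -e = -(Real.pi * e) := by ring
    rw [h2, Real.cos_neg] at h1
    have h3 : (m : ℝ) - e = m + -e := by ring
    rw [h3, h1, hT, hc]; ring
  rcases le_or_gt (T m : ℝ) (cf (m - e)) with hcase | hcase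
  · left
    refine ⟨hcase, ?_⟩
    -- upper bound
    have h1 : ((2 * (m : ℝ) + 1) / 4 - e / 2) * c ≤ ((2 * (m : ℝ) + 1) / 4) * (4.935 * e ^ 2) := by
      have hc2 : c ≤ 4.935 * e ^ 2 := by nlinarith [sq_nonneg e]
      apply mul_le_mul _ hc2 hc0 (by positivity)
      linarith
    have h2 : cf (m - e) - (T m : ℝ) ≤ e * (1.23375 * (2 * m + 1) * e - 1 / 2) := by
      rw [hval]; linarith
    have h3 : 1.23375 * (2 * m + 1) * e - 1 / 2 ≤ 1 := by
      have : 1.23375 * (2 * m + 1) * e = 2.4675 * (m * e) + 1.23375 * e := by ring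
      linarith
    have h4 : cf (m - e) - (T m : ℝ) ≤ e * 1 :=
      h2.trans (mul_le_mul_of_nonneg_left h3 he.le)
    have h5 : e * 1 ≤ 4 / (5 * (2 * (T m : ℝ) + 1)) := by
      rw [le_div_iff₀ (by rw [hT]; positivity), hT]
      have h6 : e * 1 * (5 * (2 * ((m : ℝ) / 2) + 1)) = 5 * (m * e + e) := by ring
      rw [h6]
      linarith
    linarith
  · right
    refine ⟨hcase, ?_⟩
    have h1 : (2 * (m : ℝ) + 1) / 4 - e / 2 ≥ m / 2 := by linarith
    have h2 : (m : ℝ) / 2 * (4.67 * e ^ 2) ≤ ((2 * (m : ℝ) + 1) / 4 - e / 2) * c :=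
      mul_le_mul h1 hc4 (by positivity) (by linarith)
    have h3 : (T m : ℝ) - cf (m - e) ≤ e / 2 * (1 - 4.67 * (m * e)) := by
      have : (T m : ℝ) - cf (m - e) = e / 2 - ((2 * m + 1) / 4 - e / 2) * c := by linarith
      rw [this]
      have : e / 2 * (1 - 4.67 * (m * e)) = e / 2 - (m : ℝ) / 2 * (4.67 * e ^ 2) := by ring
      linarith
    have hD' : 3 * X ^ 2 - 4 / 3 * (T m : ℝ) ^ 2 = D + m ^ 2 := by rw [hT, hD]; ring
    rw [hD']
    have hDpos : 0 < D + (m : ℝ) ^ 2 := by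
      have : 0 < (m : ℝ) ^ 2 := by positivity
      linarith
    have hpos : 0 < (T m : ℝ) - cf (m - e) := by linarith
    have h4 : 0 < 1 - 4.67 * (m * e) := by
      by_contra hcon
      push Not at hcon
      have : e / 2 * (1 - 4.67 * (m * e)) ≤ 0 :=
        mul_nonpos_of_nonneg_of_nonpos (by positivity) hcon
      linarith
    have h5 : ((T m : ℝ) - cf (m - e)) * (D + m ^ 2) ≤
        e / 2 * (1 - 4.67 * (m * e)) * (D + m ^ 2) := mul_le_mul_of_nonneg_right h3 hDpos.le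
    have h6 : e * (D + (m : ℝ) ^ 2) ≤ m * (1 + m * e) := by
      have : e * (D + (m : ℝ) ^ 2) = e * D + m * (m * e) := by ring
      rw [this]; linarith
    have h7 : e / 2 * (1 - 4.67 * (m * e)) * (D + (m : ℝ) ^ 2) ≤
        1 / 2 * (1 - 4.67 * (m * e)) * (m * (1 + m * e)) := by
      have e1 : e / 2 * (1 - 4.67 * (m * e)) * (D + (m : ℝ) ^ 2) =
        1 / 2 * (1 - 4.67 * (m * e)) * (e * (D + (m : ℝ) ^ 2)) := by ring
      rw [e1]
      exact mul_le_mul_of_nonneg_left h6 (mul_nonneg (by norm_num) h4.le)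
    have h8 : 1 / 2 * (1 - 4.67 * (m * e)) * (m * (1 + m * e)) < m / 2 := by
      have hme0 : 0 < m * e := by positivity
      have e1 : 1 / 2 * (1 - 4.67 * (m * e)) * (m * (1 + m * e)) =
        m / 2 - m / 2 * (3.67 * (m * e) + 4.67 * (m * e) ^ 2) := by ring
      rw [e1]
      have : 0 < (m : ℝ) / 2 * (3.67 * (m * e) + 4.67 * (m * e) ^ 2) := by positivity
      linarith
    rw [hT] at h5 ⊢
    linarith

theorem stepJ {X : ℝ} (hX : 100 ≤ X) {m : ℕ} (hm : 0 < m) (hmX : (m : ℝ) ≤ X)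
    (hTX : (T m : ℝ) ≤ X) {x : ℝ} (h : InJ (3 * X ^ 2) m x) : InJ (3 * X ^ 2) (T m) (cf x) := by
  rcases h with h | ⟨h1, h2⟩
  · exact Or.inl (mapsTo_trap hm h)
  · have e : x = m - (m - x) := by ring
    rcases Nat.mod_two_eq_zero_or_one m with h | h
    · have := left5_even hm h hX hmX (e := m - x) (by linarith) h2
      rw [← e] at this
      exact this
    · have := left5_odd hm h hX hmX hTX (e := m - x) (by linarith) h2
      rw [← e] at this
      exact Or.inr this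

lemma startJ_aux {n : ℕ} (h : n % 2 = 0) {d : ℝ} (hd1 : -(1 / 2) ≤ d)
    (hd2 : d ≤ 1 / 2) (hpos : 0 < (n : ℝ) + d) (hc : dcf (n + d) = 0) :
    InJ (3 * (5 / 2 * (n : ℝ)) ^ 2) (T n) (cf (n + d)) := by
  rw [dcf_even n h d] at hc
  have hpi := Real.pi_pos
  have hcos0 : 0 ≤ Real.cos (Real.pi * d) := by
    apply Real.cos_nonneg_of_mem_Icc
    constructor <;> nlinarith
  have hcos1 := Real.cos_le_one (Real.pi * d)
  have hneg : d < 0 := by
    by_contra hcon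
    push Not at hcon
    have hs : 0 ≤ Real.sin (Real.pi * d) := by
      apply Real.sin_nonneg_of_nonneg_of_le_pi
      · nlinarith
      · nlinarith
    have h1 : 0 ≤ (2 * ((n : ℝ) + d) + 1) * Real.pi / 4 * Real.sin (Real.pi * d) := by
      apply mul_nonneg _ hs
      have : 0 < 2 * ((n : ℝ) + d) + 1 := by linarith
      positivity
    linarith
  have hn0 : 0 < n := by
    have : (0 : ℝ) < n := by linarith
    exact_mod_cast this
  have hn2 : (2 : ℝ) ≤ n := by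
    have : 2 ≤ n := by omega
    exact_mod_cast this
  set e : ℝ := -d with he
  have hde : d = -e := by rw [he]; ring
  have he0 : 0 < e := by rw [he]; linarith
  have he1 : e ≤ 1 / 2 := by rw [he]; linarith
  rw [hde, show Real.pi * -e = -(Real.pi * e) by ring, Real.cos_neg, Real.sin_neg] at hc
  rw [hde, show Real.pi * -e = -(Real.pi * e) by ring, Real.cos_neg] at hcos0 hcos1
  set M : ℝ := 2 * n + 1 with hM
  have hM5 : 5 ≤ M := by rw [hM]; linarith
  have hq2 : 9.869 < Real.pi ^ 2 := pi_sq_gt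
  have hq1 : Real.pi ^ 2 < 9.87 := pi_sq_lt
  have hpi3 := Real.pi_gt_d2
  have hc' : (M - 2 * e) * Real.pi / 4 * Real.sin (Real.pi * e) =
      1 - Real.cos (Real.pi * e) / 2 := by
    have : 2 * ((n : ℝ) + -e) + 1 = M - 2 * e := by rw [hM]; ring
    rw [this] at hc
    linarith
  -- first bound
  have hs1 := two_mul_le_sin he0.le he1
  have hb1 : (M - 1) * e ≤ 0.64 := by
    have h2 : (M - 1) * Real.pi / 4 * (2 * e) ≤
        (M - 2 * e) * Real.pi / 4 * Real.sin (Real.pi * e) := by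
      apply mul_le_mul _ hs1 (by positivity) _
      · have : M - 1 ≤ M - 2 * e := by linarith
        nlinarith
      · have : 0 < M - 2 * e := by linarith
        positivity
    have h3 : (M - 1) * Real.pi / 4 * (2 * e) = Real.pi / 2 * ((M - 1) * e) := by ring
    have h4 : 0 ≤ (M - 1) * e := by
      have : 0 ≤ M - 1 := by linarith
      positivity
    nlinarith
  have hb2 : e ≤ 0.16 := by nlinarith
  -- second bound
  have hs2 := sin_lb_cubic he0.le
  have hb3 : 0.957 * (Real.pi * e) ≤ Real.sin (Real.pi * e) := by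
    have h1 : Real.pi * (Real.pi ^ 2) * e ^ 3 / 6 = (Real.pi * e) * (Real.pi ^ 2 * e ^ 2 / 6) := by
      ring
    have h2 : Real.pi ^ 2 * e ^ 2 / 6 ≤ 0.043 := by
      have h3 : e ^ 2 ≤ 0.16 ^ 2 := pow_le_pow_left₀ he0.le hb2 2
      have h4 : Real.pi ^ 2 * e ^ 2 ≤ 9.87 * 0.16 ^ 2 := mul_le_mul hq1.le h3 (sq_nonneg e)
        (by norm_num)
      norm_num at h4
      linarith
    have h3 : (Real.pi * e) * (Real.pi ^ 2 * e ^ 2 / 6) ≤ (Real.pi * e) * 0.043 :=
      mul_le_mul_of_nonneg_left h2 (by positivity)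
    rw [h1] at hs2
    linarith
  have hcub : 1 - Real.cos (Real.pi * e) ≤ 4.935 * e ^ 2 := by
    have := one_sub_cos_le e
    nlinarith [sq_nonneg e]
  have hb4 : e ≤ 0.052 := by
    have h2 : (M - 0.32) * Real.pi / 4 * (0.957 * (Real.pi * e)) ≤
        (M - 2 * e) * Real.pi / 4 * Real.sin (Real.pi * e) := by
      apply mul_le_mul _ hb3 (by positivity) _
      · have : M - 0.32 ≤ M - 2 * e := by linarith
        nlinarith
      · have : 0 < M - 2 * e := by linarith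
        positivity
    have h3 : (M - 0.32) * Real.pi / 4 * (0.957 * (Real.pi * e)) =
        Real.pi ^ 2 * 0.23925 * ((M - 0.32) * e) := by ring
    have h4 : 1 - Real.cos (Real.pi * e) / 2 ≤ 1 / 2 + 4.935 / 2 * e ^ 2 := by linarith
    have h5 : e ^ 2 ≤ 0.16 * e := by nlinarith
    have h6 : 4.68 * e ≤ (M - 0.32) * e := by nlinarith
    have h7 : 0 ≤ (M - 0.32) * e := by nlinarith
    have h8 : 9.869 * 0.23925 * (4.68 * e) ≤ Real.pi ^ 2 * 0.23925 * ((M - 0.32) * e) := by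
      apply mul_le_mul _ h6 (by positivity) (by positivity)
      linarith
    rw [h3, hc'] at h2
    norm_num at h8
    nlinarith
  -- the value
  set c : ℝ := 1 - Real.cos (Real.pi * e) with hcdef
  have hc0 : 0 ≤ c := one_sub_cos_nonneg _
  have hc4 : 4.92 * e ^ 2 ≤ c := by
    have h0 := le_one_sub_cos e
    have h1 : Real.pi ^ 4 * e ^ 4 / 24 = (Real.pi ^ 2 * e ^ 2) * (Real.pi ^ 2 * e ^ 2) / 24 := by
      ring
    have h2 : Real.pi ^ 2 * e ^ 2 ≤ 9.87 * 0.002704 := by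
      have : e ^ 2 ≤ 0.002704 := by nlinarith
      exact mul_le_mul hq1.le this (sq_nonneg e) (by norm_num)
    have h3 : 0 ≤ Real.pi ^ 2 * e ^ 2 := by positivity
    have h4 : (Real.pi ^ 2 * e ^ 2) * (Real.pi ^ 2 * e ^ 2) ≤
        9.87 * 0.002704 * (Real.pi ^ 2 * e ^ 2) := mul_le_mul_of_nonneg_right h2 h3
    have h5 : 9.869 * e ^ 2 ≤ Real.pi ^ 2 * e ^ 2 :=
      mul_le_mul_of_nonneg_right hq2.le (sq_nonneg e)
    have h6 : Real.pi ^ 2 * e ^ 2 ≤ 9.87 * e ^ 2 :=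
      mul_le_mul_of_nonneg_right hq1.le (sq_nonneg e)
    norm_num at h4
    nlinarith [sq_nonneg e]
  have hT : (T n : ℝ) = n / 2 := T_even h
  have hval : cf (n + d) = n / 2 - (e / 2 - (M / 4 - e / 2) * c) := by
    have h1 := cf_even n h (-e)
    have h2 : Real.pi * -e = -(Real.pi * e) := by ring
    rw [h2, Real.cos_neg] at h1
    rw [hde, h1, hcdef, hM]; ring
  -- the image lies (weakly) to the left of `n/2`, at distance at most `0.0522 / M`
  have hup : e / 2 - (M / 4 - e / 2) * c ≤ 0.0522 / M := by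
    have h1 : M / 4 - e / 2 ≥ 0.2448 * M := by linarith
    have h2 : 0.2448 * M * (4.92 * e ^ 2) ≤ (M / 4 - e / 2) * c :=
      mul_le_mul h1 hc4 (by positivity) (by linarith)
    have h3 : e / 2 - 0.2448 * M * (4.92 * e ^ 2) ≤ 0.0522 / M := by
      rw [le_div_iff₀ (by positivity)]
      have h4 : (e / 2 - 0.2448 * M * (4.92 * e ^ 2)) * M =
        1 / 2 * (M * e) - 1.204416 * (M * e) ^ 2 := by ring
      rw [h4]
      nlinarith [sq_nonneg (M * e - 0.2075)]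
    linarith
  unfold InJ
  rcases lt_or_ge (cf (n + d)) (T n) with hlt | hge
  · right
    refine ⟨hlt, ?_⟩
    rw [hT, hval]
    have h1 : (n : ℝ) / 2 - (n / 2 - (e / 2 - (M / 4 - e / 2) * c)) =
      e / 2 - (M / 4 - e / 2) * c := by ring
    rw [h1]
    have h2 : 3 * (5 / 2 * (n : ℝ)) ^ 2 - 4 / 3 * ((n : ℝ) / 2) ^ 2 =
      (18.75 - 1 / 3) * (n : ℝ) ^ 2 := by ring
    rw [h2]
    have h3 : 0 ≤ (18.75 - 1 / 3) * (n : ℝ) ^ 2 := by positivity
    have h4 := mul_le_mul_of_nonneg_right hup h3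
    have h5 : 0.0522 / M * ((18.75 - 1 / 3) * (n : ℝ) ^ 2) ≤ n / 2 := by
      rw [div_mul_eq_mul_div, div_le_iff₀ (by positivity), hM]
      nlinarith
    linarith
  · left
    refine ⟨hge, ?_⟩
    -- the critical value is at most `n/2 + ...`; in fact it is a small number
    rw [hval, hT]
    have h1 : (M / 4 - e / 2) * c ≤ (M / 4) * (4.935 * e ^ 2) := by
      apply mul_le_mul _ hcub hc0 (by positivity)
      linarith
    have h2 : (M / 4) * (4.935 * e ^ 2) ≤ 4 / (5 * (2 * ((n : ℝ) / 2) + 1)) := by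
      rw [le_div_iff₀ (by positivity)]
      have h3 : (M - 1) * e ≤ 0.64 := hb1
      have h4 : (n : ℝ) = (M - 1) / 2 := by rw [hM]; ring
      have h5 : 0 ≤ (M - 1) * e := by nlinarith
      have h6 : M * e ≤ 0.692 := by linarith
      have h7 : 2 * ((n : ℝ) / 2) + 1 ≤ 0.6 * M := by rw [h4]; linarith
      have h8 : M / 4 * (4.935 * e ^ 2) * (5 * (2 * ((n : ℝ) / 2) + 1)) ≤
          M / 4 * (4.935 * e ^ 2) * (5 * (0.6 * M)) :=
        mul_le_mul_of_nonneg_left (by linarith) (by positivity)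
      have h9 : M / 4 * (4.935 * e ^ 2) * (5 * (0.6 * M)) = 3.70125 * (M * e) ^ 2 := by ring
      have h10 : (M * e) ^ 2 ≤ 0.692 ^ 2 := pow_le_pow_left₀ (by positivity) h6 2
      norm_num at h10
      linarith
    linarith

theorem startJ {m : ℕ} (hm : 100 ≤ m) (he : m % 2 = 0) {c : ℝ} (hc : IsCrit m c) :
    InJ (3 * (5 / 2 * (m : ℝ)) ^ 2) (T m) (cf c) := by
  obtain ⟨h1, h2⟩ := hc
  have hm1 : (100 : ℝ) ≤ m := by exact_mod_cast hm
  have h3 := abs_le.mp h1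
  have e : c = m + (c - m) := by ring
  have := startJ_aux he (d := c - m) h3.1 h3.2 (by linarith) (by rw [← e]; exact h2)
  rw [← e] at this
  exact this

/-- the critical point left of an even `m` follows the `T`-orbit of `m` as long as this stays `≤ 5/2 m` -/
theorem left_shadow {m : ℕ} (hm : 100 ≤ m) (he : m % 2 = 0) {c : ℝ} (hc : IsCrit m c) {k : ℕ}
    (h : ∀ i ≤ k, ((T^[i] m : ℕ) : ℝ) ≤ 5 / 2 * m) (hk : 1 ≤ k) :
    InJ (3 * (5 / 2 * (m : ℝ)) ^ 2) (T^[k] m) (cf^[k] c) := by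
  have hm1 : (100 : ℝ) ≤ m := by exact_mod_cast hm
  induction k with
  | zero => omega
  | succ k ih =>
    rcases Nat.eq_zero_or_pos k with rfl | hk0
    · simpa using startJ hm he hc
    · have h1 := ih (fun i hi => h i (by omega)) hk0
      rw [Function.iterate_succ_apply', Function.iterate_succ_apply']
      apply stepJ (by linarith) (T_iter_pos (by omega) k) (h k (by omega)) _ h1
      have := h (k + 1) le_rfl
      rwa [Function.iterate_succ_apply'] at this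

end Pool.Agent.Lib.MP_a247fa_nt.Crit
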