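import Pool.Agent.Lib.MP_a247fa_nt.Crit.NearOne
import Pool.Agent.Lib.MP_a247fa_nt.IntSmall

/-! TRAP100 (60 min). Points in the trap of an even `a` with `100 ≤ a ≤ 198` whose later `T`-iterates are `< 100`
are attracted by `{1, 2}` (24 values of `a`).

Upper bounds for the distance `d = x - n ≥ 0` in the trap of `n`, if `0 ≤ d ≤ b`:
even `n`: `cf (n + d) - n/2 = d/2 + (2n+1+2d)/4 (1 - cos πd) ≤ b/2 + (2n+1+2b)/4 * 4.935 b²` (`cf_even`, `one_sub_cos_le`, `pi_sq_lt`);
odd `n`, `b ≤ 0.09`: `cf (n + d) - (3n+1)/2 = 3/2 d - (2n+1+2d)/4 (1 - cos πd) ≤ 3/2 d - 1.225 (2n+1) d²` (`cf_odd`, `le_one_sub_cos`: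
`1 - cos πd ≥ π²d²/2 - π⁴d⁴/24 ≥ 4.9 d²`), which is `≤ 3/2 b - 1.225 (2n+1) b²` if `(2n+1) b ≤ 0.6122` (increasing there), and always
`≤ 0.4593/(2n+1)`. Numerics (helper29, python, exactly these bounds): starting from `b = 4/(5 (2a+1))` all 24 values of `a`
(100 104 106 112 114 116 120 122 128 130 132 136 140 144 148 152 160 168 172 176 180 184 192 196) arrive at `n = 1` with
`b ≤ 0.01301 < 0.02`, and `b ≤ 0.09` at all odd `n > 1`. Then `toOne_right`, `toOne_iter`. Implementation: a step function on pairs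
`(n, b)`, `b` a natural number in units of `10⁻⁶` rounded up, a correctness lemma, and `decide` over the 24 values (or over
`Finset.Icc 100 198` with the hypothesis on the later iterates; an orbit below 100 reaches 1: `reach_one` in IntSmall). -/

set_option autoImplicit false

namespace Pool.Agent.Lib.MP_a247fa_nt.Crit

open Pool.Agent.Lib.MP_a247fa_nt

/-- one step of the bound, units `10⁻⁶` -/
def stepB (n b : ℕ) : ℕ :=
  if n % 2 = 0 then (2000000000000000 * b + 4935000000 * (2 * n + 1) * b ^ 2 + 9870 * b ^ 3) / 4000000000000000 + 1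
  else if (2 * n + 1) * b ≤ 612200 then (1500000000 * b - 1225 * (2 * n + 1) * b ^ 2) / 1000000000 + 1
  else 459300 / (2 * n + 1) + 1

/-- the check with fuel -/
def chk : ℕ → ℕ → ℕ → Bool
  | 0, n, b => (n == 1) && (b ≤ 20000 : Bool)
  | k + 1, n, b => ((n == 1) && (b ≤ 20000 : Bool)) ||
      (((n % 2 == 0) || (b ≤ 90000 : Bool)) && chk k (T n) (stepB n b))

theorem chk_all : ∀ a ∈ Finset.Icc 100 198, a % 2 = 0 → (∀ k ∈ Finset.range 60, T^[k + 1] a < 100) →
    chk 30 a (800000 / (2 * a + 1) + 1) = true := by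
  decide +kernel

theorem div_le_floor_add_one (p q : ℕ) (hq : 0 < q) : (p : ℝ) / q ≤ ((p / q + 1 : ℕ) : ℝ) := by
  have hq' : (0 : ℝ) < q := by exact_mod_cast hq
  rw [div_le_iff₀ hq']
  have h := Nat.lt_div_mul_add (a := p) hq
  have h2 : p ≤ (p / q + 1) * q := by
    have e : (p / q + 1) * q = p / q * q + q := by ring
    rw [e]; exact h.le
  exact_mod_cast h2

/-- the step lemma -/
theorem step_ok {n b : ℕ} (hn : 0 < n) (hb : n % 2 = 0 ∨ b ≤ 90000) {x : ℝ} (hx : x ∈ trapI n)
    (hxb : x - n ≤ b / 1000000) : cf x - T n ≤ (stepB n b : ℝ) / 1000000 := by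
  obtain ⟨hx1, hx2⟩ := hx
  set d : ℝ := x - n with hd
  have hxd : x = n + d := by rw [hd]; ring
  have hd0 : 0 ≤ d := by rw [hd]; linarith
  set B : ℝ := (b : ℝ) / 1000000 with hB
  have hB0 : 0 ≤ B := by positivity
  have hbB : (b : ℝ) = 1000000 * B := by rw [hB]; ring
  have hn1 : (1 : ℝ) ≤ n := by exact_mod_cast hn
  set c : ℝ := 1 - Real.cos (Real.pi * d) with hc
  have hc0 : 0 ≤ c := one_sub_cos_nonneg _
  rcases Nat.mod_two_eq_zero_or_one n with h | h
  · -- even
    have hval : cf x - T n = d / 2 + (2 * n + 1 + 2 * d) / 4 * c := by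
      rw [hxd, cf_even n h d, T_even h, hc]; ring
    have hc1 : c ≤ 4.935 * B ^ 2 := by
      have h1 := one_sub_cos_le d
      have h2 := pi_sq_lt
      have h3 : d ^ 2 ≤ B ^ 2 := pow_le_pow_left₀ hd0 hxb 2
      have h4 : Real.pi ^ 2 * d ^ 2 ≤ 9.87 * d ^ 2 :=
        mul_le_mul_of_nonneg_right h2.le (sq_nonneg d)
      rw [hc]
      linarith
    have h5 : (2 * (n : ℝ) + 1 + 2 * d) / 4 * c ≤ (2 * n + 1 + 2 * B) / 4 * (4.935 * B ^ 2) := by
      apply mul_le_mul _ hc1 hc0 (by positivity)
      linarith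
    have hs : stepB n b = (2000000000000000 * b + 4935000000 * (2 * n + 1) * b ^ 2 + 9870 * b ^ 3)
        / 4000000000000000 + 1 := by simp only [stepB, h, if_true]
    have h6 := div_le_floor_add_one
      (2000000000000000 * b + 4935000000 * (2 * n + 1) * b ^ 2 + 9870 * b ^ 3) 4000000000000000
      (by norm_num)
    rw [← hs] at h6
    push_cast at h6
    rw [hbB] at h6
    rw [hval, le_div_iff₀ (by norm_num)]
    refine le_trans ?_ h6
    have e : (2000000000000000 * (1000000 * B) + 4935000000 * (2 * (n : ℝ) + 1) * (1000000 * B) ^ 2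
        + 9870 * (1000000 * B) ^ 3) / 4000000000000000
        = (B / 2 + (2 * n + 1 + 2 * B) / 4 * (4.935 * B ^ 2)) * 1000000 := by ring
    rw [e]
    nlinarith
  · -- odd
    have hb9 : b ≤ 90000 := by
      rcases hb with hb | hb
      · omega
      · exact hb
    have hB9 : B ≤ 0.09 := by
      have : (b : ℝ) ≤ 90000 := by exact_mod_cast hb9
      rw [hB]; rw [div_le_iff₀ (by norm_num)]; linarith
    have hd9 : d ≤ 0.09 := hxb.trans hB9
    have hval : cf x - T n = 3 / 2 * d - (2 * n + 1 + 2 * d) / 4 * c := by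
      rw [hxd, cf_odd n h d, T_odd h, hc]; ring
    have hc2 : 4.9 * d ^ 2 ≤ c := by
      have h1 := le_one_sub_cos d
      have h2 := pi_sq_lt
      have h3 := pi_sq_gt
      have h4 : d ^ 2 ≤ 0.0081 := by nlinarith
      have h5 : Real.pi ^ 4 ≤ 97.4169 := by
        have e : Real.pi ^ 4 = Real.pi ^ 2 * Real.pi ^ 2 := by ring
        rw [e]
        have : 0 ≤ Real.pi ^ 2 := sq_nonneg _
        nlinarith
      have h6 : Real.pi ^ 4 * d ^ 4 ≤ 97.4169 * (0.0081 * d ^ 2) := by
        have e : d ^ 4 = d ^ 2 * d ^ 2 := by ring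
        have h7 : d ^ 4 ≤ 0.0081 * d ^ 2 := by
          rw [e]; exact mul_le_mul_of_nonneg_right h4 (sq_nonneg d)
        apply mul_le_mul h5 h7 (by positivity) (by norm_num)
      have h8 : 9.869 * d ^ 2 ≤ Real.pi ^ 2 * d ^ 2 :=
        mul_le_mul_of_nonneg_right h3.le (sq_nonneg d)
      have h9 : 0 ≤ d ^ 2 := sq_nonneg d
      rw [hc]
      norm_num at *
      linarith
    set M : ℝ := 2 * n + 1 with hM
    have hM3 : 3 ≤ M := by rw [hM]; linarith
    have h10 : M / 4 * (4.9 * d ^ 2) ≤ (M + 2 * d) / 4 * c := by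
      apply mul_le_mul _ hc2 (by positivity) (by positivity)
      linarith
    have h11 : cf x - T n ≤ 3 / 2 * d - 1.225 * M * d ^ 2 := by
      rw [hval]
      norm_num at *
      linarith
    by_cases hcase : (2 * n + 1) * b ≤ 612200
    · have hs : stepB n b = (1500000000 * b - 1225 * (2 * n + 1) * b ^ 2) / 1000000000 + 1 := by
        simp [stepB, h, hcase]
      have h6 := div_le_floor_add_one (1500000000 * b - 1225 * (2 * n + 1) * b ^ 2) 1000000000
        (by norm_num)
      rw [← hs] at h6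
      have hle : 1225 * (2 * n + 1) * b ^ 2 ≤ 1500000000 * b := by
        have : (2 * n + 1) * b * b ≤ 612200 * b := Nat.mul_le_mul_right b hcase
        nlinarith
      rw [Nat.cast_sub hle] at h6
      push_cast at h6
      rw [hbB, ← hM] at h6
      have hMB : M * B ≤ 0.6122 := by
        have : ((2 * n + 1) * b : ℝ) ≤ 612200 := by exact_mod_cast hcase
        rw [hbB, ← hM] at this
        norm_num at *
        linarith
      rw [le_div_iff₀ (by norm_num)]
      refine le_trans ?_ h6
      have e : (1500000000 * (1000000 * B) - 1225 * M * (1000000 * B) ^ 2) / 1000000000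
          = (3 / 2 * B - 1.225 * M * B ^ 2) * 1000000 := by ring
      rw [e]
      have h12 : 3 / 2 * d - 1.225 * M * d ^ 2 ≤ 3 / 2 * B - 1.225 * M * B ^ 2 := by
        have h13 : 0 ≤ (B - d) * (3 / 2 - 1.225 * (M * (B + d))) := by
          apply mul_nonneg (by linarith)
          have : M * (B + d) ≤ 1.2244 := by
            have : M * d ≤ M * B := mul_le_mul_of_nonneg_left hxb (by linarith)
            norm_num at *
            linarith
          norm_num at *
          linarith
        nlinarith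
      nlinarith
    · have hs : stepB n b = 459300 / (2 * n + 1) + 1 := by
        simp [stepB, h, hcase]
      have h6 := div_le_floor_add_one 459300 (2 * n + 1) (by omega)
      rw [← hs] at h6
      push_cast at h6
      rw [← hM] at h6
      rw [le_div_iff₀ (by norm_num)]
      refine le_trans ?_ h6
      rw [le_div_iff₀ (by linarith)]
      have h12 : (3 / 2 * d - 1.225 * M * d ^ 2) * M ≤ 0.4593 := by
        have : 0 ≤ (M * d - 0.6122) ^ 2 := sq_nonneg _
        norm_num at *
        nlinarith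
      have h13 : (cf x - T n) * M ≤ (3 / 2 * d - 1.225 * M * d ^ 2) * M :=
        mul_le_mul_of_nonneg_right h11 (by linarith)
      norm_num at *
      nlinarith

theorem T_pos' {n : ℕ} (hn : 0 < n) : 0 < T n := by
  unfold T
  split_ifs <;> omega

theorem chk_ok : ∀ (k n b : ℕ), chk k n b = true → 0 < n → ∀ x : ℝ, x ∈ trapI n →
    x - n ≤ b / 1000000 → ToOne x := by
  have key : ∀ (n b : ℕ), ((n == 1) && (b ≤ 20000 : Bool)) = true → ∀ x : ℝ, x ∈ trapI n →
      x - n ≤ b / 1000000 → ToOne x := by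
    intro n b h x hx hxb
    simp only [Bool.and_eq_true, beq_iff_eq, decide_eq_true_eq] at h
    obtain ⟨h1, h2⟩ := h
    subst h1
    have h3 : (b : ℝ) ≤ 20000 := by exact_mod_cast h2
    refine toOne_right ?_ ?_
    · have := hx.1; simpa using this
    · have h4 : (b : ℝ) / 1000000 ≤ 0.02 := by
        rw [div_le_iff₀ (by norm_num)]; linarith
      push_cast at hxb
      linarith
  intro k
  induction k with
  | zero =>
    intro n b h hn x hx hxb
    exact key n b h x hx hxb
  | succ k ih =>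
    intro n b h hn x hx hxb
    rw [chk, Bool.or_eq_true] at h
    rcases h with h | h
    · exact key n b h x hx hxb
    · rw [Bool.and_eq_true, Bool.or_eq_true] at h
      obtain ⟨h1, h2⟩ := h
      have h1' : n % 2 = 0 ∨ b ≤ 90000 := by simpa using h1
      have h3 : ToOne (cf^[1] x) := by
        rw [Function.iterate_one]
        exact ih (T n) (stepB n b) h2 (T_pos' hn) (cf x) (mapsTo_trap hn hx)
          (step_ok hn h1' hx hxb)
      exact toOne_iter h3

theorem trap_hundred {a : ℕ} (h1 : 100 ≤ a) (h2 : a ≤ 198) (h3 : a % 2 = 0)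
    (h4 : ∀ k : ℕ, 1 ≤ k → T^[k] a < 100) {x : ℝ} (hx : x ∈ trapI a) : ToOne x := by
  have h5 := chk_all a (Finset.mem_Icc.mpr ⟨h1, h2⟩) h3 (fun k _ => h4 (k + 1) (by omega))
  refine chk_ok _ _ _ h5 (by omega) x hx ?_
  have h6 := div_le_floor_add_one 800000 (2 * a + 1) (by omega)
  push_cast at h6
  have h7 := hx.2
  rw [le_div_iff₀ (by norm_num)]
  push_cast
  refine le_trans ?_ h6
  have hpos : (0 : ℝ) < 2 * a + 1 := by positivity
  have e : (800000 : ℝ) / (2 * a + 1) = 4 / (5 * (2 * a + 1)) * 1000000 := by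
    field_simp; norm_num
  rw [e]
  nlinarith

/-- the last time above `100` -/
theorem last_hundred {m : ℕ} (hm : 100 ≤ m) {k : ℕ} (h : T^[k] m = 1) :
    ∃ j : ℕ, j ≤ k ∧ 100 ≤ T^[j] m ∧ T^[j] m ≤ 198 ∧ T^[j] m % 2 = 0 ∧
      ∀ i : ℕ, j < i → T^[i] m < 100 := by
  classical
  set j := Nat.findGreatest (fun j => 100 ≤ T^[j] m) k with hj
  have hj1 : 100 ≤ T^[j] m := by
    have : (fun j => 100 ≤ T^[j] m) (Nat.findGreatest (fun j => 100 ≤ T^[j] m) k) :=
      Nat.findGreatest_spec (P := fun j => 100 ≤ T^[j] m) (Nat.zero_le k) (by simpa using hm)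
    exact this
  have hjk : j ≤ k := Nat.findGreatest_le k
  have hlater : ∀ i : ℕ, j < i → T^[i] m < 100 := by
    intro i hi
    rcases le_or_gt i k with hik | hik
    · have := Nat.findGreatest_is_greatest (P := fun j => 100 ≤ T^[j] m) hi hik
      simpa using this
    · obtain ⟨t, rfl⟩ : ∃ t, i = t + k := ⟨i - k, by omega⟩
      rw [Function.iterate_add_apply, h]
      rcases orbit_one t with h1 | h1 <;> omega
  have hnext := hlater (j + 1) (Nat.lt_succ_self j)
  rw [Function.iterate_succ_apply'] at hnext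
  have hpar : T^[j] m % 2 = 0 := by
    by_contra hodd
    have : T (T^[j] m) = (3 * T^[j] m + 1) / 2 := by simp [T, hodd]
    omega
  have hT : T (T^[j] m) = T^[j] m / 2 := by simp [T, hpar]
  exact ⟨j, hjk, hj1, by omega, hpar, hlater⟩

end Pool.Agent.Lib.MP_a247fa_nt.Crit
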