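import Pool.Agent.Lib.MP_a247fa_nt.Crit.ClimbEven
import Pool.Agent.Lib.MP_a247fa_nt.Crit.Stay
import Pool.Agent.Lib.MP_a247fa_nt.Crit.CritUnique
import Pool.Agent.Lib.MP_a247fa_nt.Crit.Left5
import Pool.Agent.Lib.MP_a247fa_nt.Crit.Trap100

/-! FINAL (60 min, helper29). Assembly. -/

set_option autoImplicit false

namespace Pool.Agent.Lib.MP_a247fa_nt.Crit

open Finset Pool.Agent.Lib.MP_e43fce_nt_nat
open Pool.Agent.Lib.MP_a247fa_nt (T cf dcf trapI critical_odd critical_even iter_mem_trap)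

lemma isCrit_odd_trap {m : ℕ} (ho : m % 2 = 1) {c : ℝ} (hc : IsCrit m c) : c ∈ trapI m := by
  obtain ⟨h1, h2⟩ := hc
  have h3 := abs_le.mp h1
  have h4 := critical_odd (n := m) ho (d := c - m) (by linarith [h3.1]) (by linarith [h3.2])
    (by rw [add_sub_cancel]; exact h2)
  have h5 := h4.2
  rwa [add_sub_cancel] at h5

lemma T_one_of_two {n : ℕ} (h : n = 2) : T n = 1 := by subst h; rfl

lemma trap_upper {a : ℕ} {x : ℝ} (hx : x ∈ trapI a) (ha : 0 < a) : x ≤ a + 4 / 15 := by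
  have h1 := hx.2
  have h2 : (1 : ℝ) ≤ a := by exact_mod_cast ha
  have h3 : 4 / (5 * (2 * (a : ℝ) + 1)) ≤ 4 / 15 := by
    apply div_le_div_of_nonneg_left (by norm_num) (by norm_num)
    linarith
  linarith

lemma toOne_of_last {m : ℕ} (hm : 100 ≤ m) {k : ℕ} (h : T^[k] m = 1) {c : ℝ}
    (hc : ∀ j : ℕ, 100 ≤ T^[j] m → T^[j] m ≤ 198 → cf^[j] c ∈ trapI (T^[j] m)) : ToOne c := by
  obtain ⟨j, hjk, h1, h2, h3, h4⟩ := last_hundred hm h
  have h5 : ToOne (cf^[j] c) := by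
    refine trap_hundred h1 h2 h3 ?_ (hc j h1 h2)
    intro i hi
    rw [← Function.iterate_add_apply]
    exact h4 (i + j) (by omega)
  exact toOne_iter h5

/-- odd `m`: shadowing for ever and the dichotomy -/
theorem odd_orbit {m : ℕ} (hm : 100 ≤ m) (ho : m % 2 = 1) {c : ℝ} (hc : IsCrit m c) :
    (∀ k : ℕ, ((T^[k] m : ℕ) : ℝ) ≤ cf^[k] c ∧
      cf^[k] c ≤ ((T^[k] m : ℕ) : ℝ) + 4 / (5 * (2 * ((T^[k] m : ℕ) : ℝ) + 1))) ∧
    (ToOne c ↔ ∃ k : ℕ, T^[k] m = 1) ∧ (ToOne c ∨ ∀ k : ℕ, 3 ≤ cf^[k] c) := by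
  have hm0 : 0 < m := by omega
  have htr := isCrit_odd_trap ho hc
  have hall : ∀ k : ℕ, cf^[k] c ∈ trapI (T^[k] m) := fun k => (iter_mem_trap hm0 htr k).2
  have hpos : ∀ k : ℕ, 0 < T^[k] m := fun k => (iter_mem_trap hm0 htr k).1
  have hiff : ToOne c ↔ ∃ k : ℕ, T^[k] m = 1 := by
    constructor
    · exact fun h => reach_of_toOne hm0 htr h
    · rintro ⟨k, hk⟩
      exact toOne_of_last hm hk (fun j _ _ => hall j)
  refine ⟨fun k => ⟨(hall k).1, (hall k).2⟩, hiff, ?_⟩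
  by_cases hT : ∃ k : ℕ, T^[k] m = 1
  · exact Or.inl (hiff.mpr hT)
  · right
    intro k
    have h1 : T^[k] m ≠ 1 := fun h => hT ⟨k, h⟩
    have h2 : T^[k] m ≠ 2 := by
      intro h
      apply hT
      refine ⟨k + 1, ?_⟩
      rw [Function.iterate_succ_apply', h]
      rfl
    have h3 : 3 ≤ T^[k] m := by
      have := hpos k
      omega
    have h4 : (3 : ℝ) ≤ ((T^[k] m : ℕ) : ℝ) := by exact_mod_cast h3
    exact h4.trans (hall k).1

lemma cnt_almost {S S' : Set ℕ} {B : ℕ} (h : ∀ n : ℕ, B ≤ n → n ∈ S → n ∈ S') (X : ℕ) :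
    cnt S X ≤ cnt S' X + B := by
  have h1 : cnt S X ≤ cnt (S' ∪ Set.Icc 1 B) X := by
    apply cnt_mono
    intro n hn _ hS
    by_cases hB : B ≤ n
    · exact Or.inl (h n hB hS)
    · exact Or.inr ⟨hn, by omega⟩
  have h2 := cnt_union_le S' (Set.Icc 1 B) X
  have h3 : cnt (Set.Icc 1 B) X ≤ B := by
    unfold cnt
    have h4 : (Set.Icc 1 B ∩ Set.Icc 1 X).ncard ≤ (Set.Icc 1 B).ncard :=
      Set.ncard_le_ncard Set.inter_subset_left (Set.finite_Icc 1 B)
    have h5 : (Set.Icc 1 B).ncard = B := by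
      rw [← Finset.coe_Icc, Set.ncard_coe_finset]
      simp
    rw [h5] at h4
    exact_mod_cast h4
  linarith

lemma hasDens_congr {S S' : Set ℕ} {B : ℕ} (h : ∀ n : ℕ, B ≤ n → (n ∈ S ↔ n ∈ S')) {δ : ℝ}
    (hS : HasDens S δ) : HasDens S' δ := by
  unfold HasDens at *
  have h0 : Filter.Tendsto (fun X : ℕ => (B : ℝ) / X) Filter.atTop (nhds 0) :=
    tendsto_const_div_atTop_nhds_zero_nat (B : ℝ)
  have h1 : Filter.Tendsto (fun X : ℕ => cnt S X / X - (B : ℝ) / X) Filter.atTop (nhds δ) := by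
    have := hS.sub h0
    simpa using this
  have h2 : Filter.Tendsto (fun X : ℕ => cnt S X / X + (B : ℝ) / X) Filter.atTop (nhds δ) := by
    have := hS.add h0
    simpa using this
  refine tendsto_of_tendsto_of_tendsto_of_le_of_le h1 h2 ?_ ?_
  · intro X
    have h3 := cnt_almost (S := S) (S' := S') (fun n hn => (h n hn).mp) X
    show cnt S X / X - (B : ℝ) / X ≤ cnt S' X / X
    rw [← sub_div]
    exact div_le_div_of_nonneg_right (by linarith) (Nat.cast_nonneg X)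
  · intro X
    have h3 := cnt_almost (S := S') (S' := S) (fun n hn => (h n hn).mpr) X
    show cnt S' X / X ≤ cnt S X / X + (B : ℝ) / X
    rw [← add_div]
    exact div_le_div_of_nonneg_right (by linarith) (Nat.cast_nonneg X)

theorem odd_density : ∃ δ : ℝ, 0 < δ ∧
    HasDens {m : ℕ | m % 2 = 1 ∧ ∃ c : ℝ, IsCrit m c ∧ ToOne c} δ := by
  obtain ⟨δ, hδ, hd⟩ := dens_odd
  refine ⟨δ, hδ, hasDens_congr (B := 100) ?_ hd⟩
  intro m hm
  constructor
  · rintro ⟨h1, h2⟩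
    obtain ⟨c, hc, -⟩ := crit_unique m (by omega)
    exact ⟨h1, c, hc, (odd_orbit hm h1 hc).2.1.mpr h2⟩
  · rintro ⟨h1, c, hc, h2⟩
    exact ⟨h1, (odd_orbit hm h1 hc).2.1.mp h2⟩

theorem odd_below : ∃ C : ℝ, 0 < C ∧ ∀ N : ℕ, 2 ≤ N → ∃ X0 : ℕ, ∀ X : ℕ, X0 ≤ X →
    cnt {m : ℕ | m % 2 = 1 ∧ ∃ c : ℝ, IsCrit m c ∧ ∀ k : ℕ, N + 1 ≤ cf^[k] c} X
      ≤ C * (Real.log N) ^ (-(1 / 4) : ℝ) * X := by
  obtain ⟨C, hC, h⟩ := stay_above
  refine ⟨C, hC, fun N hN => ⟨1, fun X hX => ?_⟩⟩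
  refine le_trans (cnt_mono ?_) (h N X hN hX)
  rintro m hm _ ⟨h1, c, hc, h2⟩ k
  have htr := iter_mem_trap hm (isCrit_odd_trap h1 hc) k
  have h3 := trap_upper htr.2 htr.1
  have h4 := h2 k
  have h5 : (N : ℝ) < ((T^[k] m : ℕ) : ℝ) := by linarith
  exact_mod_cast h5

/-- along the orbit of an even `m > N` the first time `≤ N`: either the orbit climbs above `5/2 m` before
or the critical orbit is at most `N + 4/15` -/
lemma even_case {m N : ℕ} (hm : 100 ≤ m) (he : m % 2 = 0) (hmN : N < m) {c : ℝ} (hc : IsCrit m c)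
    (h : ∀ k : ℕ, (N : ℝ) + 1 ≤ cf^[k] c) :
    (∀ k : ℕ, N < T^[k] m) ∨
      (∃ k : ℕ, (5 / 2 : ℝ) * (m : ℝ) < ((T^[k] m : ℕ) : ℝ) ∧ ∀ i ≤ k, N < T^[i] m) := by
  classical
  by_contra hcon
  push Not at hcon
  obtain ⟨⟨k0, hk0⟩, h2⟩ := hcon
  have hex : ∃ k : ℕ, T^[k] m ≤ N := ⟨k0, hk0⟩
  set k1 := Nat.find hex with hk1
  have h3 : T^[k1] m ≤ N := Nat.find_spec hex
  have h4 : ∀ i : ℕ, i < k1 → N < T^[i] m := by
    intro i hi
    have := Nat.find_min hex hi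
    omega
  have h5 : 1 ≤ k1 := by
    by_contra h6
    have h7 : k1 = 0 := by omega
    rw [h7] at h3
    simp only [Function.iterate_zero, id_eq] at h3
    omega
  have h6 : ∀ i ≤ k1, ((T^[i] m : ℕ) : ℝ) ≤ 5 / 2 * m := by
    intro i hi
    rcases Nat.lt_or_ge i k1 with h7 | h7
    · by_contra h8
      push Not at h8
      obtain ⟨i', hi', h9⟩ := h2 i h8
      have := h4 i' (by omega)
      omega
    · have h8 : i = k1 := by omega
      rw [h8]
      have h9 : ((T^[k1] m : ℕ) : ℝ) ≤ N := by exact_mod_cast h3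
      have h10 : (N : ℝ) ≤ m := by exact_mod_cast hmN.le
      have h11 : (0 : ℝ) ≤ m := Nat.cast_nonneg m
      linarith
  have h7 := left_shadow hm he hc h6 h5
  have h8 := h k1
  have h9 : ((T^[k1] m : ℕ) : ℝ) ≤ N := by exact_mod_cast h3
  rcases h7 with h7 | h7
  · have hpos : 0 < T^[k1] m := by
      have : ∀ k : ℕ, 0 < T^[k] m := by
        intro k
        induction k with
        | zero => simpa using (by omega : 0 < m)
        | succ k ih =>
          rw [Function.iterate_succ_apply']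
          exact Pool.Agent.Lib.MP_a247fa_nt.T_pos ih
      exact this k1
    have h10 := trap_upper h7 hpos
    linarith
  · linarith [h7.1]

theorem even_below : ∃ C : ℝ, 0 < C ∧ ∀ N : ℕ, 2 ≤ N → ∀ ε : ℝ, 0 < ε → ∃ X0 : ℕ, ∀ X : ℕ, X0 ≤ X →
    cnt {m : ℕ | m % 2 = 0 ∧ ∃ c : ℝ, IsCrit m c ∧ ∀ k : ℕ, N + 1 ≤ cf^[k] c} X
      ≤ (1 / 10 + C * (Real.log N) ^ (-(1 / 4) : ℝ) + ε) * X := by
  obtain ⟨C1, hC1, h1⟩ := stay_above
  obtain ⟨C2, hC2, h2⟩ := climb_even (θ := 5 / 2) (by norm_num)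
  refine ⟨C1 + C2, by positivity, fun N hN ε hε => ?_⟩
  obtain ⟨X1, h3⟩ := h2 N hN (ε / 2) (by positivity)
  set B : ℕ := max 100 (N + 1) with hB
  obtain ⟨X2, hX2⟩ := exists_nat_ge ((B : ℝ) / (ε / 2))
  refine ⟨max (max X1 X2) 1, fun X hX => ?_⟩
  have hXa : X1 ≤ X := le_trans (le_trans (le_max_left _ _) (le_max_left _ _)) hX
  have hXb : X2 ≤ X := le_trans (le_trans (le_max_right _ _) (le_max_left _ _)) hX
  have hXc : 1 ≤ X := le_trans (le_max_right _ _) hX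
  have h4 := cnt_almost (S := {m : ℕ | m % 2 = 0 ∧ ∃ c : ℝ, IsCrit m c ∧ ∀ k : ℕ, N + 1 ≤ cf^[k] c})
    (S' := {m : ℕ | ∀ k : ℕ, N < T^[k] m} ∪ {m : ℕ | m % 2 = 0 ∧ ∃ k : ℕ,
      (5 / 2 : ℝ) * (m : ℝ) < ((T^[k] m : ℕ) : ℝ) ∧ ∀ i ≤ k, N < T^[i] m}) (B := B) (by
      rintro m hm ⟨h5, c, hc, h6⟩
      rcases even_case (N := N) (le_trans (le_max_left _ _) hm) h5
        (by have := le_trans (le_max_right 100 (N + 1)) hm; omega) hc h6 with h7 | h7
      · exact Or.inl h7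
      · exact Or.inr ⟨h5, h7⟩) X
  have h5 := cnt_union_le {m : ℕ | ∀ k : ℕ, N < T^[k] m} {m : ℕ | m % 2 = 0 ∧ ∃ k : ℕ,
      (5 / 2 : ℝ) * (m : ℝ) < ((T^[k] m : ℕ) : ℝ) ∧ ∀ i ≤ k, N < T^[i] m} X
  have h6 := h1 N X hN hXc
  have h7 := h3 X hXa
  have h8 : (B : ℝ) ≤ ε / 2 * X := by
    have h9 : (B : ℝ) / (ε / 2) ≤ X := hX2.trans (by exact_mod_cast hXb)
    rw [div_le_iff₀ (by positivity)] at h9
    linarith
  have e1 : (1 : ℝ) / (4 * (5 / 2)) = 1 / 10 := by norm_num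
  rw [e1] at h7
  calc _ ≤ _ := h4
    _ ≤ (C1 * (Real.log N) ^ (-(1 / 4) : ℝ) * X
          + (1 / 10 + C2 * (Real.log N) ^ (-(1 / 4) : ℝ) + ε / 2) * X) + ε / 2 * X := by
        linarith
    _ = _ := by ring

lemma T_pos_iter {m : ℕ} (hm : 0 < m) (k : ℕ) : 0 < T^[k] m := by
  induction k with
  | zero => simpa using hm
  | succ k ih =>
    rw [Function.iterate_succ_apply']
    exact Pool.Agent.Lib.MP_a247fa_nt.T_pos ih

/-- the orbits of the numbers `≤ N` which reach `1` are bounded -/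
lemma orbit_bound (N : ℕ) : ∃ M : ℕ, ∀ n ≤ N, (∃ k : ℕ, T^[k] n = 1) → ∀ i : ℕ, T^[i] n ≤ M := by
  induction N with
  | zero =>
    refine ⟨0, fun n hn h i => ?_⟩
    have h0 : n = 0 := by omega
    subst h0
    have : ∀ i : ℕ, T^[i] 0 = 0 := by
      intro i
      induction i with
      | zero => rfl
      | succ i ih => rw [Function.iterate_succ_apply', ih]; rfl
    rw [this i]
  | succ N ih =>
    obtain ⟨M, hM⟩ := ih
    by_cases hk : ∃ k : ℕ, T^[k] (N + 1) = 1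
    · obtain ⟨k, hk⟩ := hk
      refine ⟨M + (∑ i ∈ Finset.range k, T^[i] (N + 1)) + 2, fun n hn h i => ?_⟩
      rcases Nat.lt_or_ge n (N + 1) with h1 | h1
      · have := hM n (by omega) h i
        omega
      · have h2 : n = N + 1 := by omega
        subst h2
        rcases Nat.lt_or_ge i k with h3 | h3
        · have h4 : T^[i] (N + 1) ≤ ∑ i ∈ Finset.range k, T^[i] (N + 1) :=
            Finset.single_le_sum (f := fun i => T^[i] (N + 1)) (fun _ _ => Nat.zero_le _)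
              (Finset.mem_range.mpr h3)
          omega
        · have h4 : T^[i] (N + 1) = T^[i - k] 1 := by
            rw [← hk, ← Function.iterate_add_apply]
            congr 2
            omega
          rw [h4]
          rcases Pool.Agent.Lib.MP_a247fa_nt.orbit_one (i - k) with h5 | h5 <;> omega
    · refine ⟨M, fun n hn h i => ?_⟩
      rcases Nat.lt_or_ge n (N + 1) with h1 | h1
      · exact hM n (by omega) h i
      · have h2 : n = N + 1 := by omega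
        subst h2
        exact absurd h hk

/-- a common radius of attraction for the integers `≤ 198` which reach `1` -/
lemma common_radius (A : ℕ) : ∃ ρ : ℝ, 0 < ρ ∧ ∀ a ≤ A, (∃ k : ℕ, T^[k] a = 1) →
    ∀ x : ℝ, |x - a| < ρ → ToOne x := by
  induction A with
  | zero =>
    by_cases h : ∃ k : ℕ, T^[k] 0 = 1
    · obtain ⟨k, hk⟩ := h
      obtain ⟨ρ, hρ, h1⟩ := toOne_int hk
      refine ⟨ρ, hρ, fun a ha _ x hx => ?_⟩
      have : a = 0 := by omega
      subst this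
      exact h1 x hx
    · refine ⟨1, one_pos, fun a ha h1 => ?_⟩
      have : a = 0 := by omega
      subst this
      exact absurd h1 h
  | succ A ih =>
    obtain ⟨ρ1, hρ1, h1⟩ := ih
    by_cases h : ∃ k : ℕ, T^[k] (A + 1) = 1
    · obtain ⟨k, hk⟩ := h
      obtain ⟨ρ, hρ, h2⟩ := toOne_int hk
      refine ⟨min ρ ρ1, lt_min hρ hρ1, fun a ha h3 x hx => ?_⟩
      rcases Nat.lt_or_ge a (A + 1) with h4 | h4
      · exact h1 a (by omega) h3 x (lt_of_lt_of_le hx (min_le_right _ _))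
      · have : a = A + 1 := by omega
        subst this
        exact h2 x (lt_of_lt_of_le hx (min_le_left _ _))
    · refine ⟨ρ1, hρ1, fun a ha h3 x hx => ?_⟩
      rcases Nat.lt_or_ge a (A + 1) with h4 | h4
      · exact h1 a (by omega) h3 x hx
      · have : a = A + 1 := by omega
        subst this
        exact absurd h3 h

/-- an even `m` whose orbit reaches `1` and never exceeds `5/2 m` -/
lemma toOne_even_of_bounded : ∃ B : ℕ, ∀ m : ℕ, B ≤ m → m % 2 = 0 →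
    (∀ k : ℕ, ((T^[k] m : ℕ) : ℝ) ≤ 5 / 2 * m) → (∃ k : ℕ, T^[k] m = 1) →
    ∀ c : ℝ, IsCrit m c → ToOne c := by
  obtain ⟨ρ, hρ, hrad⟩ := common_radius 198
  obtain ⟨B0, hB0⟩ := exists_nat_gt (198 / ρ)
  refine ⟨max 199 B0, fun m hm he hbd hr c hc => ?_⟩
  have hm1 : 199 ≤ m := le_trans (le_max_left _ _) hm
  have hm2 : B0 ≤ m := le_trans (le_max_right _ _) hm
  obtain ⟨k, hk⟩ := hr
  obtain ⟨j, hjk, h1, h2, h3, h4⟩ := last_hundred (by omega) hk
  have hj : 1 ≤ j := by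
    by_contra h
    have h0 : j = 0 := by omega
    rw [h0] at h2
    simp only [Function.iterate_zero, id_eq] at h2
    omega
  have h5 := left_shadow (by omega) he hc (k := j) (fun i _ => hbd i) hj
  have h6 : ToOne (cf^[j] c) := by
    rcases h5 with h5 | h5
    · refine trap_hundred h1 h2 h3 ?_ h5
      intro i hi
      rw [← Function.iterate_add_apply]
      exact h4 (i + j) (by omega)
    · obtain ⟨h7, h8⟩ := h5
      refine hrad (T^[j] m) h2 ⟨k - j, ?_⟩ _ ?_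
      · rw [← Function.iterate_add_apply]
        have : k - j + j = k := by omega
        rw [this]
        exact hk
      · have hmR : (199 : ℝ) ≤ m := by exact_mod_cast hm1
        have hmB : (B0 : ℝ) ≤ m := by exact_mod_cast hm2
        have haR : ((T^[j] m : ℕ) : ℝ) ≤ 198 := by exact_mod_cast h2
        have ha0 : (0 : ℝ) ≤ ((T^[j] m : ℕ) : ℝ) := Nat.cast_nonneg _
        set a : ℝ := ((T^[j] m : ℕ) : ℝ) with ha
        set x : ℝ := cf^[j] c with hx
        have h9 : (m : ℝ) ≤ 3 * (5 / 2 * (m : ℝ)) ^ 2 - 4 / 3 * a ^ 2 := by nlinarith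
        have h10 : 0 < a - x := by linarith
        have h11 : (a - x) * m ≤ a := le_trans (mul_le_mul_of_nonneg_left h9 h10.le) h8
        have h12 : 198 < ρ * m := by
          have : 198 / ρ < m := lt_of_lt_of_le hB0 hmB
          rw [div_lt_iff₀ hρ] at this
          linarith
        rw [abs_lt]
        constructor
        · have : (a - x) < ρ := by
            by_contra h13
            push Not at h13
            have h14 : ρ * m ≤ (a - x) * m := mul_le_mul_of_nonneg_right h13 (by linarith)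
            linarith
          linarith
        · linarith
  exact toOne_iter h6

lemma log_rpow_small {C η : ℝ} (hC : 0 < C) (hη : 0 < η) : ∃ N : ℕ, 2 ≤ N ∧
    C * (Real.log N) ^ (-(1 / 4) : ℝ) ≤ η := by
  have h1 : Filter.Tendsto (fun N : ℕ => C * (Real.log N) ^ (-(1 / 4) : ℝ)) Filter.atTop (nhds 0) := by
    have h2 : Filter.Tendsto (fun N : ℕ => Real.log N) Filter.atTop Filter.atTop :=
      Real.tendsto_log_atTop.comp tendsto_natCast_atTop_atTop
    have h3 := (tendsto_rpow_neg_atTop (show (0 : ℝ) < 1 / 4 by norm_num)).comp h2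
    have h4 := h3.const_mul C
    simpa using h4
  have h5 := h1.eventually (ge_mem_nhds hη)
  obtain ⟨N, hN⟩ := (h5.and (Filter.eventually_ge_atTop 2)).exists
  exact ⟨N, hN.2, hN.1⟩

lemma pow_small {η : ℝ} (hη : 0 < η) : ∃ a : ℕ, 1 ≤ a ∧ 3 / (4 * (5 / 2) * 2 ^ a) ≤ η := by
  obtain ⟨a, ha⟩ := exists_pow_lt_of_lt_one hη (show (1 / 2 : ℝ) < 1 by norm_num)
  refine ⟨a + 1, by omega, ?_⟩
  have h1 : (3 : ℝ) / (4 * (5 / 2) * 2 ^ (a + 1)) ≤ (1 / 2) ^ a := by
    rw [div_le_iff₀ (by positivity), div_pow, one_pow, pow_succ]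
    field_simp
    norm_num
  linarith

lemma cnt_dilate {E : Set ℕ} (a X : ℕ) : cnt {n : ℕ | 2 ^ a * n ∈ E} (X / 2 ^ a) ≤ cnt E X := by
  unfold cnt
  have hinj : Function.Injective (fun n : ℕ => 2 ^ a * n) := by
    intro x y hxy
    exact Nat.eq_of_mul_eq_mul_left (by positivity) hxy
  have h1 : ((fun n : ℕ => 2 ^ a * n) '' ({n : ℕ | 2 ^ a * n ∈ E} ∩ Set.Icc 1 (X / 2 ^ a))) ⊆
      E ∩ Set.Icc 1 X := by
    rintro _ ⟨n, ⟨hn1, hn2, hn3⟩, rfl⟩
    refine ⟨hn1, ?_, ?_⟩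
    · show 1 ≤ 2 ^ a * n
      exact Nat.mul_pos (by positivity) hn2
    · show 2 ^ a * n ≤ X
      calc 2 ^ a * n ≤ 2 ^ a * (X / 2 ^ a) := Nat.mul_le_mul_left _ hn3
        _ ≤ X := Nat.mul_div_le X (2 ^ a)
  have h2 := Set.ncard_le_ncard h1 (fin_inter E X)
  rw [Set.ncard_image_of_injective _ hinj] at h2
  exact_mod_cast h2

theorem even_density : ∃ δ : ℝ, 0 < δ ∧ ∃ X0 : ℕ, ∀ X : ℕ, X0 ≤ X →
    δ * X ≤ cnt {m : ℕ | m % 2 = 0 ∧ ∃ c : ℝ, IsCrit m c ∧ ToOne c} X := by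
  obtain ⟨δ, hδ, hd⟩ := dens_odd
  obtain ⟨C, hC, hcl⟩ := climb_pow (θ := 5 / 2) (by norm_num)
  obtain ⟨N, hN, hN1⟩ := log_rpow_small hC (show 0 < δ / 8 by positivity)
  obtain ⟨a, ha1, ha2⟩ := pow_small (show 0 < δ / 8 by positivity)
  obtain ⟨Y1, hY1⟩ := hcl N hN a (δ / 8) (by positivity)
  obtain ⟨M, hM⟩ := orbit_bound N
  obtain ⟨B, hB⟩ := toOne_even_of_bounded
  set D : ℕ := max (max M B) N + 1 with hD
  set Bad : Set ℕ := {n : ℕ | n % 2 = 1 ∧ ∃ k : ℕ,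
    (5 / 2 : ℝ) * ((2 ^ a * n : ℕ) : ℝ) < ((T^[k] (2 ^ a * n) : ℕ) : ℝ) ∧
      ∀ i ≤ k, N < T^[i] (2 ^ a * n)} with hBad
  set S : Set ℕ := {m : ℕ | m % 2 = 1 ∧ ∃ k : ℕ, T^[k] m = 1} with hS
  set E : Set ℕ := {m : ℕ | m % 2 = 0 ∧ ∃ c : ℝ, IsCrit m c ∧ ToOne c} with hE
  have hmain : ∀ n : ℕ, D ≤ n → n ∈ S → n ∈ {n : ℕ | 2 ^ a * n ∈ E} ∪ Bad := by
    rintro n hn ⟨hn1, k, hk⟩
    by_cases hbad : n ∈ Bad
    · exact Or.inr hbad
    left
    have hn0 : 1 ≤ n := by omega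
    have hnm : n ≤ 2 ^ a * n := Nat.le_mul_of_pos_left n (by positivity)
    set m : ℕ := 2 ^ a * n with hm
    have hmM : M < m := by
      have : M ≤ max (max M B) N := le_trans (le_max_left _ _) (le_max_left _ _)
      omega
    have hmB : B < m := by
      have : B ≤ max (max M B) N := le_trans (le_max_right _ _) (le_max_left _ _)
      omega
    have hmN : N < m := by
      have : N ≤ max (max M B) N := le_max_right _ _
      omega
    have he : m % 2 = 0 := by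
      have h2a : 2 ∣ 2 ^ a := dvd_pow_self 2 (by omega)
      exact Nat.mod_eq_zero_of_dvd (hm ▸ dvd_mul_of_dvd_left h2a n)
    have hreach : ∃ k : ℕ, T^[k] m = 1 := by
      refine ⟨k + a, ?_⟩
      rw [Function.iterate_add_apply, hm, T_pow_mul a n le_rfl]
      simpa using hk
    obtain ⟨c, hc, -⟩ := crit_unique m (by omega)
    refine ⟨he, c, hc, hB m hmB.le he ?_ hreach c hc⟩
    classical
    obtain ⟨k', hk'⟩ := hreach
    have hex : ∃ k : ℕ, T^[k] m ≤ N := ⟨k', by rw [hk']; omega⟩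
    set k1 := Nat.find hex with hk1
    have h3 : T^[k1] m ≤ N := Nat.find_spec hex
    have h4 : ∀ i : ℕ, i < k1 → N < T^[i] m := by
      intro i hi
      have := Nat.find_min hex hi
      omega
    have hk1k : k1 ≤ k' := Nat.find_min' hex (by rw [hk']; omega)
    intro i
    rcases Nat.lt_or_ge i k1 with h5 | h5
    · by_contra h6
      push Not at h6
      apply hbad
      refine ⟨hn1, i, h6, fun i' hi' => h4 i' (by omega)⟩
    · have h6 : T^[i] m = T^[i - k1] (T^[k1] m) := by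
        rw [← Function.iterate_add_apply]
        congr 2
        omega
      have h7 : T^[i - k1] (T^[k1] m) ≤ M := by
        refine hM _ h3 ⟨k' - k1, ?_⟩ _
        rw [← Function.iterate_add_apply]
        have : k' - k1 + k1 = k' := by omega
        rw [this]
        exact hk'
      have h8 : T^[i] m ≤ m := by omega
      have h9 : ((T^[i] m : ℕ) : ℝ) ≤ m := by exact_mod_cast h8
      have h10 : (0 : ℝ) ≤ m := Nat.cast_nonneg m
      linarith
  -- counting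
  have hd' := hd.eventually (lt_mem_nhds (show 7 / 8 * δ < δ by linarith))
  obtain ⟨Y2, hY2⟩ := Filter.eventually_atTop.mp hd'
  obtain ⟨Y3, hY3⟩ := exists_nat_gt (8 * (D : ℝ) / δ)
  set Y0 : ℕ := max (max Y1 Y2) (max Y3 1) with hY0
  refine ⟨δ / 4 / 2 ^ (a + 1), by positivity, 2 ^ a * Y0 + 2 ^ (a + 1), fun X hX => ?_⟩
  set Y : ℕ := X / 2 ^ a with hY
  have hYY : Y0 ≤ Y := by
    rw [hY, Nat.le_div_iff_mul_le (by positivity)]
    rw [mul_comm]
    exact le_trans (Nat.le_add_right _ _) hX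
  have hYa : Y1 ≤ Y := le_trans (le_trans (le_max_left _ _) (le_max_left _ _)) hYY
  have hYb : Y2 ≤ Y := le_trans (le_trans (le_max_right _ _) (le_max_left _ _)) hYY
  have hYc : Y3 ≤ Y := le_trans (le_trans (le_max_left _ _) (le_max_right _ _)) hYY
  have hYd : 1 ≤ Y := le_trans (le_trans (le_max_right _ _) (le_max_right _ _)) hYY
  have hYpos : (0 : ℝ) < Y := by exact_mod_cast hYd
  have h1 : 7 / 8 * δ * Y ≤ cnt S Y := by
    have h2 := hY2 Y hYb
    have h3 := h2.le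
    rw [le_div_iff₀ hYpos] at h3
    exact h3
  have h2 : cnt S Y ≤ cnt ({n : ℕ | 2 ^ a * n ∈ E} ∪ Bad) Y + D := cnt_almost hmain Y
  have h3 := cnt_union_le {n : ℕ | 2 ^ a * n ∈ E} Bad Y
  have h4 : cnt Bad Y ≤ (3 / (4 * (5 / 2) * 2 ^ a) + C * (Real.log N) ^ (-(1 / 4) : ℝ) + δ / 8) * Y :=
    hY1 Y hYa
  have h5 : (3 / (4 * (5 / 2) * 2 ^ a) + C * (Real.log N) ^ (-(1 / 4) : ℝ) + δ / 8) * Y
      ≤ (3 / 8 * δ) * Y := by
    apply mul_le_mul_of_nonneg_right _ hYpos.le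
    linarith
  have h6 : (D : ℝ) ≤ 1 / 8 * δ * Y := by
    have h7 : 8 * (D : ℝ) / δ < Y := lt_of_lt_of_le hY3 (by exact_mod_cast hYc)
    rw [div_lt_iff₀ hδ] at h7
    linarith
  have h7 := cnt_dilate (E := E) a X
  have h8 : δ / 4 * Y ≤ cnt E X := by
    rw [← hY] at h7
    nlinarith
  have h9 : (X : ℝ) / 2 ^ (a + 1) ≤ Y := by
    have h10 : X < 2 ^ a * (Y + 1) := by
      rw [hY]
      exact Nat.lt_mul_div_succ X (by positivity)
    have h11 : (X : ℝ) < 2 ^ a * ((Y : ℝ) + 1) := by exact_mod_cast h10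
    rw [div_le_iff₀ (by positivity), pow_succ]
    have h12 : (1 : ℝ) ≤ Y := by exact_mod_cast hYd
    have h13 : (0 : ℝ) < 2 ^ a := by positivity
    nlinarith
  calc δ / 4 / 2 ^ (a + 1) * X = δ / 4 * ((X : ℝ) / 2 ^ (a + 1)) := by ring
    _ ≤ δ / 4 * Y := mul_le_mul_of_nonneg_left h9 (by positivity)
    _ ≤ _ := h8

end Pool.Agent.Lib.MP_a247fa_nt.Crit
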