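import Pool.Agent.Lib.MP_a247fa_nt.Crit.HitProb
import Pool.Agent.Lib.MP_e43fce_nt_nat.LemR

/-! HITCOUNT (50 min). Counting the `n ≤ exp x` whose word of `K` odd steps hits.

(1) `word_upper`: for a good word `w`, `cnt_upper` (Count.lean) with `p = 1`, `q = 1`, then `cnt_split`
(as in `cnt_main`), then `odd_sum` with `node_per`, `Av_node`, `MM_av` exactly as in the proof of `cnt_bad`
(there the lower bound): with `Z = 3^K X / 2^A`:
`wt w * ∑ s ∈ oddS Z, [adm s w] MM i (nd s w) ≤ (Z/2 + 3^(K+i)) * (pr w * mm i)`, divide by `wt w`, `mm i ≤ 1`.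
(2) `hit_count`: split `oddS (exp x)` into `vw K n ∈ Good e K` or not with `e = 1/10`; first part by
`cnt_fiber` and (1): `≤ ∑ w ∈ Good, hit w * (X/2 * pr w + (K^2+1) 3^i) ≤ X/2 * (Y + K/3)/Z + card * (K^2+1) * 3^i`
(`Good ⊆ words (3K) K`, `hit_prob`); second part `cnt_bad`, `bad_prob` (`≤ C/K ≤ 10 C / x`),
`good_card`, `lemR_size`, `lemR_B` give the error as in the proof of `lemR`. -/

set_option autoImplicit false

namespace Pool.Agent.Lib.MP_a247fa_nt.Crit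

open Finset Pool.Agent.Lib.MP_e43fce_nt_nat

theorem word_upper {e : ℝ} {K i : ℕ} {w : List ℕ} (hw : w ∈ Good e K) {X : ℝ} (hX : 0 < X) :
    ∑ n ∈ (oddS X).filter (fun n => vw K n = w), MM i (n : ℤ)
      ≤ X / 2 * pr w + ((K : ℝ) ^ 2 + 1) * 3 ^ i := by
  classical
  obtain ⟨_, hl, hpos, _, _⟩ := cnt_good hw
  have hu : ∀ A : ℕ, Unit01 ((fun _ _ => (1 : ℝ)) A : ℕ → ℝ) := fun A n =>
    ⟨zero_le_one, le_rfl⟩
  have h1 := cnt_upper (i := i) hw (X := X) (p := fun _ => (1 : ℝ)) (q := fun _ _ => (1 : ℝ))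
    hu (fun _ _ _ _ _ _ _ => le_rfl)
  simp only [one_mul] at h1
  refine h1.trans ?_
  set Z : ℝ := 3 ^ K * X / 2 ^ w.sum with hZ
  have hZ0 : 0 ≤ Z := by positivity
  have hwt : 0 < wt w := by unfold wt; positivity
  have h2 := cnt_split Z hZ0 (K ^ 2) (3 ^ i)
      (fun s => if adm (s : ℤ) w then MM i (nd s w) else 0)
      (fun s => by
        show 0 ≤ if adm (s : ℤ) w then MM i (nd s w) else 0
        split_ifs
        · exact MM_nonneg _ _
        · exact le_rfl)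
      (fun s => by
        show (if adm (s : ℤ) w then MM i (nd s w) else 0) ≤ 3 ^ i
        split_ifs
        · exact MM_le _ _
        · positivity)
  push_cast at h2
  refine h2.trans ?_
  have h5 := odd_sum (w.length + i) (fun m => if adm m w then wt w * MM i (nd m w) else 0)
    (fun x => by
      show 0 ≤ if adm x w then wt w * MM i (nd x w) else 0
      split_ifs
      · exact mul_nonneg hwt.le (MM_nonneg _ _)
      · exact le_rfl)
    (node_per w i (MM i) (MM_per i)) Z hZ0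
  rw [Av_node w i (MM i) (MM_per i), MM_av, abs_le] at h5
  have h6 := h5.2
  have h7 : ∑ n ∈ oddS Z, (if adm ((n : ℕ) : ℤ) w then wt w * MM i (nd ((n : ℕ) : ℤ) w) else 0)
      = wt w * ∑ n ∈ oddS Z, (if adm ((n : ℕ) : ℤ) w then MM i (nd ((n : ℕ) : ℤ) w) else 0) := by
    rw [Finset.mul_sum]
    refine Finset.sum_congr rfl fun n _ => ?_
    split_ifs <;> ring
  rw [h7, hl] at h6
  have h9 : ∑ n ∈ oddS Z, (if adm ((n : ℕ) : ℤ) w then MM i (nd ((n : ℕ) : ℤ) w) else 0)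
      ≤ (X / 2 * pr w + 3 ^ i) * mm i := by
    refine le_of_mul_le_mul_left ?_ hwt
    have h8 : wt w * ((X / 2 * pr w + 3 ^ i) * mm i)
        = Z / 2 * (pr w * mm i) + 3 ^ (K + i) * (pr w * mm i) := by
      rw [hZ]
      unfold wt pr
      rw [hl, pow_add]
      field_simp
    rw [h8]
    linarith
  have hpr : 0 < pr w := BAD_pr_pos w
  have h10 : (X / 2 * pr w + 3 ^ i) * mm i ≤ X / 2 * pr w + 3 ^ i :=
    mul_le_of_le_one_right (by positivity) (mm_le_one i)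
  linarith

theorem hit_count : ∃ C x0 : ℝ, 0 < C ∧ 1 ≤ x0 ∧ ∀ x : ℝ, x0 ≤ x → ∀ K i : ℕ,
    x / 10 ≤ (K : ℝ) → (K : ℝ) ≤ 3 * x / 10 → i ^ 2 ≤ K → ∀ Y Z : ℝ, 0 ≤ Y → 0 < Z →
      ∑ n ∈ oddS (Real.exp x), hit Y Z (vw K n) * MM i (n : ℤ)
        ≤ Real.exp x * (1 / 2 * ((Y + K / 3) / Z) + C * x ^ (-(1 / 4) : ℝ)) := by
  classical
  have h0 : (0 : ℝ) < 1 / 10 := by norm_num
  have h1 : (1 : ℝ) / 10 ≤ 1 / 10 := le_rfl
  obtain ⟨Cb, hCb, hbad⟩ := bad_prob h0 h1
  refine ⟨5 * Cb + 1100, 20, by positivity, by norm_num, ?_⟩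
  intro x hx K i hK1 hK2 hi Y Z hY hZ
  have hx0 : (0 : ℝ) < x := by linarith
  set u : ℝ := x ^ (1 / 4 : ℝ) with hu
  have hu4 : u ^ 4 = x := by
    rw [hu, ← Real.rpow_natCast, ← Real.rpow_mul hx0.le]
    norm_num
  have hu1 : 1 ≤ u := Real.one_le_rpow (by linarith) (by norm_num)
  have hu0 : 0 < u := by linarith
  have huy : x ^ (-(1 / 4) : ℝ) = 1 / u := by
    rw [Real.rpow_neg hx0.le]
    exact (one_div _).symm
  rw [huy]
  have hKr : (2 : ℝ) ≤ K := by linarith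
  have hK : 2 ≤ K := by exact_mod_cast hKr
  have hxu : u ≤ x := by
    rw [← hu4]
    calc u = u ^ 1 := (pow_one u).symm
      _ ≤ u ^ 4 := pow_le_pow_right₀ hu1 (by norm_num)
  have hxinv : 1 / x ≤ 1 / u := one_div_le_one_div_of_le hu0 hxu
  set X : ℝ := Real.exp x with hX
  have hX0 : 0 < X := Real.exp_pos x
  have hsize := lemR_size h1 hx0.le hK2 hi
  set R : ℝ := (2 : ℝ) ^ ((2 + 1 / 10) * (K : ℝ)) with hRdef
  have hR1 : 1 ≤ R := Real.one_le_rpow (by norm_num) (by positivity)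
  have hG : ((Good (1 / 10) K).card : ℝ) ≤ R := good_card h0 h1 K
  have h3i : (1 : ℝ) ≤ 3 ^ i := one_le_pow₀ (by norm_num)
  have herrB : 3 ^ i * (1 + ((Good (1 / 10) K).card : ℝ)) +
      ((K : ℝ) ^ 2 + 1) * (Good (1 / 10) K).card * 3 ^ i ≤ X * (1100 * (1 / u)) :=
    lemR_B hx hu0 hxinv hX h3i hR1 (by positivity) hK2 hG hsize
  have herrA : X / 2 * (1 - ∑ w ∈ Good (1 / 10) K, pr w) ≤ X * (5 * Cb * (1 / u)) := by
    have h5 := hbad K (by omega)
    have h6 : Cb / K ≤ 10 * Cb * (1 / u) := by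
      calc Cb / K ≤ Cb / (x / 10) :=
            div_le_div_of_nonneg_left hCb.le (by positivity) hK1
        _ = 10 * Cb * (1 / x) := by
            field_simp
        _ ≤ 10 * Cb * (1 / u) := mul_le_mul_of_nonneg_left hxinv (by positivity)
    calc X / 2 * (1 - ∑ w ∈ Good (1 / 10) K, pr w) ≤ X / 2 * (10 * Cb * (1 / u)) :=
          mul_le_mul_of_nonneg_left (h5.trans h6) (by positivity)
      _ = X * (5 * Cb * (1 / u)) := by ring
  -- the part with a bad word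
  have hbadp : ∑ n ∈ (oddS X).filter (fun n => ¬ vw K n ∈ Good (1 / 10) K),
      hit Y Z (vw K n) * MM i (n : ℤ)
      ≤ X / 2 * (1 - ∑ w ∈ Good (1 / 10) K, pr w) + 3 ^ i * (1 + (Good (1 / 10) K).card) :=
    cnt_bad hX0 (p := fun n => hit Y Z (vw K n)) fun n => ⟨hit_nonneg _ _ _, hit_le_one _ _ _⟩
  -- the part with a good word
  have hgood : ∑ n ∈ (oddS X).filter (fun n => vw K n ∈ Good (1 / 10) K),
      hit Y Z (vw K n) * MM i (n : ℤ)
      ≤ X / 2 * ((Y + K / 3) / Z) + ((K : ℝ) ^ 2 + 1) * (Good (1 / 10) K).card * 3 ^ i := by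
    rw [cnt_fiber (e := 1 / 10) (K := K) (X := X) (fun n => hit Y Z (vw K n) * MM i (n : ℤ))]
    have h2 : ∀ w ∈ Good (1 / 10) K,
        ∑ n ∈ (oddS X).filter (fun n => vw K n = w), hit Y Z (vw K n) * MM i (n : ℤ)
          ≤ X / 2 * (pr w * hit Y Z w) + ((K : ℝ) ^ 2 + 1) * 3 ^ i := by
      intro w hw
      have h3 : ∑ n ∈ (oddS X).filter (fun n => vw K n = w), hit Y Z (vw K n) * MM i (n : ℤ)
          = hit Y Z w * ∑ n ∈ (oddS X).filter (fun n => vw K n = w), MM i (n : ℤ) := by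
        rw [Finset.mul_sum]
        refine Finset.sum_congr rfl fun n hn => ?_
        rw [(Finset.mem_filter.1 hn).2]
      rw [h3]
      have h4 := mul_le_mul_of_nonneg_left (word_upper (i := i) hw hX0) (hit_nonneg Y Z w)
      refine h4.trans ?_
      have h5 : hit Y Z w * (((K : ℝ) ^ 2 + 1) * 3 ^ i) ≤ ((K : ℝ) ^ 2 + 1) * 3 ^ i :=
        mul_le_of_le_one_left (by positivity) (hit_le_one Y Z w)
      calc hit Y Z w * (X / 2 * pr w + ((K : ℝ) ^ 2 + 1) * 3 ^ i)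
          = X / 2 * (pr w * hit Y Z w) + hit Y Z w * (((K : ℝ) ^ 2 + 1) * 3 ^ i) := by ring
        _ ≤ _ := by linarith
    refine (Finset.sum_le_sum h2).trans ?_
    rw [Finset.sum_add_distrib, ← Finset.mul_sum, Finset.sum_const, nsmul_eq_mul]
    have h6 : ∑ w ∈ Good (1 / 10) K, pr w * hit Y Z w ≤ (Y + K / 3) / Z := by
      refine le_trans ?_ (hit_prob hY hZ (3 * K) K)
      refine Finset.sum_le_sum_of_subset_of_nonneg ?_ fun w _ _ => ?_
      · unfold Good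
        exact Finset.filter_subset _ _
      · exact mul_nonneg (BAD_pr_pos w).le (hit_nonneg _ _ _)
    have h7 := mul_le_mul_of_nonneg_left h6 (show (0 : ℝ) ≤ X / 2 by positivity)
    have h8 : ((Good (1 / 10) K).card : ℝ) * (((K : ℝ) ^ 2 + 1) * 3 ^ i)
        = ((K : ℝ) ^ 2 + 1) * (Good (1 / 10) K).card * 3 ^ i := by ring
    linarith
  have hsplit : ∑ n ∈ oddS X, hit Y Z (vw K n) * MM i (n : ℤ)
      = ∑ n ∈ (oddS X).filter (fun n => vw K n ∈ Good (1 / 10) K),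
          hit Y Z (vw K n) * MM i (n : ℤ)
        + ∑ n ∈ (oddS X).filter (fun n => ¬ vw K n ∈ Good (1 / 10) K),
          hit Y Z (vw K n) * MM i (n : ℤ) :=
    (Finset.sum_filter_add_sum_filter_not _ _ _).symm
  rw [hsplit]
  have hfin : X * (1 / 2 * ((Y + K / 3) / Z) + (5 * Cb + 1100) * (1 / u))
      = X / 2 * ((Y + K / 3) / Z) + X * (5 * Cb * (1 / u)) + X * (1100 * (1 / u)) := by ring
  rw [hfin]
  linarith

end Pool.Agent.Lib.MP_a247fa_nt.Crit
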