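import Pool.Agent.Lib.MP_a247fa_nt.Crit.CDefs
import Pool.Agent.Lib.MP_e43fce_nt_nat.WB1
import Pool.Agent.Lib.MP_e43fce_nt_nat.Bad

/-! HITPROB (30 min). Doob's inequality for the words.

Proof of `hit_prob`. Put `G w = if Hit Y Z w then Z else MX Y w`. Claim: for all `K`
`∑ w ∈ words L K, pr w * G w ≤ Y + K / 3` (induction on `K`; `wb1_sum_succ` of WB1 writes the sum over
`words L (K+1)` as `∑ a ∈ Icc 1 L, ∑ w ∈ words L K, g (a :: w)`). Step: `pr (a :: w) = pr w / 2 ^ a`.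
If `Hit Y Z w` then `Hit Y Z (a :: w)` and `∑ a, 2⁻ᵃ Z ≤ Z` (`wb1_geom`). If not, then
`G (a :: w) ≤ MX Y (a :: w) = (3 M + 1) / 2 ^ a` (if `a :: w` hits, then because of the word itself:
`Z ≤ MX Y (a :: w)`, and `G = Z`), and `∑ a, 2⁻ᵃ (3 M + 1) / 2 ^ a ≤ (3 M + 1) / 3 = M + 1/3`
(`∑_{a=1}^{L} 4⁻ᵃ ≤ 1/3`); use `∑ pr w ≤ 1` (`BAD_mass`) for the sum of the `1/3`.
Then `Z * ∑ pr w * hit ≤ ∑ pr w * G w` because `G ≥ 0` (`MX_nonneg`). -/

set_option autoImplicit false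

namespace Pool.Agent.Lib.MP_a247fa_nt.Crit

open Finset Pool.Agent.Lib.MP_e43fce_nt_nat

theorem hit_nonneg (Y Z : ℝ) (w : List ℕ) : 0 ≤ hit Y Z w := by
  unfold hit; split_ifs <;> norm_num

theorem hit_le_one (Y Z : ℝ) (w : List ℕ) : hit Y Z w ≤ 1 := by
  unfold hit; split_ifs <;> norm_num

theorem MX_nonneg {Y : ℝ} (hY : 0 ≤ Y) (w : List ℕ) : 0 ≤ MX Y w := by
  induction w with
  | nil => exact hY
  | cons a w ih =>
    show 0 ≤ (3 * MX Y w + 1) / 2 ^ a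
    positivity

/-- the stopped value -/
private noncomputable def gg (Y Z : ℝ) (w : List ℕ) : ℝ := by
  classical exact if Hit Y Z w then Z else MX Y w

private theorem gg_hit {Y Z : ℝ} {w : List ℕ} (h : Hit Y Z w) : gg Y Z w = Z := by
  unfold gg; rw [if_pos h]

private theorem gg_not {Y Z : ℝ} {w : List ℕ} (h : ¬ Hit Y Z w) : gg Y Z w = MX Y w := by
  unfold gg; rw [if_neg h]

private theorem hit_cons {Y Z : ℝ} {w : List ℕ} (h : Hit Y Z w) (a : ℕ) : Hit Y Z (a :: w) := by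
  obtain ⟨v, hv, hZ⟩ := h
  exact ⟨v, hv.trans (List.suffix_cons a w), hZ⟩

private theorem gg_cons_le {Y Z : ℝ} {w : List ℕ} (h : ¬ Hit Y Z w) (a : ℕ) :
    gg Y Z (a :: w) ≤ (3 * MX Y w + 1) / 2 ^ a := by
  by_cases h1 : Hit Y Z (a :: w)
  · rw [gg_hit h1]
    obtain ⟨v, hv, hZ⟩ := h1
    rcases List.suffix_cons_iff.1 hv with rfl | h2
    · exact hZ
    · exact absurd ⟨v, h2, hZ⟩ h
  · rw [gg_not h1]
    exact le_rfl

private theorem gg_nil_le {Y Z : ℝ} : gg Y Z [] ≤ Y := by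
  by_cases h : Hit Y Z []
  · rw [gg_hit h]
    obtain ⟨v, hv, hZ⟩ := h
    rw [List.suffix_nil.1 hv] at hZ
    exact hZ
  · rw [gg_not h]
    exact le_rfl

private theorem pr_cons (a : ℕ) (w : List ℕ) : pr (a :: w) = pr w * (1 / 2 ^ a) := by
  unfold pr
  rw [List.sum_cons, pow_add]
  field_simp

private theorem geom4 (L : ℕ) : ∑ j ∈ Icc 1 L, (1 : ℝ) / 2 ^ j * (1 / 2 ^ j) ≤ 1 / 3 := by
  have h : ∑ j ∈ Icc 1 L, (1 : ℝ) / 2 ^ j * (1 / 2 ^ j) = (1 - 1 / 2 ^ L * (1 / 2 ^ L)) / 3 := by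
    induction L with
    | zero => simp
    | succ L ih =>
      rw [sum_Icc_succ_top (by omega), ih, pow_succ]
      field_simp
      ring
  rw [h]
  have : (0 : ℝ) ≤ 1 / 2 ^ L * (1 / 2 ^ L) := by positivity
  linarith

private theorem geom2 (L : ℕ) : ∑ j ∈ Icc 1 L, (1 : ℝ) / 2 ^ j ≤ 1 := by
  rw [wb1_geom]
  have : (0 : ℝ) ≤ 1 / 2 ^ L := by positivity
  linarith

private theorem gg_step {Y Z : ℝ} (hY : 0 ≤ Y) (hZ : 0 < Z) (L : ℕ) (w : List ℕ) :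
    ∑ a ∈ Icc 1 L, (1 : ℝ) / 2 ^ a * gg Y Z (a :: w) ≤ gg Y Z w + 1 / 3 := by
  by_cases h : Hit Y Z w
  · have h1 : ∑ a ∈ Icc 1 L, (1 : ℝ) / 2 ^ a * gg Y Z (a :: w) =
        (∑ a ∈ Icc 1 L, (1 : ℝ) / 2 ^ a) * Z := by
      rw [sum_mul]
      exact sum_congr rfl (fun a _ => by rw [gg_hit (hit_cons h a)])
    rw [h1, gg_hit h]
    nlinarith [geom2 L]
  · have hM := MX_nonneg hY w
    have h1 : ∑ a ∈ Icc 1 L, (1 : ℝ) / 2 ^ a * gg Y Z (a :: w) ≤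
        (∑ a ∈ Icc 1 L, (1 : ℝ) / 2 ^ a * (1 / 2 ^ a)) * (3 * MX Y w + 1) := by
      rw [sum_mul]
      refine sum_le_sum (fun a _ => ?_)
      have h2 := gg_cons_le h a
      have h3 : (0 : ℝ) ≤ 1 / 2 ^ a := by positivity
      calc (1 : ℝ) / 2 ^ a * gg Y Z (a :: w) ≤ 1 / 2 ^ a * ((3 * MX Y w + 1) / 2 ^ a) :=
            mul_le_mul_of_nonneg_left h2 h3
        _ = 1 / 2 ^ a * (1 / 2 ^ a) * (3 * MX Y w + 1) := by ring
    rw [gg_not h]
    have h4 := geom4 L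
    nlinarith

private theorem gg_sum {Y Z : ℝ} (hY : 0 ≤ Y) (hZ : 0 < Z) (L K : ℕ) :
    ∑ w ∈ words L K, pr w * gg Y Z w ≤ Y + K / 3 := by
  induction K with
  | zero =>
    have h1 : words L 0 = {[]} := rfl
    rw [h1, sum_singleton]
    have h2 : pr [] = 1 := by simp [pr]
    rw [h2]
    have := gg_nil_le (Y := Y) (Z := Z)
    simp only [Nat.cast_zero]
    linarith
  | succ K ih =>
    rw [wb1_sum_succ, sum_comm]
    have h1 : ∀ w ∈ words L K, ∑ a ∈ Icc 1 L, pr (a :: w) * gg Y Z (a :: w) ≤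
        pr w * gg Y Z w + pr w * (1 / 3) := by
      intro w _
      have h2 : ∑ a ∈ Icc 1 L, pr (a :: w) * gg Y Z (a :: w) =
          pr w * ∑ a ∈ Icc 1 L, (1 : ℝ) / 2 ^ a * gg Y Z (a :: w) := by
        rw [mul_sum]
        exact sum_congr rfl (fun a _ => by rw [pr_cons, mul_assoc])
      rw [h2, ← mul_add]
      exact mul_le_mul_of_nonneg_left (gg_step hY hZ L w) (BAD_pr_pos w).le
    refine (sum_le_sum h1).trans ?_
    rw [sum_add_distrib, ← sum_mul]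
    have h3 := BAD_mass L K
    push_cast
    linarith

theorem hit_prob {Y Z : ℝ} (hY : 0 ≤ Y) (hZ : 0 < Z) (L K : ℕ) :
    ∑ w ∈ words L K, pr w * hit Y Z w ≤ (Y + K / 3) / Z := by
  rw [le_div_iff₀ hZ, sum_mul]
  refine le_trans (sum_le_sum fun w _ => ?_) (gg_sum hY hZ L K)
  have hp := (BAD_pr_pos w).le
  rw [mul_assoc]
  refine mul_le_mul_of_nonneg_left ?_ hp
  unfold hit
  split_ifs with h
  · rw [gg_hit h, one_mul]
  · rw [gg_not h, zero_mul]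
    exact MX_nonneg hY w

end Pool.Agent.Lib.MP_a247fa_nt.Crit
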