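import Pool.Agent.Lib.MP_a247fa_nt.Orbits
import Pool.Agent.Lib.MP_a247fa_nt.Crit.CDefs

/-! NEARONE. Points attracted by the cycle `{1, 2}`. -/

set_option autoImplicit false

namespace Pool.Agent.Lib.MP_a247fa_nt.Crit

open Pool.Agent.Lib.MP_a247fa_nt
open Filter Topology

theorem toOne_iter {c : ℝ} {n : ℕ} (h : ToOne (cf^[n] c)) : ToOne c := by
  obtain ⟨j, hj⟩ := h
  refine ⟨j + n, hj.congr (fun k => ?_)⟩
  rw [← Function.iterate_add_apply, show 2 * k + j + n = 2 * k + (j + n) by ring]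

theorem toOne_of_toOne {c : ℝ} (n : ℕ) (h : ToOne c) : ToOne (cf^[n] c) := by
  obtain ⟨j, hj⟩ := h
  refine ⟨j + n, ?_⟩
  have h2 := hj.comp (tendsto_add_atTop_nat n)
  refine h2.congr (fun k => ?_)
  simp only [Function.comp_apply]
  rw [← Function.iterate_add_apply, show 2 * (k + n) + j = 2 * k + (j + n) + n by ring]

theorem nearOne_of_g {x : ℝ} (h : Tendsto (fun k : ℕ => g^[k] x) atTop (𝓝 1)) : ToOne x := by
  refine ⟨0, h.congr (fun k => ?_)⟩
  rw [g_iterate, Nat.add_zero]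

theorem nearOne_g_one : g 1 = 1 := by
  change cf (cf 1) = 1
  rw [cf_one, cf_two]

theorem toOne_right {x : ℝ} (h1 : 1 ≤ x) (h2 : x ≤ 1 + 0.02) : ToOne x := by
  have hstep : ∀ y : ℝ, 1 ≤ y → y ≤ 1 + 0.02 → 1 ≤ g y ∧ g y ≤ y := by
    intro y hy1 hy2
    have hy : y ∈ trapI 1 := by
      rw [trapI_one]; exact ⟨hy1, by norm_num at hy2 ⊢; linarith⟩
    have h3 := g_mem hy
    rw [trapI_one] at h3
    refine ⟨h3.1, ?_⟩
    rcases eq_or_lt_of_le hy1 with he | hl
    · rw [← he, nearOne_g_one]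
    · exact (g_lt_self hl hy2).le
  have hall : ∀ k : ℕ, 1 ≤ g^[k] x ∧ g^[k] x ≤ 1 + 0.02 := by
    intro k
    induction k with
    | zero => exact ⟨h1, h2⟩
    | succ k ih =>
      rw [Function.iterate_succ_apply']
      have := hstep _ ih.1 ih.2
      exact ⟨this.1, this.2.trans ih.2⟩
  have hanti : Antitone (fun k : ℕ => g^[k] x) := by
    apply antitone_nat_of_succ_le
    intro k
    rw [Function.iterate_succ_apply']
    exact (hstep _ (hall k).1 (hall k).2).2
  have hbdd : BddBelow (Set.range (fun k : ℕ => g^[k] x)) := by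
    refine ⟨1, ?_⟩
    rintro _ ⟨k, rfl⟩
    exact (hall k).1
  have hlim := tendsto_atTop_ciInf hanti hbdd
  set L : ℝ := ⨅ k : ℕ, g^[k] x with hL
  have hL1 : 1 ≤ L := le_ciInf (fun k => (hall k).1)
  have hL2 : L ≤ 1 + 0.02 := (ciInf_le hbdd 0).trans h2
  have hgc : Continuous g := continuous_cf.comp continuous_cf
  have hfix : g L = L := by
    have e1 : Tendsto (fun k : ℕ => g (g^[k] x)) atTop (𝓝 (g L)) :=
      (hgc.tendsto L).comp hlim
    have e2 : Tendsto (fun k : ℕ => g (g^[k] x)) atTop (𝓝 L) := by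
      have := hlim.comp (tendsto_add_atTop_nat 1)
      refine this.congr (fun k => ?_)
      simp only [Function.comp_apply, Function.iterate_succ_apply']
    exact tendsto_nhds_unique e1 e2
  have hLone : L = 1 := by
    rcases eq_or_lt_of_le hL1 with he | hl
    · exact he.symm
    · exact absurd hfix (g_lt_self hl hL2).ne
  rw [hLone] at hlim
  exact nearOne_of_g hlim

theorem nearOne_local {h : ℝ → ℝ} {x D : ℝ} (hd : HasDerivAt h D x) (hx : h x = x)
    (hD : |D| < 1) : ∃ ε > 0, ∀ y, |y - x| < ε → Tendsto (fun k : ℕ => h^[k] y) atTop (𝓝 x) := by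
  obtain ⟨c, hc1, hc2⟩ := exists_between hD
  have hc0 : 0 < c := (abs_nonneg D).trans_lt hc1
  have h1 := hd.isLittleO.def (sub_pos.2 hc1)
  rw [Metric.eventually_nhds_iff] at h1
  obtain ⟨ε, hε, h2⟩ := h1
  have key : ∀ y, |y - x| < ε → |h y - x| ≤ c * |y - x| := by
    intro y hy
    have h3 := h2 (y := y) (by rwa [Real.dist_eq])
    simp only [Real.norm_eq_abs, smul_eq_mul] at h3
    have h4 : h y - x = (h y - h x - (y - x) * D) + (y - x) * D := by rw [hx]; ring
    rw [h4]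
    calc |(h y - h x - (y - x) * D) + (y - x) * D|
        ≤ |h y - h x - (y - x) * D| + |(y - x) * D| := abs_add_le _ _
      _ ≤ (c - |D|) * |y - x| + |y - x| * |D| := by rw [abs_mul (y - x) D]; linarith
      _ = c * |y - x| := by ring
  refine ⟨ε, hε, fun y hy => ?_⟩
  have key2 : ∀ k : ℕ, |h^[k] y - x| ≤ c ^ k * |y - x| ∧ |h^[k] y - x| < ε := by
    intro k
    induction k with
    | zero => simpa using hy
    | succ k ih =>
      rw [Function.iterate_succ_apply']
      have h5 := key _ ih.2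
      have h6 : |h (h^[k] y) - x| ≤ c ^ (k+1) * |y - x| := by
        calc |h (h^[k] y) - x| ≤ c * |h^[k] y - x| := h5
          _ ≤ c * (c ^ k * |y - x|) := mul_le_mul_of_nonneg_left ih.1 hc0.le
          _ = c ^ (k+1) * |y - x| := by ring
      refine ⟨h6, lt_of_le_of_lt h5 ?_⟩
      calc c * |h^[k] y - x| ≤ 1 * |h^[k] y - x| :=
            mul_le_mul_of_nonneg_right hc2.le (abs_nonneg _)
        _ < ε := by rw [one_mul]; exact ih.2
  rw [tendsto_iff_dist_tendsto_zero]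
  have h7 : Tendsto (fun k : ℕ => c ^ k * |y - x|) atTop (𝓝 0) := by
    have := (tendsto_pow_atTop_nhds_zero_of_lt_one hc0.le hc2).mul_const (|y - x|)
    simpa using this
  refine squeeze_zero (fun _ => dist_nonneg) (fun k => ?_) h7
  rw [Real.dist_eq]; exact (key2 k).1

theorem toOne_nbhd : ∃ ρ : ℝ, 0 < ρ ∧ ∀ x : ℝ, |x - 1| < ρ → ToOne x := by
  have h1 : dcf 1 = 3 / 2 := by
    have := dcf_one_add 0
    simp at this; rw [this]; norm_num
  have h2 : dcf 2 = 1 / 2 := by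
    have := dcf_two_add 0
    simp at this; rw [this]; norm_num
  have hd := hasDerivAt_g 1
  rw [cf_one, h1, h2] at hd
  obtain ⟨ε, hε, hloc⟩ := nearOne_local hd nearOne_g_one (by norm_num [abs_lt])
  exact ⟨ε, hε, fun x hx => nearOne_of_g (hloc x hx)⟩

theorem nearOne_cf_iter (k a : ℕ) : cf^[k] (a : ℝ) = ((T^[k] a : ℕ) : ℝ) := by
  induction k with
  | zero => rfl
  | succ k ih => rw [Function.iterate_succ_apply', Function.iterate_succ_apply', ih, cf_natCast]

theorem toOne_int {a k : ℕ} (h : T^[k] a = 1) : ∃ ρ : ℝ, 0 < ρ ∧ ∀ x : ℝ, |x - a| < ρ → ToOne x := by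
  obtain ⟨ρ, hρ, hnb⟩ := toOne_nbhd
  have hc : Continuous (cf^[k]) := continuous_cf.iterate k
  have hval : cf^[k] (a : ℝ) = 1 := by rw [nearOne_cf_iter, h]; norm_num
  have h1 := Metric.continuousAt_iff.1 (hc.continuousAt (x := (a : ℝ))) ρ hρ
  obtain ⟨δ, hδ, h2⟩ := h1
  refine ⟨δ, hδ, fun x hx => toOne_iter (n := k) (hnb _ ?_)⟩
  have h3 := h2 (show dist x (a : ℝ) < δ by rwa [Real.dist_eq])
  rw [hval, Real.dist_eq] at h3
  exact h3

/-- an orbit in the traps which is attracted by `{1,2}` comes from an integer orbit which reaches 1 -/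
theorem reach_of_toOne {m : ℕ} (hm : 0 < m) {c : ℝ} (hc : c ∈ trapI m) (h : ToOne c) :
    ∃ k : ℕ, T^[k] m = 1 := by
  obtain ⟨j, hj⟩ := h
  have h1 : ∀ᶠ k : ℕ in atTop, cf^[2 * k + j] c < 2 := hj.eventually (Iio_mem_nhds (by norm_num))
  obtain ⟨k, hk⟩ := h1.exists
  refine ⟨2 * k + j, ?_⟩
  obtain ⟨hpos, hmem⟩ := iter_mem_trap hm hc (2 * k + j)
  have h2 : ((T^[2 * k + j] m : ℕ) : ℝ) < 2 := lt_of_le_of_lt hmem.1 hk
  have h3 : T^[2 * k + j] m < 2 := by exact_mod_cast h2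
  omega

end Pool.Agent.Lib.MP_a247fa_nt.Crit
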